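import Pool.Agent.Lib.MP_6bf31b_an.Defs

/-!
# Small perturbations of an embedded hexagon are ambient isotopic to it
-/

namespace MP6bf31b

open AffineMap Set
open scoped NNReal

/-- Value of the `k`-th barycentric coordinate at parameter `s` of edge `i`. -/
noncomputable def bval (k i : Fin 6) (s : ℝ) : ℝ :=
  (1 - s) * (if i = k then 1 else 0) + s * (if i + 1 = k then 1 else 0)

lemma bval_mem (k i : Fin 6) {s : ℝ} (hs : s ∈ Icc (0 : ℝ) 1) : bval k i s ∈ Icc (0 : ℝ) 1 := by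
  obtain ⟨h0, h1⟩ := hs
  unfold bval
  split_ifs <;> constructor <;> simp <;> linarith

lemma bval_one (k i : Fin 6) : bval k i 1 = bval k (i + 1) 0 := by
  unfold bval; simp

lemma bval_sub (k i : Fin 6) (s t : ℝ) : |bval k i s - bval k i t| ≤ |s - t| := by
  have : bval k i s - bval k i t =
      (s - t) * ((if i + 1 = k then 1 else 0) - (if i = k then 1 else 0)) := by
    unfold bval; ring
  rw [this, abs_mul]
  have h : |(if i + 1 = k then (1 : ℝ) else 0) - (if i = k then 1 else 0)| ≤ 1 := by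
    split_ifs <;> norm_num
  calc |s - t| * _ ≤ |s - t| * 1 := mul_le_mul_of_nonneg_left h (abs_nonneg _)
    _ = _ := mul_one _

lemma fin6_ne1 : ∀ i : Fin 6, i ≠ i + 1 := by decide
lemma fin6_ne2 : ∀ i : Fin 6, i ≠ i + 1 + 1 := by decide
lemma fin6_ne3 : ∀ i : Fin 6, i + 1 ≠ i + 1 + 1 := by decide

lemma mem_edge_iff (p : Fin 6 → P3) (i : Fin 6) (x : P3) :
    x ∈ edge p i ↔ ∃ s ∈ Icc (0 : ℝ) 1, lineMap (p i) (p (i + 1)) s = x := by
  unfold edge
  rw [segment_eq_image_lineMap]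
  rfl

lemma lineMap_mem_edge (p : Fin 6 → P3) (i : Fin 6) {s : ℝ} (hs : s ∈ Icc (0 : ℝ) 1) :
    lineMap (p i) (p (i + 1)) s ∈ edge p i := (mem_edge_iff p i _).mpr ⟨s, hs, rfl⟩

/-- The basic estimate for two adjacent edges. -/
lemma adjacent_bound {p : Fin 6 → P3} (hp : Embedded p) (i : Fin 6) :
    ∃ c > 0, ∀ s ∈ Icc (0 : ℝ) 1, ∀ t ∈ Icc (0 : ℝ) 1,
      c * ((1 - s) + t) ≤ dist (lineMap (p i) (p (i + 1)) s)
        (lineMap (p (i + 1)) (p (i + 1 + 1)) t) := by
  set u : P3 := p i - p (i + 1) with hu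
  set w : P3 := p (i + 1 + 1) - p (i + 1) with hw
  have hdist : ∀ s t : ℝ, dist (lineMap (p i) (p (i + 1)) s)
      (lineMap (p (i + 1)) (p (i + 1 + 1)) t) = ‖(1 - s) • u - t • w‖ := by
    intro s t
    rw [dist_eq_norm]
    congr 1
    simp only [lineMap_apply, vsub_eq_sub, vadd_eq_add, hu, hw]
    module
  have hne : ∀ l ∈ Icc (0 : ℝ) 1, (1 - l) • u - l • w ≠ 0 := by
    intro l hl h0
    have heq : (1 - l) • u = l • w := sub_eq_zero.mp h0
    have hmem : p (i + 1) + l • w ∈ edge p i ∩ edge p (i + 1) := by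
      constructor
      · rw [← heq]
        refine (mem_edge_iff p i _).mpr ⟨l, hl, ?_⟩
        simp only [lineMap_apply, vsub_eq_sub, vadd_eq_add, hu]
        module
      · refine (mem_edge_iff p (i + 1) _).mpr ⟨l, hl, ?_⟩
        simp only [lineMap_apply, vsub_eq_sub, vadd_eq_add, hw]
        module
    have hi : i ≠ i + 1 := fin6_ne1 i
    have hi2 : i ≠ i + 1 + 1 := fin6_ne2 i
    have hi3 : i + 1 ≠ i + 1 + 1 := fin6_ne3 i
    have hx : p (i + 1) + l • w = p (i + 1) := by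
      rcases hp.2 i (i + 1) hi _ hmem with h | h
      · exact h.2
      · exact absurd h.1 hi2
    have hlw : l • w = 0 := by simpa using hx
    rw [hlw] at heq
    rcases smul_eq_zero.mp hlw with h | h
    · rw [h, sub_zero, one_smul] at heq
      exact hi (hp.1 (sub_eq_zero.mp heq))
    · exact hi3 (hp.1 (sub_eq_zero.mp h).symm)
  obtain ⟨l0, hl0, hmin⟩ := isCompact_Icc.exists_isMinOn (nonempty_Icc.mpr zero_le_one)
    (f := fun l : ℝ => ‖(1 - l) • u - l • w‖) (by fun_prop)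
  refine ⟨‖(1 - l0) • u - l0 • w‖, norm_pos_iff.mpr (hne l0 hl0), ?_⟩
  intro s hs t ht
  rw [hdist]
  obtain ⟨hs0, hs1⟩ := hs
  obtain ⟨ht0, ht1⟩ := ht
  rcases eq_or_lt_of_le (show 0 ≤ (1 - s) + t by linarith) with h | h
  · rw [← h, mul_zero]; exact norm_nonneg _
  · have hl : t / ((1 - s) + t) ∈ Icc (0 : ℝ) 1 :=
      ⟨by positivity, (div_le_one h).mpr (by linarith)⟩
    have h1 : ‖(1 - l0) • u - l0 • w‖ ≤
        ‖(1 - t / (1 - s + t)) • u - (t / (1 - s + t)) • w‖ := hmin hl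
    have e : (1 - s) • u - t • w =
        ((1 - s) + t) • ((1 - t / ((1 - s) + t)) • u - (t / ((1 - s) + t)) • w) := by
      have e1 : (1 - s + t) * (1 - t / (1 - s + t)) = 1 - s := by field_simp; ring
      have e2 : (1 - s + t) * (t / (1 - s + t)) = t := by field_simp
      rw [smul_sub ((1 - s) + t), smul_smul, smul_smul, e1, e2]
    rw [e, norm_smul, Real.norm_eq_abs, abs_of_pos h, mul_comm]
    exact mul_le_mul_of_nonneg_left h1 h.le

/-- The basic estimate for two edges without common vertex. -/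
lemma nonadjacent_bound {p : Fin 6 → P3} (hp : Embedded p) (i j : Fin 6) (hij : i ≠ j)
    (h1 : j ≠ i + 1) (h2 : i ≠ j + 1) :
    ∃ c > 0, ∀ s ∈ Icc (0 : ℝ) 1, ∀ t ∈ Icc (0 : ℝ) 1,
      c ≤ dist (lineMap (p i) (p (i + 1)) s) (lineMap (p j) (p (j + 1)) t) := by
  have hK : IsCompact (Icc (0 : ℝ) 1 ×ˢ Icc (0 : ℝ) 1) := isCompact_Icc.prod isCompact_Icc
  have hN : (Icc (0 : ℝ) 1 ×ˢ Icc (0 : ℝ) 1).Nonempty :=
    (nonempty_Icc.mpr zero_le_one).prod (nonempty_Icc.mpr zero_le_one)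
  have hC : Continuous (fun z : ℝ × ℝ => dist (lineMap (p i) (p (i + 1)) z.1 : P3)
      (lineMap (p j) (p (j + 1)) z.2)) := by
    simp only [lineMap_apply, vsub_eq_sub, vadd_eq_add]
    fun_prop
  obtain ⟨z, hz, hmin⟩ := hK.exists_isMinOn hN hC.continuousOn
  have hpos : 0 < dist (lineMap (p i) (p (i + 1)) z.1 : P3) (lineMap (p j) (p (j + 1)) z.2) := by
    refine dist_pos.mpr ?_
    intro heq
    have hmem : (lineMap (p i) (p (i + 1)) z.1 : P3) ∈ edge p i ∩ edge p j :=
      ⟨lineMap_mem_edge p i hz.1, by rw [heq]; exact lineMap_mem_edge p j hz.2⟩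
    rcases hp.2 i j hij _ hmem with h | h
    · exact h1 h.1
    · exact h2 h.1
  refine ⟨_, hpos, fun s hs t ht => ?_⟩
  exact hmin (a := (s, t)) ⟨hs, ht⟩

lemma bval_bound {p : Fin 6 → P3} (hp : Embedded p) (k i j : Fin 6) :
    ∃ C : ℝ, 0 ≤ C ∧ ∀ s ∈ Icc (0 : ℝ) 1, ∀ t ∈ Icc (0 : ℝ) 1,
      |bval k i s - bval k j t| ≤
        C * dist (lineMap (p i) (p (i + 1)) s : P3) (lineMap (p j) (p (j + 1)) t) := by
  have adj : ∀ i : Fin 6, ∃ C : ℝ, 0 ≤ C ∧ ∀ s ∈ Icc (0 : ℝ) 1, ∀ t ∈ Icc (0 : ℝ) 1,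
      |bval k i s - bval k (i + 1) t| ≤
        C * dist (lineMap (p i) (p (i + 1)) s : P3) (lineMap (p (i + 1)) (p (i + 1 + 1)) t) := by
    intro i
    obtain ⟨c, hc, h⟩ := adjacent_bound hp i
    refine ⟨c⁻¹, by positivity, fun s hs t ht => ?_⟩
    have h1 : |bval k i s - bval k (i + 1) t| ≤ (1 - s) + t := by
      have e : bval k i s - bval k (i + 1) t = (bval k i s - bval k i 1) +
          (bval k (i + 1) 0 - bval k (i + 1) t) := by rw [bval_one]; ring
      rw [e]
      refine (abs_add_le _ _).trans ?_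
      have a1 := bval_sub k i s 1
      have a2 := bval_sub k (i + 1) 0 t
      rw [abs_of_nonpos (by linarith [hs.2] : s - 1 ≤ 0)] at a1
      rw [abs_of_nonpos (by linarith [ht.1] : 0 - t ≤ 0)] at a2
      linarith
    have h2 := h s hs t ht
    rw [inv_mul_eq_div, le_div_iff₀ hc]
    nlinarith
  by_cases hij : i = j
  · subst hij
    have hne : p i ≠ p (i + 1) := hp.1.ne (fin6_ne1 i)
    have hpos : 0 < dist (p i) (p (i + 1)) := dist_pos.mpr hne
    refine ⟨(dist (p i) (p (i + 1)))⁻¹, by positivity, fun s hs t ht => ?_⟩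
    rw [dist_lineMap_lineMap, Real.dist_eq]
    have := bval_sub k i s t
    field_simp
    exact this
  · by_cases h1 : j = i + 1
    · subst h1
      exact adj i
    · by_cases h2 : i = j + 1
      · subst h2
        obtain ⟨C, hC, h⟩ := adj j
        refine ⟨C, hC, fun s hs t ht => ?_⟩
        rw [abs_sub_comm, dist_comm]
        exact h t ht s hs
      · obtain ⟨c, hc, h⟩ := nonadjacent_bound hp i j hij h1 h2
        refine ⟨c⁻¹, by positivity, fun s hs t ht => ?_⟩
        have a := bval_mem k i hs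
        have b := bval_mem k j ht
        have h3 : |bval k i s - bval k j t| ≤ 1 := by
          rw [abs_le]; constructor <;> linarith [a.1, a.2, b.1, b.2]
        have h4 := h s hs t ht
        rw [inv_mul_eq_div, le_div_iff₀ hc]
        nlinarith

/-- Lipschitz barycentric functions. -/
lemma exists_bary {p : Fin 6 → P3} (hp : Embedded p) (k : Fin 6) :
    ∃ (C : ℝ≥0) (φ : P3 → ℝ), LipschitzWith C φ ∧ ∀ i, ∀ s ∈ Icc (0 : ℝ) 1,
      φ (lineMap (p i) (p (i + 1)) s) = bval k i s := by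
  choose C hC0 hC using fun i j => bval_bound hp k i j
  set D : ℝ := ∑ i, ∑ j, C i j with hD
  have hD0 : 0 ≤ D := Finset.sum_nonneg fun i _ => Finset.sum_nonneg fun j _ => hC0 i j
  have hle : ∀ i j, C i j ≤ D := by
    intro i j
    calc C i j ≤ ∑ j, C i j := Finset.single_le_sum (fun j _ => hC0 i j) (Finset.mem_univ j)
      _ ≤ D := Finset.single_le_sum (f := fun i => ∑ j, C i j)
        (fun i _ => Finset.sum_nonneg fun j _ => hC0 i j) (Finset.mem_univ i)
  have hb : ∀ i j, ∀ s ∈ Icc (0 : ℝ) 1, ∀ t ∈ Icc (0 : ℝ) 1, |bval k i s - bval k j t| ≤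
        D * dist (lineMap (p i) (p (i + 1)) s : P3) (lineMap (p j) (p (j + 1)) t) := by
    intro i j s hs t ht
    exact (hC i j s hs t ht).trans (mul_le_mul_of_nonneg_right (hle i j) dist_nonneg)
  classical
  set b : P3 → ℝ := fun x => if h : ∃ i, ∃ s ∈ Icc (0 : ℝ) 1, lineMap (p i) (p (i + 1)) s = x then
    bval k h.choose h.choose_spec.choose else 0 with hbdef
  have hbval : ∀ i, ∀ s ∈ Icc (0 : ℝ) 1, b (lineMap (p i) (p (i + 1)) s) = bval k i s := by
    intro i s hs
    have h : ∃ j, ∃ t ∈ Icc (0 : ℝ) 1,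
        lineMap (p j) (p (j + 1)) t = (lineMap (p i) (p (i + 1)) s : P3) := ⟨i, s, hs, rfl⟩
    have e : b (lineMap (p i) (p (i + 1)) s) = bval k h.choose h.choose_spec.choose := by
      simp only [hbdef]; rw [dif_pos h]
    rw [e]
    have h1 := h.choose_spec.choose_spec.1
    have h2 := h.choose_spec.choose_spec.2
    have h3 := hb h.choose i _ h1 _ hs
    rw [h2, dist_self, mul_zero] at h3
    have h4 := abs_nonpos_iff.mp h3
    linarith
  have hlip : LipschitzOnWith ⟨D, hD0⟩ b (carrier p) := by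
    refine LipschitzOnWith.of_dist_le_mul ?_
    intro x hx y hy
    obtain ⟨i, hi⟩ := mem_iUnion.mp hx
    obtain ⟨j, hj⟩ := mem_iUnion.mp hy
    obtain ⟨s, hs, rfl⟩ := (mem_edge_iff p i x).mp hi
    obtain ⟨t, ht, rfl⟩ := (mem_edge_iff p j y).mp hj
    rw [hbval i s hs, hbval j t ht, Real.dist_eq]
    exact hb i j s hs t ht
  obtain ⟨φ, hφ, heq⟩ := hlip.extend_real
  refine ⟨_, φ, hφ, fun i s hs => ?_⟩
  rw [← heq (mem_iUnion.mpr ⟨i, lineMap_mem_edge p i hs⟩), hbval i s hs]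

/-- Adding a small Lipschitz map to the identity gives a homeomorphism. -/
lemma exists_homeo {G : P3 → P3} {K : ℝ≥0} (hK : K < 1) (hG : LipschitzWith K G) {s : ℝ}
    (hs : s ∈ Icc (0 : ℝ) 1) : ∃ h : P3 ≃ₜ P3, ∀ x, h x = x + s • G x := by
  have happ : ApproximatesLinearOn (fun x => x + s • G x)
      ((ContinuousLinearEquiv.refl ℝ P3 : P3 ≃L[ℝ] P3) : P3 →L[ℝ] P3) univ K := by
    have : LipschitzOnWith K (fun x => (x + s • G x) - x) univ := by
      refine LipschitzOnWith.of_dist_le_mul ?_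
      intro x _ y _
      have e : dist (x + s • G x - x) (y + s • G y - y) = s * dist (G x) (G y) := by
        rw [add_sub_cancel_left, add_sub_cancel_left, dist_eq_norm, ← smul_sub, norm_smul,
          Real.norm_eq_abs, abs_of_nonneg hs.1, dist_eq_norm]
      rw [e]
      have h1 := hG.dist_le_mul x y
      have h2 : s * dist (G x) (G y) ≤ 1 * dist (G x) (G y) :=
        mul_le_mul_of_nonneg_right hs.2 dist_nonneg
      linarith
    rw [ApproximatesLinearOn]
    intro x hx y hy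
    have := this.dist_le_mul x hx y hy
    simp only [dist_eq_norm] at this
    convert! this using 2
    simp
    abel
  have hN : ‖(((ContinuousLinearEquiv.refl ℝ P3).symm : P3 ≃L[ℝ] P3) : P3 →L[ℝ] P3)‖₊ = 1 := by
    have : (((ContinuousLinearEquiv.refl ℝ P3).symm : P3 ≃L[ℝ] P3) : P3 →L[ℝ] P3) =
      ContinuousLinearMap.id ℝ P3 := rfl
    rw [this]
    exact ContinuousLinearMap.nnnorm_id
  refine ⟨happ.toHomeomorph _ (Or.inr ?_), fun x => rfl⟩
  rw [hN]
  simpa using hK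

end MP6bf31b
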