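import Mathlib

/-!
# A hexagon inscribed in a circle without crossings is the boundary of a convex set
-/

namespace MP6bf31b

open Set

/-- The cross product in the plane. -/
def cr (a b : ℂ) : ℝ := a.re * b.im - a.im * b.re

lemma on_line {a b x : ℂ} (hab : a ≠ b) (h : cr (b - a) (x - a) = 0) :
    ∃ t : ℝ, x = a + t • (b - a) := by
  have hne : b - a ≠ 0 := sub_ne_zero.mpr hab.symm
  have hn : (b - a).re ^ 2 + (b - a).im ^ 2 ≠ 0 := by
    intro h0
    apply hne
    have h1 : (b - a).re = 0 := by nlinarith [sq_nonneg (b - a).re, sq_nonneg (b - a).im]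
    have h2 : (b - a).im = 0 := by nlinarith [sq_nonneg (b - a).re, sq_nonneg (b - a).im]
    exact Complex.ext h1 h2
  unfold cr at h
  refine ⟨((b - a).re * (x - a).re + (b - a).im * (x - a).im) /
    ((b - a).re ^ 2 + (b - a).im ^ 2), ?_⟩
  apply Complex.ext
  · simp only [Complex.add_re, Complex.real_smul, Complex.mul_re, Complex.ofReal_re,
      Complex.ofReal_im, zero_mul, sub_zero]
    have : x.re = a.re + (x - a).re := by simp
    rw [this]
    field_simp
    linear_combination -(b - a).im * h
  · simp only [Complex.add_im, Complex.real_smul, Complex.mul_im, Complex.ofReal_re,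
      Complex.ofReal_im, zero_mul, add_zero]
    have : x.im = a.im + (x - a).im := by simp
    rw [this]
    field_simp
    linear_combination (b - a).re * h

lemma norm_sq_eq (z : ℂ) : ‖z‖ ^ 2 = z.re ^ 2 + z.im ^ 2 := by
  rw [← Complex.normSq_eq_norm_sq, Complex.normSq_apply]; ring

lemma mem_segment_of_le {a b x : ℂ} (ha : ‖a‖ = 1) (hb : ‖b‖ = 1) (hab : a ≠ b)
    (h : cr (b - a) (x - a) = 0) (hx : ‖x‖ ≤ 1) : x ∈ segment ℝ a b := by
  obtain ⟨t, rfl⟩ := on_line hab h
  have ha2 : a.re ^ 2 + a.im ^ 2 = 1 := by rw [← norm_sq_eq, ha]; norm_num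
  have hb2 : b.re ^ 2 + b.im ^ 2 = 1 := by rw [← norm_sq_eq, hb]; norm_num
  have hx2 : ‖a + t • (b - a)‖ ^ 2 ≤ 1 := by
    have := norm_nonneg (a + t • (b - a)); nlinarith
  rw [norm_sq_eq] at hx2
  simp only [Complex.add_re, Complex.real_smul, Complex.mul_re, Complex.ofReal_re,
      Complex.ofReal_im, zero_mul, sub_zero, Complex.add_im, Complex.mul_im, add_zero] at hx2
  have hpos : 0 < (b - a).re ^ 2 + (b - a).im ^ 2 := by
    rw [← norm_sq_eq]
    have := norm_pos_iff.mpr (sub_ne_zero.mpr hab.symm)
    positivity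
  have key : (a.re + t * (b - a).re) ^ 2 + (a.im + t * (b - a).im) ^ 2 =
      1 - t * (1 - t) * ((b - a).re ^ 2 + (b - a).im ^ 2) := by
    simp only [Complex.sub_re, Complex.sub_im]
    linear_combination (1 - t) * ha2 + t * hb2
  rw [key] at hx2
  have h2 : 0 ≤ t * (1 - t) := by
    by_contra hcon
    push Not at hcon
    nlinarith
  have ht0 : 0 ≤ t := by
    by_contra hcon; push Not at hcon; nlinarith
  have ht1 : t ≤ 1 := by
    by_contra hcon; push Not at hcon; nlinarith
  rw [segment_eq_image']
  exact ⟨t, ⟨ht0, ht1⟩, rfl⟩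

lemma same_side {a b c d : ℂ} (ha : ‖a‖ = 1) (hb : ‖b‖ = 1) (hc : ‖c‖ = 1) (hd : ‖d‖ = 1)
    (hab : a ≠ b) (hdis : Disjoint (segment ℝ a b) (segment ℝ c d)) :
    0 < cr (b - a) (c - a) * cr (b - a) (d - a) := by
  by_contra hcon
  push Not at hcon
  have hex : ∃ x ∈ segment ℝ c d, cr (b - a) (x - a) = 0 := by
    have haff : ∀ t : ℝ, cr (b - a) (c + t • (d - c) - a) =
        (1 - t) * cr (b - a) (c - a) + t * cr (b - a) (d - a) := by
      intro t
      unfold cr
      simp only [Complex.add_re, Complex.real_smul, Complex.mul_re, Complex.ofReal_re,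
        Complex.ofReal_im, zero_mul, sub_zero, Complex.add_im, Complex.mul_im, add_zero,
        Complex.sub_re, Complex.sub_im]
      ring
    rw [segment_eq_image']
    set s := cr (b - a) (c - a) with hs
    set r := cr (b - a) (d - a) with hr
    by_cases h0 : s = r
    · have hs0 : s = 0 := by
        rw [← h0] at hcon; nlinarith [mul_self_nonneg s]
      exact ⟨c + (0 : ℝ) • (d - c), ⟨0, by simp, rfl⟩, by rw [haff]; rw [hs0]; rw [← h0, hs0]; simp⟩
    · have hsr : s - r ≠ 0 := sub_ne_zero.mpr h0
      refine ⟨c + (s / (s - r)) • (d - c), ⟨s / (s - r), ⟨?_, ?_⟩, rfl⟩, ?_⟩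
      · have h1 : 0 ≤ s * (s - r) := by nlinarith [mul_self_nonneg s]
        have : s / (s - r) = s * (s - r) / (s - r) ^ 2 := by field_simp
        rw [this]; positivity
      · have h1 : 0 ≤ -r * (s - r) := by nlinarith [mul_self_nonneg r]
        have h2 : 1 - s / (s - r) = -r * (s - r) / (s - r) ^ 2 := by field_simp; ring
        have h3 : 0 ≤ 1 - s / (s - r) := by rw [h2]; positivity
        linarith
      · rw [haff]; field_simp; ring
  obtain ⟨x, hx, hx0⟩ := hex
  have hxn : ‖x‖ ≤ 1 := by
    have hconv : Convex ℝ (Metric.closedBall (0 : ℂ) 1) := convex_closedBall _ _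
    have := hconv.segment_subset (x := c) (y := d) (by simp [hc]) (by simp [hd]) hx
    simpa using this
  exact Set.disjoint_left.mp hdis (mem_segment_of_le ha hb hab hx0 hxn) hx

/-- The affine function vanishing on the line through edge `i`. -/
def sd (z : Fin 6 → ℂ) (i : Fin 6) (x : ℂ) : ℝ := cr (z (i + 1) - z i) (x - z i)

lemma sd_affine (z : Fin 6 → ℂ) (i : Fin 6) (x y : ℂ) (a b : ℝ) (hab : a + b = 1) :
    sd z i (a • x + b • y) = a * sd z i x + b * sd z i y := by
  unfold sd cr
  have hb : b = 1 - a := by linarith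
  subst hb
  simp only [Complex.add_re, Complex.real_smul, Complex.mul_re, Complex.ofReal_re,
        Complex.ofReal_im, zero_mul, sub_zero, Complex.add_im, Complex.mul_im, add_zero,
        Complex.sub_re, Complex.sub_im]
  ring

lemma sd_continuous (z : Fin 6 → ℂ) (i : Fin 6) : Continuous (sd z i) := by
  unfold sd cr
  fun_prop

lemma sd_self (z : Fin 6 → ℂ) (i : Fin 6) : sd z i (z i) = 0 := by
  simp [sd, cr]

lemma sd_next (z : Fin 6 → ℂ) (i : Fin 6) : sd z i (z (i + 1)) = 0 := by
  simp only [sd, cr]; ring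

/-- The strictly convex case. -/
lemma exists_homeo_of_pos (z : Fin 6 → ℂ)
    (hpos : ∀ i j : Fin 6, j ≠ i → j ≠ i + 1 → 0 < sd z i (z j)) :
    ∃ h : ℂ ≃ₜ ℂ, h '' (⋃ i, segment ℝ (z i) (z (i + 1))) = Metric.sphere 0 1 := by
  have hnn : ∀ i j : Fin 6, 0 ≤ sd z i (z j) := by
    intro i j
    by_cases h1 : j = i
    · rw [h1, sd_self]
    · by_cases h2 : j = i + 1
      · rw [h2, sd_next]
      · exact (hpos i j h1 h2).le
  set D : Set ℂ := {x | ∀ i, 0 ≤ sd z i x} with hD
  have hDconv : Convex ℝ D := by
    intro x hx y hy a b ha hb hab i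
    rw [sd_affine z i x y a b hab]
    have := hx i; have := hy i
    positivity
  have hDcl : IsClosed D := by
    have : D = ⋂ i, {x | 0 ≤ sd z i x} := by ext x; simp [hD]
    rw [this]
    exact isClosed_iInter fun i => isClosed_le continuous_const (sd_continuous z i)
  have hOpen : IsOpen {x | ∀ i, 0 < sd z i x} := by
    have : {x | ∀ i, 0 < sd z i x} = ⋂ i, {x | 0 < sd z i x} := by ext x; simp
    rw [this]
    exact isOpen_iInter_of_finite fun i => isOpen_lt continuous_const (sd_continuous z i)
  have hint : interior D = {x | ∀ i, 0 < sd z i x} := by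
    apply Subset.antisymm
    · intro x hx i
      by_contra hcon
      push Not at hcon
      have hx0 : sd z i x = 0 := le_antisymm hcon (interior_subset hx i)
      -- move away from z (i+2)
      have hc : Filter.Tendsto (fun t : ℝ => (1 + t) • x + (-t) • z (i + 2)) (nhds 0)
          (nhds x) := by
        have : Continuous fun t : ℝ => (1 + t) • x + (-t) • z (i + 2) := by fun_prop
        have h := this.tendsto 0
        simpa using h
      have hev := hc.eventually (mem_interior_iff_mem_nhds.mp hx)
      have hev2 : ∀ᶠ t : ℝ in nhdsWithin 0 (Ioi 0), (1 + t) • x + (-t) • z (i + 2) ∈ D :=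
        nhdsWithin_le_nhds hev
      obtain ⟨t, ht, ht0⟩ := (hev2.and self_mem_nhdsWithin).exists
      have h1 := ht i
      rw [sd_affine z i _ _ _ _ (by ring), hx0] at h1
      have h2 : 0 < sd z i (z (i + 2)) := hpos i (i + 2)
        (by clear * -; revert i; decide) (by clear * -; revert i; decide)
      have ht0' : 0 < t := ht0
      nlinarith
    · exact interior_maximal (fun x hx i => (hx i).le) hOpen
  have hseg : frontier D = ⋃ i, segment ℝ (z i) (z (i + 1)) := by
    rw [hDcl.frontier_eq, hint]
    ext x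
    constructor
    · rintro ⟨hx, hx'⟩
      simp only [mem_ofPred_eq, not_forall, not_lt] at hx'
      obtain ⟨i, hi⟩ := hx'
      have hx0 : sd z i x = 0 := le_antisymm hi (hx i)
      refine mem_iUnion.mpr ⟨i, ?_⟩
      have hne : z i ≠ z (i + 1) := by
        intro h
        have := hpos i (i + 2) (by clear * -; revert i; decide) (by clear * -; revert i; decide)
        simp [sd, cr, h] at this
      obtain ⟨t, ht⟩ := on_line hne hx0
      have hx2 : x = (1 - t) • z i + t • z (i + 1) := by rw [ht]; module
      have h1 : 0 ≤ t := by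
        have hh := hx (i + 5)
        rw [hx2, sd_affine z _ _ _ _ _ (by ring)] at hh
        have e : z i = z (i + 5 + 1) := by congr 1; clear * -; revert i; decide
        have e2 : sd z (i + 5) (z i) = 0 := by
          conv_lhs => rw [e]
          exact sd_next z (i + 5)
        rw [e2] at hh
        have h3 : 0 < sd z (i + 5) (z (i + 1)) := hpos _ _
          (by clear * -; revert i; decide) (by clear * -; revert i; decide)
        by_contra hcon
        push Not at hcon
        nlinarith
      have h2 : t ≤ 1 := by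
        have hh := hx (i + 1)
        rw [hx2, sd_affine z _ _ _ _ _ (by ring), sd_self] at hh
        have h3 : 0 < sd z (i + 1) (z i) := hpos _ _
          (by clear * -; revert i; decide) (by clear * -; revert i; decide)
        by_contra hcon
        push Not at hcon
        nlinarith
      rw [segment_eq_image]
      exact ⟨t, ⟨h1, h2⟩, hx2.symm⟩
    · intro hx
      obtain ⟨i, hi⟩ := mem_iUnion.mp hx
      refine ⟨hDconv.segment_subset (fun j => hnn j i) (fun j => hnn j (i + 1)) hi, ?_⟩
      simp only [mem_ofPred_eq, not_forall, not_lt]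
      refine ⟨i, ?_⟩
      rw [segment_eq_image] at hi
      obtain ⟨t, _, rfl⟩ := hi
      simp only
      rw [sd_affine z _ _ _ _ _ (by ring), sd_self, sd_next]
      simp
  have hne : (interior D).Nonempty := by
    rw [hint]
    refine ⟨(1 / 3 : ℝ) • z 0 + (2 / 3 : ℝ) • ((1 / 2 : ℝ) • z 2 + (1 / 2 : ℝ) • z 4), ?_⟩
    intro i
    rw [sd_affine z _ _ _ _ _ (by norm_num), sd_affine z _ _ _ _ _ (by norm_num)]
    have h0 := hnn i 0
    have h2 := hnn i 2
    have h4 := hnn i 4
    have : 0 < sd z i (z 0) ∨ 0 < sd z i (z 2) ∨ 0 < sd z i (z 4) := by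
      have : ∀ i : Fin 6, ((0 : Fin 6) ≠ i ∧ (0 : Fin 6) ≠ i + 1) ∨
        ((2 : Fin 6) ≠ i ∧ (2 : Fin 6) ≠ i + 1) ∨ ((4 : Fin 6) ≠ i ∧ (4 : Fin 6) ≠ i + 1) := by
          decide
      rcases this i with h | h | h
      · exact Or.inl (hpos i _ h.1 h.2)
      · exact Or.inr (Or.inl (hpos i _ h.1 h.2))
      · exact Or.inr (Or.inr (hpos i _ h.1 h.2))
    rcases this with h | h | h <;> linarith
  have hbdd : Bornology.IsBounded D := by
    -- the `sd z i x` are nonnegative with constant sum
    set M : ℝ := ∑ i, sd z i 0 with hM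
    have hsum : ∀ x, ∑ i, sd z i x = M := by
      intro x
      rw [hM]
      simp only [Fin.sum_univ_six, sd, cr]
      simp only [Complex.sub_re, Complex.sub_im, Complex.zero_re, Complex.zero_im]
      have e1 : (0 : Fin 6) + 1 = 1 := rfl
      have e2 : (1 : Fin 6) + 1 = 2 := rfl
      have e3 : (2 : Fin 6) + 1 = 3 := rfl
      have e4 : (3 : Fin 6) + 1 = 4 := rfl
      have e5 : (4 : Fin 6) + 1 = 5 := rfl
      have e6 : (5 : Fin 6) + 1 = 0 := rfl
      rw [e1, e2, e3, e4, e5, e6]
      ring
    have hle : ∀ x ∈ D, ∀ i, sd z i x ≤ M := by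
      intro x hx i
      rw [← hsum x]
      exact Finset.single_le_sum (f := fun i => sd z i x) (fun j _ => hx j) (Finset.mem_univ i)
    set a := z 1 - z 0 with ha
    set b := z 2 - z 1 with hb
    have hab : 0 < cr a b := by
      have := hpos 0 2 (by decide) (by decide)
      have e : sd z 0 (z 2) = cr a b := by
        simp only [sd, cr, ha, hb, Complex.sub_re, Complex.sub_im, zero_add]; ring
      rwa [e] at this
    -- x = (cr(a, x) b - cr(b, x) a)/cr(a, b)
    have hx : ∀ x : ℂ, x = ((cr a x) / cr a b) • b - ((cr b x) / cr a b) • a := by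
      intro x
      apply Complex.ext
      · simp only [Complex.sub_re, Complex.real_smul, Complex.mul_re, Complex.ofReal_re,
          Complex.ofReal_im, zero_mul, sub_zero]
        field_simp
        simp only [cr]; ring
      · simp only [Complex.sub_im, Complex.real_smul, Complex.mul_im, Complex.ofReal_re,
          Complex.ofReal_im, zero_mul, add_zero]
        field_simp
        simp only [cr]; ring
    rw [isBounded_iff_forall_norm_le]
    refine ⟨((|M| + |cr a (z 0)|) / cr a b) * ‖b‖ + ((|M| + |cr b (z 1)|) / cr a b) * ‖a‖, ?_⟩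
    intro x hxD
    have h0 : |cr a x| ≤ |M| + |cr a (z 0)| := by
      have e : cr a x = sd z 0 x + cr a (z 0) := by
        simp only [sd, cr, ha, Complex.sub_re, Complex.sub_im, zero_add]; ring
      rw [e]
      refine (abs_add_le _ _).trans ?_
      have h1 := hxD 0
      have h2 := hle x hxD 0
      rw [abs_of_nonneg h1]
      have := le_abs_self M
      linarith
    have h1 : |cr b x| ≤ |M| + |cr b (z 1)| := by
      have e : cr b x = sd z 1 x + cr b (z 1) := by
        have e2 : (1 : Fin 6) + 1 = 2 := rfl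
        simp only [sd, cr, hb, Complex.sub_re, Complex.sub_im, e2]; ring
      rw [e]
      refine (abs_add_le _ _).trans ?_
      have h1 := hxD 1
      have h2 := hle x hxD 1
      rw [abs_of_nonneg h1]
      have := le_abs_self M
      linarith
    conv_lhs => rw [hx x]
    refine (norm_sub_le _ _).trans ?_
    rw [norm_smul, norm_smul, Real.norm_eq_abs, Real.norm_eq_abs, abs_div, abs_div,
      abs_of_pos hab]
    gcongr
  obtain ⟨h, _, _, hf⟩ := exists_homeomorph_image_interior_closure_frontier_eq_unitBall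
    hDconv hne hbdd
  exact ⟨h, by rw [← hseg]; exact hf⟩

lemma sd_succ (z : Fin 6 → ℂ) (i : Fin 6) : sd z (i + 1) (z i) = sd z i (z (i + 1 + 1)) := by
  simp only [sd, cr, Complex.sub_re, Complex.sub_im]; ring

lemma conj_segment (a b : ℂ) :
    (starRingEnd ℂ) '' segment ℝ a b = segment ℝ ((starRingEnd ℂ) a) ((starRingEnd ℂ) b) := by
  have := image_segment ℝ (Complex.conjLIE.toLinearEquiv.toLinearMap.toAffineMap) a b
  exact this

/-- A hexagon inscribed in the unit circle without crossings can be moved to the unit circle by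
a homeomorphism of the plane. -/
theorem exists_homeo_planar (z : Fin 6 → ℂ) (hz : ∀ i, ‖z i‖ = 1) (hinj : Function.Injective z)
    (hcr : ∀ i j : Fin 6, i ≠ j → j ≠ i + 1 → i ≠ j + 1 →
      Disjoint (segment ℝ (z i) (z (i + 1))) (segment ℝ (z j) (z (j + 1)))) :
    ∃ h : ℂ ≃ₜ ℂ, h '' (⋃ i, segment ℝ (z i) (z (i + 1))) = Metric.sphere 0 1 := by
  have hss : ∀ i j : Fin 6, i ≠ j → j ≠ i + 1 → i ≠ j + 1 →
      0 < sd z i (z j) * sd z i (z (j + 1)) := by
    intro i j h1 h2 h3
    have hne : z i ≠ z (i + 1) := hinj.ne (by clear * -; revert i; decide)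
    exact same_side (hz i) (hz _) (hz j) (hz _) hne (hcr i j h1 h2 h3)
  have h23 : ∀ i, 0 < sd z i (z (i + 2)) * sd z i (z (i + 3)) := by
    intro i
    have := hss i (i + 2) (by clear * -; revert i; decide) (by clear * -; revert i; decide) (by clear * -; revert i; decide)
    rwa [show i + 2 + 1 = i + 3 by clear * -; revert i; decide] at this
  have h34 : ∀ i, 0 < sd z i (z (i + 3)) * sd z i (z (i + 4)) := by
    intro i
    have := hss i (i + 3) (by clear * -; revert i; decide) (by clear * -; revert i; decide) (by clear * -; revert i; decide)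
    rwa [show i + 3 + 1 = i + 4 by clear * -; revert i; decide] at this
  have h45 : ∀ i, 0 < sd z i (z (i + 4)) * sd z i (z (i + 5)) := by
    intro i
    have := hss i (i + 4) (by clear * -; revert i; decide) (by clear * -; revert i; decide) (by clear * -; revert i; decide)
    rwa [show i + 4 + 1 = i + 5 by clear * -; revert i; decide] at this
  have key : ∀ w : Fin 6 → ℂ,
      (∀ i, 0 < sd w i (w (i + 2)) * sd w i (w (i + 3))) →
      (∀ i, 0 < sd w i (w (i + 3)) * sd w i (w (i + 4))) →
      (∀ i, 0 < sd w i (w (i + 4)) * sd w i (w (i + 5))) → 0 < sd w 0 (w 2) →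
      ∃ h : ℂ ≃ₜ ℂ, h '' (⋃ i, segment ℝ (w i) (w (i + 1))) = Metric.sphere 0 1 := by
    intro w w23 w34 w45 w0
    have hchain : ∀ i, 0 < sd w i (w (i + 5)) → 0 < sd w i (w (i + 4)) ∧
        0 < sd w i (w (i + 3)) ∧ 0 < sd w i (w (i + 2)) := by
      intro i h5
      have h4 : 0 < sd w i (w (i + 4)) := by
        by_contra hc; push Not at hc; nlinarith [w45 i]
      have h3 : 0 < sd w i (w (i + 3)) := by
        by_contra hc; push Not at hc; nlinarith [w34 i]
      have h2 : 0 < sd w i (w (i + 2)) := by
        by_contra hc; push Not at hc; nlinarith [w23 i]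
      exact ⟨h4, h3, h2⟩
    have hstep : ∀ i, 0 < sd w i (w (i + 2)) → 0 < sd w (i + 1) (w (i + 1 + 5)) := by
      intro i h2
      have e : i + 1 + 5 = i := by clear * -; revert i; decide
      rw [e, sd_succ]
      rwa [show i + 1 + 1 = i + 2 by clear * -; revert i; decide]
    have a0 : 0 < sd w 0 (w (0 + 2)) := w0
    have b1 := hstep 0 a0
    have b2 := hstep _ (hchain _ b1).2.2
    have b3 := hstep _ (hchain _ b2).2.2
    have b4 := hstep _ (hchain _ b3).2.2
    have b5 := hstep _ (hchain _ b4).2.2
    have b6 := hstep _ (hchain _ b5).2.2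
    have h5 : ∀ i, 0 < sd w i (w (i + 5)) := by
      intro i
      fin_cases i
      · exact b6
      · exact b1
      · exact b2
      · exact b3
      · exact b4
      · exact b5
    apply exists_homeo_of_pos
    intro i j hi hj
    have hcases : ∀ i j : Fin 6, j ≠ i → j ≠ i + 1 →
        j = i + 2 ∨ j = i + 3 ∨ j = i + 4 ∨ j = i + 5 := by decide
    rcases hcases i j hi hj with h | h | h | h <;> rw [h]
    · exact (hchain i (h5 i)).2.2
    · exact (hchain i (h5 i)).2.1
    · exact (hchain i (h5 i)).1
    · exact h5 i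
  rcases lt_trichotomy (sd z 0 (z 2)) 0 with h | h | h
  · have hconj : ∀ i x, sd (fun k => (starRingEnd ℂ) (z k)) i ((starRingEnd ℂ) x) =
        - sd z i x := by
      intro i x
      simp only [sd, cr, Complex.sub_re, Complex.sub_im, Complex.conj_re, Complex.conj_im]
      ring
    obtain ⟨g, hg⟩ := key (fun k => (starRingEnd ℂ) (z k))
      (fun i => by rw [hconj, hconj, neg_mul_neg]; exact h23 i)
      (fun i => by rw [hconj, hconj, neg_mul_neg]; exact h34 i)
      (fun i => by rw [hconj, hconj, neg_mul_neg]; exact h45 i)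
      (by rw [hconj]; linarith)
    refine ⟨Complex.conjLIE.toHomeomorph.trans g, ?_⟩
    rw [← hg]
    have : ∀ s : Set ℂ, (Complex.conjLIE.toHomeomorph.trans g) '' s =
        g '' ((starRingEnd ℂ) '' s) := by
      intro s
      rw [image_image]; rfl
    rw [this, image_iUnion]
    simp only [conj_segment]
  · exfalso
    have := h23 0
    rw [zero_add, zero_add, h, zero_mul] at this
    exact lt_irrefl _ this
  · exact key z h23 h34 h45 h

end MP6bf31b
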