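import Pool.Agent.Lib.MP_6bf31b_an.MainA
import Pool.Agent.Lib.MP_6bf31b_an.Planar
import Pool.Agent.Lib.MP_6bf31b_an.Isotopy

/-!
# Embedded hexagons with concyclic vertices are unknotted
-/

namespace MP6bf31b

open Set Module
open scoped RealInnerProductSpace

lemma mem_segment_of_between (b v : P3) {x y z : ℝ} (h1 : x ≤ y) (h2 : y ≤ z) :
    b + y • v ∈ segment ℝ (b + x • v) (b + z • v) := by
  rcases eq_or_lt_of_le (h1.trans h2) with h | h
  · have : y = x := le_antisymm (by linarith) h1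
    rw [this]; exact left_mem_segment _ _ _
  · rw [segment_eq_image']
    have hne : z - x ≠ 0 := by linarith
    refine ⟨(y - x) / (z - x), ⟨by apply div_nonneg <;> linarith, ?_⟩, ?_⟩
    · rw [div_le_one (by linarith)]; linarith
    · have e : (b + z • v) - (b + x • v) = (z - x) • v := by module
      simp only
      rw [e, smul_smul, div_mul_cancel₀ _ hne]
      module

lemma not_collinear {p : Fin 6 → P3} (hp : Embedded p) (v : P3) (t : Fin 6 → ℝ)
    (h : ∀ i, p i = p 0 + t i • v) : False := by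
  obtain ⟨i, hi⟩ := Finite.exists_max t
  have hinj : ∀ a b : Fin 6, a ≠ b → t a ≠ t b := by
    intro a b hab hne
    apply hab
    apply hp.1
    rw [h a, h b, hne]
  set a : Fin 6 := i + 5 with ha
  have hai : a + 1 = i := by rw [ha]; clear * -; revert i; decide
  have hne1 : a ≠ i := by rw [ha]; clear * -; revert i; decide
  have hne2 : i + 1 ≠ i := by clear * -; revert i; decide
  have hne3 : a ≠ i + 1 := by rw [ha]; clear * -; revert i; decide
  rcases le_total (t a) (t (i + 1)) with hle | hle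
  · have hmem : p (i + 1) ∈ edge p a ∩ edge p i := by
      constructor
      · unfold edge
        rw [hai, h (i + 1), h a, h i]
        exact mem_segment_of_between _ _ hle (hi _)
      · exact right_mem_segment _ _ _
    rcases hp.2 a i hne1 _ hmem with hh | hh
    · exact hne2 (hp.1 hh.2)
    · exact hne3 hh.1
  · have hmem : p a ∈ edge p a ∩ edge p i := by
      constructor
      · exact left_mem_segment _ _ _
      · unfold edge
        rw [segment_symm, h (i + 1), h a, h i]
        exact mem_segment_of_between _ _ hle (hi _)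
    rcases hp.2 a i hne1 _ hmem with hh | hh
    · exact hne1 (hp.1 hh.2)
    · exact hne3 hh.1

/-- The identification of `P3` with `ℂ × ℝ`. -/
noncomputable def toCR : P3 ≃ₜ ℂ × ℝ where
  toFun x := ((x 0 : ℂ) + (x 1 : ℂ) * Complex.I, x 2)
  invFun z := !₂[z.1.re, z.1.im, z.2]
  left_inv x := by
    ext i
    fin_cases i <;> simp
  right_inv z := by
    simp [Complex.re_add_im]
  continuous_toFun := by fun_prop
  continuous_invFun := by
    refine (PiLp.continuous_toLp 2 _).comp ?_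
    refine continuous_pi fun i => ?_
    fin_cases i
    · exact Complex.continuous_re.comp continuous_fst
    · exact Complex.continuous_im.comp continuous_fst
    · exact continuous_snd

lemma toCR_apply (x : P3) : toCR x = ((x 0 : ℂ) + (x 1 : ℂ) * Complex.I, x 2) := rfl

lemma toCR_affine (x y : P3) (a b : ℝ) :
    toCR (a • x + b • y) = a • toCR x + b • toCR y := by
  rw [toCR_apply, toCR_apply, toCR_apply]
  refine Prod.ext ?_ ?_
  · simp; ring
  · simp

lemma exists_plane {p : Fin 6 → P3} (hk : 2 ≤ finrank ℝ (LinearMap.ker (Phi p))) :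
    ∃ c ∈ LinearMap.ker (Phi p), c ≠ 0 ∧ c.2.2 = 0 := by
  set π : (LinearMap.ker (Phi p)) →ₗ[ℝ] ℝ :=
    ((LinearMap.snd ℝ P3 ℝ).comp (LinearMap.snd ℝ ℝ (P3 × ℝ))).comp
      (LinearMap.ker (Phi p)).subtype with hπ
  have h1 := LinearMap.finrank_range_add_finrank_ker π
  have h2 : finrank ℝ (LinearMap.range π) ≤ 1 := by
    have := Submodule.finrank_le (LinearMap.range π)
    rwa [finrank_self] at this
  have h3 : 0 < finrank ℝ (LinearMap.ker π) := by omega
  have h4 : LinearMap.ker π ≠ ⊥ := by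
    intro h
    rw [h, finrank_bot] at h3
    omega
  obtain ⟨c, hcm, hc⟩ := Submodule.exists_mem_ne_zero_of_ne_bot h4
  refine ⟨c.1, c.2, ?_, ?_⟩
  · intro h
    apply hc
    apply Subtype.ext
    exact h
  · rw [LinearMap.mem_ker] at hcm
    exact hcm

lemma rel_of_mem {p : Fin 6 → P3} {c : ℝ × P3 × ℝ} (hc : c ∈ LinearMap.ker (Phi p)) (i : Fin 6) :
    c.1 + ⟪p i, c.2.1⟫ + c.2.2 * ‖p i‖ ^ 2 = 0 := by
  rw [LinearMap.mem_ker] at hc
  exact congrFun hc i

lemma exists_sphere {p : Fin 6 → P3} (hp : Embedded p)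
    (hk : 2 ≤ finrank ℝ (LinearMap.ker (Phi p))) :
    ∃ c ∈ LinearMap.ker (Phi p), c.2.2 ≠ 0 := by
  by_contra hcon
  push Not at hcon
  set ρ : (LinearMap.ker (Phi p)) →ₗ[ℝ] P3 :=
    ((LinearMap.fst ℝ P3 ℝ).comp (LinearMap.snd ℝ ℝ (P3 × ℝ))).comp
      (LinearMap.ker (Phi p)).subtype with hρ
  have hinj : Function.Injective ρ := by
    rw [← LinearMap.ker_eq_bot, LinearMap.ker_eq_bot']
    intro c hc
    have h1 : c.1.2.1 = 0 := hc
    have h2 : c.1.2.2 = 0 := hcon c.1 c.2
    have h3 := rel_of_mem c.2 0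
    rw [h1, h2] at h3
    simp at h3
    apply Subtype.ext
    exact Prod.ext h3 (Prod.ext h1 h2)
  have hR : 2 ≤ finrank ℝ (LinearMap.range ρ) := by
    rw [LinearMap.finrank_range_of_inj hinj]; exact hk
  have horth : finrank ℝ (LinearMap.range ρ)ᗮ ≤ 1 := by
    have := Submodule.finrank_add_finrank_orthogonal (LinearMap.range ρ)
    have h3 : finrank ℝ P3 = 3 := by simp
    omega
  have hmem : ∀ i, p i - p 0 ∈ (LinearMap.range ρ)ᗮ := by
    intro i
    rw [Submodule.mem_orthogonal]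
    rintro _ ⟨c, rfl⟩
    have h1 := rel_of_mem c.2 i
    have h2 := rel_of_mem c.2 0
    have h3 : c.1.2.2 = 0 := hcon c.1 c.2
    rw [h3] at h1 h2
    have h4 : ρ c = c.1.2.1 := rfl
    rw [h4, real_inner_comm, inner_sub_left]
    linarith
  obtain ⟨v, hv⟩ := finrank_le_one_iff.mp horth
  choose t ht using fun i => hv ⟨p i - p 0, hmem i⟩
  refine not_collinear hp v.1 t fun i => ?_
  have := congrArg Subtype.val (ht i)
  simp only [Submodule.coe_smul] at this
  rw [this]
  abel

/-- The vertices lie on a circle. -/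
lemma exists_circle {p : Fin 6 → P3} (hp : Embedded p)
    (hk : 2 ≤ finrank ℝ (LinearMap.ker (Phi p))) :
    ∃ (c n : P3) (r : ℝ), 0 < r ∧ ‖n‖ = 1 ∧ ∀ i, ⟪n, p i - c⟫ = 0 ∧ ‖p i - c‖ = r := by
  obtain ⟨c1, hc1, hne, h0⟩ := exists_plane hk
  obtain ⟨c2, hc2, hα⟩ := exists_sphere hp hk
  set β := c1.2.1 with hβ
  have hβ0 : β ≠ 0 := by
    intro hb
    apply hne
    have h3 := rel_of_mem hc1 0
    rw [h0, ← hβ, hb] at h3
    simp at h3
    exact Prod.ext h3 (Prod.ext hb h0)
  have hβn : ‖β‖ ≠ 0 := norm_ne_zero_iff.mpr hβ0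
  set n : P3 := ‖β‖⁻¹ • β with hn
  have hnn : ‖n‖ = 1 := by
    rw [hn, norm_smul, norm_inv, norm_norm, inv_mul_cancel₀ hβn]
  have hplane : ∀ i, ⟪n, p i - p 0⟫ = 0 := by
    intro i
    have h1 := rel_of_mem hc1 i
    have h2 := rel_of_mem hc1 0
    rw [h0, ← hβ] at h1 h2
    rw [hn, real_inner_smul_left, real_inner_comm, inner_sub_left]
    have : ⟪p i, β⟫ - ⟪p 0, β⟫ = 0 := by linarith
    rw [this, mul_zero]
  set α := c2.2.2 with hαdef
  set s : P3 := -(1 / (2 * α)) • c2.2.1 with hs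
  have hsph : ∀ i, ‖p i - s‖ ^ 2 = ‖p 0 - s‖ ^ 2 := by
    intro i
    have h1 := rel_of_mem hc2 i
    have h2 := rel_of_mem hc2 0
    rw [@norm_sub_sq_real, @norm_sub_sq_real, hs, inner_smul_right, inner_smul_right]
    field_simp
    rw [← hαdef] at h1 h2
    linear_combination h1 - h2
  set k : ℝ := ⟪n, s - p 0⟫ with hk'
  set c : P3 := s - k • n with hc
  have hA : ∀ i, ⟪n, p i - s⟫ = -k := by
    intro i
    have h1 := hplane i
    have : p i - s = (p i - p 0) - (s - p 0) := by abel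
    rw [this, inner_sub_right, h1, hk']; ring
  have hB : ∀ i, ‖p i - c‖ ^ 2 = ‖p i - s‖ ^ 2 - k ^ 2 := by
    intro i
    have e : p i - c = (p i - s) + k • n := by rw [hc]; abel
    rw [e, @norm_add_sq_real, inner_smul_right, real_inner_comm, hA i, norm_smul, hnn]
    simp only [Real.norm_eq_abs, mul_one, sq_abs]
    ring
  have hC : ∀ i, ‖p i - c‖ = ‖p 0 - c‖ := by
    intro i
    have h1 := hB i
    have h2 := hB 0
    rw [hsph i] at h1
    have h3 : ‖p i - c‖ ^ 2 = ‖p 0 - c‖ ^ 2 := by rw [h1, h2]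
    exact (sq_eq_sq₀ (norm_nonneg _) (norm_nonneg _)).mp h3
  refine ⟨c, n, ‖p 0 - c‖, ?_, hnn, fun i => ⟨?_, hC i⟩⟩
  · rcases (norm_nonneg (p 0 - c)).eq_or_lt with h | h
    · exfalso
      have h1 := hC 1
      rw [← h] at h1
      have h2 := norm_eq_zero.mp h1
      have h3 := norm_eq_zero.mp h.symm
      have : p 1 = p 0 := by rw [sub_eq_zero.mp h2, sub_eq_zero.mp h3]
      exact absurd (hp.1 this) (by decide)
    · exact h
  · have e : p i - c = (p i - s) + k • n := by rw [hc]; abel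
    rw [e, inner_add_right, hA i, inner_smul_right, real_inner_self_eq_norm_sq, hnn]
    ring

lemma exists_basis {n : P3} (hn : ‖n‖ = 1) :
    ∃ b : OrthonormalBasis (Fin 3) ℝ P3, b 2 = n := by
  have hcard : finrank ℝ P3 = Fintype.card (Fin 3) := by simp
  have hv : Orthonormal ℝ (({2} : Set (Fin 3)).domRestrict (fun _ : Fin 3 => n)) := by
    constructor
    · intro i; exact hn
    · intro i j hij
      exact absurd (Subsingleton.elim i j) hij
  obtain ⟨b, hb⟩ := hv.exists_orthonormalBasis_extension_of_card_eq hcard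
  exact ⟨b, hb 2 rfl⟩

/-- The carrier of an embedded hexagon with concyclic vertices can be carried to the unit circle
by a homeomorphism of space. -/
theorem exists_homeo_circleU {p : Fin 6 → P3} (hp : Embedded p)
    (hk : 2 ≤ finrank ℝ (LinearMap.ker (Phi p))) :
    ∃ h : P3 ≃ₜ P3, h '' carrier p = circleU := by
  obtain ⟨c, n, r, hr, hn, hcirc⟩ := exists_circle hp hk
  obtain ⟨b, hb⟩ := exists_basis hn
  have hrinv : r⁻¹ ≠ 0 := inv_ne_zero hr.ne'
  set T : P3 ≃ₜ P3 := (Homeomorph.addRight (-c)).trans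
    ((b.repr.toHomeomorph).trans (Homeomorph.smulOfNeZero r⁻¹ hrinv)) with hT
  have hTapp : ∀ x, T x = r⁻¹ • b.repr (x - c) := by
    intro x
    rw [sub_eq_add_neg]; rfl
  have hTaff : ∀ (x y : P3) (s t : ℝ), s + t = 1 → T (s • x + t • y) = s • T x + t • T y := by
    intro x y s t hst
    rw [hTapp, hTapp, hTapp]
    have : s • x + t • y - c = s • (x - c) + t • (y - c) := by
      have ht : t = 1 - s := by linarith
      rw [ht]; module
    rw [this, map_add, map_smul, map_smul]
    module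
  set Θ : P3 ≃ₜ ℂ × ℝ := T.trans toCR with hΘ
  have hΘaff : ∀ (x y : P3) (s t : ℝ), s + t = 1 → Θ (s • x + t • y) = s • Θ x + t • Θ y := by
    intro x y s t hst
    simp only [hΘ, Homeomorph.trans_apply]
    rw [hTaff x y s t hst, toCR_affine]
  have hT2 : ∀ i, (T (p i)) 2 = 0 := by
    intro i
    rw [hTapp]
    simp only [PiLp.smul_apply, smul_eq_mul]
    rw [b.repr_apply_apply, hb, (hcirc i).1, mul_zero]
  have hTn : ∀ i, ‖T (p i)‖ = 1 := by
    intro i
    rw [hTapp, norm_smul, LinearIsometryEquiv.norm_map, (hcirc i).2, norm_inv, Real.norm_eq_abs,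
      abs_of_pos hr, inv_mul_cancel₀ hr.ne']
  set z : Fin 6 → ℂ := fun i => (Θ (p i)).1 with hz
  have hΘp : ∀ i, Θ (p i) = (z i, 0) := by
    intro i
    exact Prod.ext rfl (hT2 i)
  have hznorm : ∀ i, ‖z i‖ = 1 := by
    intro i
    have h1 := hTn i
    rw [EuclideanSpace.norm_eq, Real.sqrt_eq_one, Fin.sum_univ_three] at h1
    simp only [Real.norm_eq_abs, sq_abs] at h1
    rw [hT2 i] at h1
    have h2 : z i = ((T (p i)) 0 : ℂ) + ((T (p i)) 1 : ℂ) * Complex.I := rfl
    have h3 : ‖z i‖ ^ 2 = 1 := by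
      rw [norm_sq_eq, h2]
      simp
      linarith
    nlinarith [norm_nonneg (z i)]
  have hzinj : Function.Injective z := by
    intro i j hij
    apply hp.1
    apply Θ.injective
    rw [hΘp, hΘp, hij]
  have hseg : ∀ i, Θ '' edge p i = segment ℝ (z i) (z (i + 1)) ×ˢ {0} := by
    intro i
    ext ⟨w, t⟩
    unfold edge
    rw [segment_eq_image, segment_eq_image]
    constructor
    · rintro ⟨_, ⟨s, hs, rfl⟩, h⟩
      simp only at h
      rw [hΘaff _ _ _ _ (by ring), hΘp, hΘp] at h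
      refine ⟨⟨s, hs, ?_⟩, ?_⟩
      · exact congrArg Prod.fst h
      · have := congrArg Prod.snd h
        simp at this
        exact this.symm
    · rintro ⟨⟨s, hs, h⟩, ht⟩
      refine ⟨_, ⟨s, hs, rfl⟩, ?_⟩
      simp only
      rw [hΘaff _ _ _ _ (by ring), hΘp, hΘp]
      refine Prod.ext h ?_
      simp only [Prod.snd_add, Prod.smul_snd, smul_zero, add_zero]
      exact ht.symm
  obtain ⟨g, hg⟩ := exists_homeo_planar z hznorm hzinj (by
    intro i j h1 h2 h3
    rw [Set.disjoint_left]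
    intro x hx hx'
    have m1 : (x, (0 : ℝ)) ∈ Θ '' edge p i := by rw [hseg]; exact ⟨hx, rfl⟩
    have m2 : (x, (0 : ℝ)) ∈ Θ '' edge p j := by rw [hseg]; exact ⟨hx', rfl⟩
    obtain ⟨y, hy, hy2⟩ := m1
    obtain ⟨y', hy', hy2'⟩ := m2
    have : y = y' := Θ.injective (hy2.trans hy2'.symm)
    rw [← this] at hy'
    rcases hp.2 i j h1 y ⟨hy, hy'⟩ with h | h
    · exact h2 h.1
    · exact h3 h.1)
  refine ⟨Θ.trans ((g.prodCongr (Homeomorph.refl ℝ)).trans toCR.symm), ?_⟩
  have h1 : Θ '' carrier p = (⋃ i, segment ℝ (z i) (z (i + 1))) ×ˢ {0} := by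
    unfold carrier
    rw [image_iUnion, iUnion_prod_const]
    exact iUnion_congr hseg
  have h2 : (Θ.trans ((g.prodCongr (Homeomorph.refl ℝ)).trans toCR.symm)) '' carrier p =
      toCR.symm '' ((Metric.sphere (0 : ℂ) 1) ×ˢ {(0 : ℝ)}) := by
    rw [← hg]
    have : ∀ s : Set P3, (Θ.trans ((g.prodCongr (Homeomorph.refl ℝ)).trans toCR.symm)) '' s =
        toCR.symm '' ((Prod.map g id) '' (Θ '' s)) := by
      intro s
      rw [image_image, image_image]; rfl
    rw [this, h1, prodMap_image_prod, image_id]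
  rw [h2]
  ext x
  constructor
  · rintro ⟨⟨w, t⟩, ⟨hw, ht⟩, rfl⟩
    have ht0 : t = 0 := ht
    subst ht0
    have hw1 : ‖w‖ = 1 := by simpa using hw
    refine ⟨rfl, ?_⟩
    have e : w.re ^ 2 + w.im ^ 2 = 1 := by rw [← norm_sq_eq, hw1]; norm_num
    exact e
  · rintro ⟨h20, h21⟩
    refine ⟨toCR x, ⟨?_, h20⟩, toCR.symm_apply_apply x⟩
    have : ‖(toCR x).1‖ ^ 2 = 1 := by
      rw [norm_sq_eq, toCR_apply]
      simp
      exact h21
    simp only [mem_sphere_iff_norm, sub_zero]
    nlinarith [norm_nonneg (toCR x).1]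

end MP6bf31b
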