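import Mathlib

/-!
# The three-sheeted covering of the complement of the discriminant curve
-/

namespace MP6bf31b

open Set Topology Filter

/-- The cubic covering map. -/
noncomputable def pc (z : ℂ × ℂ) : ℂ × ℂ := (z.1, (3 * z.1 * z.2 - z.2 ^ 3) / 2)

/-- Complement of the discriminant curve. -/
def Yset : Set (ℂ × ℂ) := {w | w.1 ^ 3 ≠ w.2 ^ 2}

lemma continuous_pc : Continuous pc := by
  unfold pc; fun_prop

lemma pc_bound (z : ℂ × ℂ) : ‖z‖ ≤ 2 + 5 * ‖pc z‖ := by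
  have h1 : ‖z.1‖ ≤ ‖pc z‖ := norm_fst_le (pc z)
  have h2 : ‖(3 * z.1 * z.2 - z.2 ^ 3) / 2‖ ≤ ‖pc z‖ := norm_snd_le (pc z)
  set n := ‖pc z‖ with hn
  have hn0 : 0 ≤ n := norm_nonneg _
  set u := ‖z.2‖ with hu
  have hu0 : 0 ≤ u := norm_nonneg _
  have h3 : u ^ 3 ≤ 3 * n * u + 2 * n := by
    have e : z.2 ^ 3 = 3 * z.1 * z.2 - 2 * ((3 * z.1 * z.2 - z.2 ^ 3) / 2) := by ring
    have : ‖z.2 ^ 3‖ ≤ 3 * ‖z.1‖ * u + 2 * ‖(3 * z.1 * z.2 - z.2 ^ 3) / 2‖ := by
      conv_lhs => rw [e]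
      refine (norm_sub_le _ _).trans ?_
      rw [norm_mul, norm_mul, norm_mul]
      simp [hu]
    rw [norm_pow] at this
    nlinarith
  have h4 : u ≤ 2 + 5 * n := by
    by_contra hc
    push Not at hc
    have h5 : 2 ≤ u := by linarith
    have h6 : u ^ 3 ≤ 5 / 2 * n * u ^ 2 := by
      have : 3 * n * u + 2 * n ≤ 5 / 2 * n * u ^ 2 := by nlinarith [mul_nonneg hn0 hu0, mul_nonneg hn0 (mul_nonneg hu0 (sub_nonneg.mpr h5))]
      linarith
    have h7 : 0 < u ^ 2 := by positivity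
    have h8 : u ≤ 5 / 2 * n := by
      by_contra hc2
      push Not at hc2
      nlinarith
    linarith
  rw [Prod.norm_def]
  exact max_le (by linarith) h4

lemma isClosedMap_pc : IsClosedMap pc := by
  have : IsProperMap pc := by
    rw [isProperMap_iff_isCompact_preimage]
    refine ⟨continuous_pc, fun K hK => ?_⟩
    refine Metric.isCompact_of_isClosed_isBounded (hK.isClosed.preimage continuous_pc) ?_
    obtain ⟨C, hC⟩ := hK.isBounded.exists_norm_le
    refine isBounded_iff_forall_norm_le.mpr ⟨2 + 5 * C, fun z hz => ?_⟩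
    have := pc_bound z
    have := hC _ hz
    linarith
  exact this.isClosedMap

/-- The derivative of the covering map. -/
noncomputable def pcD (z : ℂ × ℂ) (h : z.1 - z.2 ^ 2 ≠ 0) : (ℂ × ℂ) ≃L[ℂ] (ℂ × ℂ) where
  toFun v := (v.1, (3 * z.2 * v.1 + 3 * (z.1 - z.2 ^ 2) * v.2) / 2)
  invFun v := (v.1, (2 * v.2 - 3 * z.2 * v.1) / (3 * (z.1 - z.2 ^ 2)))
  map_add' v w := by
    refine Prod.ext rfl ?_
    simp only [Prod.fst_add, Prod.snd_add]; ring
  map_smul' c v := by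
    refine Prod.ext rfl ?_
    simp only [Prod.smul_fst, Prod.smul_snd, smul_eq_mul, RingHom.id_apply]; ring
  left_inv v := by
    refine Prod.ext rfl ?_
    simp only
    field_simp
    ring
  right_inv v := by
    refine Prod.ext rfl ?_
    simp only
    field_simp
    ring
  continuous_toFun := by fun_prop
  continuous_invFun := by fun_prop

lemma hasStrictFDerivAt_pc (z : ℂ × ℂ) (h : z.1 - z.2 ^ 2 ≠ 0) :
    HasStrictFDerivAt pc (pcD z h : (ℂ × ℂ) →L[ℂ] (ℂ × ℂ)) z := by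
  have h1 : HasStrictFDerivAt (fun z : ℂ × ℂ => z.1) (ContinuousLinearMap.fst ℂ ℂ ℂ) z :=
    hasStrictFDerivAt_fst
  have h2 : HasStrictFDerivAt (fun z : ℂ × ℂ => z.2) (ContinuousLinearMap.snd ℂ ℂ ℂ) z :=
    hasStrictFDerivAt_snd
  have h3 := h1.prodMk ((((h1.const_mul 3).mul h2).sub (h2.pow 3)).mul_const ((2 : ℂ)⁻¹))
  refine (h3.congr_of_eventuallyEq ?_).congr_fderiv ?_
  · refine Eventually.of_forall fun w => ?_
    simp only [pc, div_eq_mul_inv]
    rfl
  · ext <;> simp [pcD] <;> ring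

lemma isCoveringMapOn_pc : IsCoveringMapOn pc Yset := by
  refine isClosedMap_pc.isCoveringMapOn_of_isLocalHomeomorphOn (fun w hw => ?_) fun z hz => ?_
  · -- finite fibres
    have : pc ⁻¹' {w} ⊆ (fun u => (w.1, u)) '' {u : ℂ | u ^ 3 - 3 * w.1 * u + 2 * w.2 = 0} := by
      intro z hz
      have hz' : pc z = w := hz
      have e1 : z.1 = w.1 := by rw [← hz']; rfl
      have e2 : (3 * z.1 * z.2 - z.2 ^ 3) / 2 = w.2 := by rw [← hz']; rfl
      refine ⟨z.2, ?_, ?_⟩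
      · change z.2 ^ 3 - 3 * w.1 * z.2 + 2 * w.2 = 0
        rw [← e2, ← e1]; ring
      · rw [← e1]
    refine Set.Finite.subset (Set.Finite.image _ ?_) this
    have hp : (Polynomial.X ^ 3 - Polynomial.C (3 * w.1) * Polynomial.X +
        Polynomial.C (2 * w.2) : Polynomial ℂ) ≠ 0 := by
      intro h0
      have := congrArg (fun p : Polynomial ℂ => p.coeff 3) h0
      simp at this
    refine (Polynomial.finite_setOfPred_isRoot hp).subset ?_
    intro u hu
    change Polynomial.IsRoot _ u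
    rw [Polynomial.IsRoot.def]
    simp only [Polynomial.eval_add, Polynomial.eval_sub, Polynomial.eval_pow, Polynomial.eval_X,
      Polynomial.eval_mul, Polynomial.eval_C]
    exact hu
  · have hne : z.1 - z.2 ^ 2 ≠ 0 := by
      intro h0
      have e : z.1 = z.2 ^ 2 := sub_eq_zero.mp h0
      have : (pc z).1 ^ 3 ≠ (pc z).2 ^ 2 := hz
      apply this
      simp only [pc]
      rw [e]; ring
    exact ⟨_, (hasStrictFDerivAt_pc z hne).mem_toOpenPartialHomeomorph_source, by simp⟩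

/-- Lifting of maps of the plane. -/
theorem exists_lift (f : ℝ × ℝ → ℂ × ℂ) (hf : Continuous f) (hY : ∀ a, f a ∈ Yset)
    (e₀ : ℂ × ℂ) (he : pc e₀ = f (0, 0)) :
    ∃ g : ℝ × ℝ → ℂ × ℂ, Continuous g ∧ g (0, 0) = e₀ ∧ ∀ a, pc (g a) = f a := by
  obtain ⟨F, ⟨h1, h2⟩, -⟩ := isCoveringMapOn_pc.existsUnique_continuousMap_lifts
    (A := ℝ × ℝ) ⟨f, hf⟩ (a₀ := (0, 0)) (e₀ := e₀) he hY
  exact ⟨F, F.continuous, h1, fun a => congrFun h2 a⟩

end MP6bf31b
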