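import Mathlib

/-!
# Definitions for MP_6bf31b_an

Closed `m`-gons in `ℝ³`, the Möbius-invariant discrete energy `E^m_cos`, embeddedness and
ambient isotopy.
-/

namespace MP6bf31b

open scoped RealInnerProductSpace

/-- Euclidean three-space. -/
abbrev P3 := EuclideanSpace ℝ (Fin 3)

/-- A tangent vector at `a` to the circle (or line) through `a, b, c`, pointing in the direction
in which the circle leaves `a` when it is run through in the order `a → b → c → a`.
(Inversion at `a` turns the circle into the line from the image of `b` to that of `c`.) -/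
noncomputable def tangentDir (a b c : P3) : P3 :=
  (‖b - a‖ ^ 2)⁻¹ • (b - a) - (‖c - a‖ ^ 2)⁻¹ • (c - a)

variable {m : ℕ} [NeZero m]

/-- Cyclic distance of two indices. -/
def cycDist (i j : Fin m) : ℕ := min (i - j).val (j - i).val

/-- `α_{ij}`: the angle at `p i` between `C_{i,j}` (run through `p i → p (i+1) → p j`) and
`C_{j,i}` (run through `p j → p (j+1) → p i`). -/
noncomputable def alpha (p : Fin m → P3) (i j : Fin m) : ℝ :=
  InnerProductGeometry.angle (tangentDir (p i) (p (i + 1)) (p j))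
    (tangentDir (p i) (p j) (p (j + 1)))

/-- `α̃_{ij}`: the angle at `p (i+1)` between `C_{i,j+1}` (run through
`p i → p (i+1) → p (j+1)`) and `C_{j,i+1}` (run through `p j → p (j+1) → p (i+1)`). -/
noncomputable def alphaT (p : Fin m → P3) (i j : Fin m) : ℝ :=
  InnerProductGeometry.angle (tangentDir (p (i + 1)) (p (j + 1)) (p i))
    (tangentDir (p (i + 1)) (p j) (p (j + 1)))

/-- The summand of the energy belonging to the ordered pair `(i, j)`. -/
noncomputable def summand (p : Fin m → P3) (i j : Fin m) : ℝ :=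
  ‖p (i + 1) - p i‖ * ‖p (j + 1) - p j‖ / (‖p j - p i‖ * ‖p (j + 1) - p (i + 1)‖) *
    (1 - 1 / 2 * (Real.cos (alpha p i j) + Real.cos (alphaT p i j)))

/-- The energy `E^m_cos`. -/
noncomputable def energy (p : Fin m → P3) : ℝ :=
  ∑ i : Fin m, ∑ j : Fin m, if 1 < cycDist i j then summand p i j else 0

/-- The `i`-th edge. -/
def edge (p : Fin m → P3) (i : Fin m) : Set P3 := segment ℝ (p i) (p (i + 1))

/-- The closed `m`-gon is embedded: the vertices are distinct and two different edges meet only
in a shared endpoint. -/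
def Embedded (p : Fin m → P3) : Prop :=
  Function.Injective p ∧ ∀ i j : Fin m, i ≠ j → ∀ x ∈ edge p i ∩ edge p j,
    (j = i + 1 ∧ x = p j) ∨ (i = j + 1 ∧ x = p i)

/-- The closed curve traced by the polygon, as a subset of `ℝ³`. -/
def carrier (p : Fin m → P3) : Set P3 := ⋃ i, edge p i

/-- Ambient isotopy of subsets of `ℝ³`. -/
def Isotopic (A B : Set P3) : Prop :=
  ∃ H : ℝ → P3 ≃ₜ P3, ContinuousOn (fun q : ℝ × P3 => H q.1 q.2) (Set.Icc 0 1 ×ˢ Set.univ) ∧
    (∀ x, H 0 x = x) ∧ H 1 '' A = B

/-- The standard unit circle. -/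
def circleU : Set P3 := {x | x 2 = 0 ∧ x 0 ^ 2 + x 1 ^ 2 = 1}

/-- Some homeomorphism of `ℝ³` carries the polygon to the round unit circle. -/
def Unknotted (p : Fin m → P3) : Prop := ∃ h : P3 ≃ₜ P3, h '' carrier p = circleU

/-- A hexagonal trefoil. -/
noncomputable def K0 : Fin 6 → P3 :=
  ![!₂[1, 0, -1], !₂[-1, 1, 1], !₂[-1, -1, -1], !₂[2, 1, 1], !₂[0, 1, -1], !₂[-1, -2, 1]]

end MP6bf31b
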