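import Pool.Agent.Lib.MP_6bf31b_an.Energy

/-!
# First variation of the energy as a function of the mutual distances
-/

namespace MP6bf31b

/-- `X ∂_X T = X (X + Y) / Y` -/
noncomputable def gg (ab bc cd ad ac bd : ℝ) : ℝ :=
  (ab * cd) ^ 2 / ((ac * bd) * (bc * ad)) + ab * cd / (ac * bd)

/-- `Y ∂_Y T = (1 + Y² - X²) / (2 Y)` -/
noncomputable def hh (ab bc cd ad ac bd : ℝ) : ℝ :=
  ((bc * ad) ^ 2 + (ac * bd) ^ 2 - (ab * cd) ^ 2) / (2 * (ac * bd) * (bc * ad))

lemma gg_pos {ab bc cd ad ac bd : ℝ} (h1 : 0 < ab) (h2 : 0 < bc) (h3 : 0 < cd) (h4 : 0 < ad)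
    (h5 : 0 < ac) (h6 : 0 < bd) : 0 < gg ab bc cd ad ac bd := by
  unfold gg; positivity

lemma hh_le_one {ab bc cd ad ac bd : ℝ} (h1 : 0 < ab) (h2 : 0 < bc) (h3 : 0 < cd) (h4 : 0 < ad)
    (h5 : 0 < ac) (h6 : 0 < bd) (pt1 : bc * ad ≤ ab * cd + ac * bd)
    (pt2 : ac * bd ≤ ab * cd + bc * ad) : hh ab bc cd ad ac bd ≤ 1 := by
  unfold hh
  rw [div_le_one (by positivity)]
  have p : 0 < ab * cd := by positivity
  nlinarith [mul_nonneg (sub_nonneg.mpr pt1) (sub_nonneg.mpr pt2)]

lemma one_lt_gg_add_hh {ab bc cd ad ac bd : ℝ} (h1 : 0 < ab) (h2 : 0 < bc) (h3 : 0 < cd)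
    (h4 : 0 < ad) (h5 : 0 < ac) (h6 : 0 < bd) :
    1 < gg ab bc cd ad ac bd + hh ab bc cd ad ac bd := by
  have e : gg ab bc cd ad ac bd + hh ab bc cd ad ac bd =
      ((ab * cd + bc * ad) ^ 2 + (ac * bd) ^ 2) / (2 * (ac * bd) * (bc * ad)) := by
    unfold gg hh
    field_simp
    ring
  rw [e, lt_div_iff₀ (by positivity)]
  have p : 0 < ab * cd := by positivity
  have q : 0 < bc * ad := by positivity
  have r : 0 < ac * bd := by positivity
  nlinarith [sq_nonneg (ab * cd + bc * ad - ac * bd), mul_pos p r]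

lemma hasDerivWithinAt_TT {S : Set ℝ} {t : ℝ} {ab bc cd ad ac bd : ℝ → ℝ}
    {kab kbc kcd kad kac kbd : ℝ}
    (h1 : 0 < ab t) (h2 : 0 < bc t) (h3 : 0 < cd t) (h4 : 0 < ad t) (h5 : 0 < ac t) (h6 : 0 < bd t)
    (d1 : HasDerivWithinAt ab (ab t * kab) S t) (d2 : HasDerivWithinAt bc (bc t * kbc) S t)
    (d3 : HasDerivWithinAt cd (cd t * kcd) S t) (d4 : HasDerivWithinAt ad (ad t * kad) S t)
    (d5 : HasDerivWithinAt ac (ac t * kac) S t) (d6 : HasDerivWithinAt bd (bd t * kbd) S t) :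
    HasDerivWithinAt (fun τ => TT (ab τ) (bc τ) (cd τ) (ad τ) (ac τ) (bd τ))
      (gg (ab t) (bc t) (cd t) (ad t) (ac t) (bd t) * (kab + kcd) +
        hh (ab t) (bc t) (cd t) (ad t) (ac t) (bd t) * (kbc + kad) -
        (gg (ab t) (bc t) (cd t) (ad t) (ac t) (bd t) +
          hh (ab t) (bc t) (cd t) (ad t) (ac t) (bd t)) * (kac + kbd)) S t := by
  have hP : HasDerivWithinAt (fun τ => ab τ * cd τ) (ab t * cd t * (kab + kcd)) S t := by
    convert! d1.mul d3 using 1; ring
  have hQ : HasDerivWithinAt (fun τ => bc τ * ad τ) (bc t * ad t * (kbc + kad)) S t := by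
    convert! d2.mul d4 using 1; ring
  have hR : HasDerivWithinAt (fun τ => ac τ * bd τ) (ac t * bd t * (kac + kbd)) S t := by
    convert! d5.mul d6 using 1; ring
  have hnum := ((hP.add hQ).pow 2).sub (hR.pow 2)
  have hden := (hR.const_mul 2).mul hQ
  have hne : 2 * (ac t * bd t) * (bc t * ad t) ≠ 0 := by positivity
  have := hnum.div hden hne
  unfold TT
  convert! this using 1
  unfold gg hh
  simp only [Pi.add_apply, Pi.pow_apply, Pi.sub_apply, Pi.mul_apply]
  field_simp
  ring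

/-- Contribution of one chord to the first variation. -/
noncomputable def Lc (d κ : Fin 6 → Fin 6 → ℝ) (a b c e : Fin 6) : ℝ :=
  gg (d a b) (d b c) (d c e) (d a e) (d a c) (d b e) * (κ a b + κ c e) +
    hh (d a b) (d b c) (d c e) (d a e) (d a c) (d b e) * (κ b c + κ a e) -
    (gg (d a b) (d b c) (d c e) (d a e) (d a c) (d b e) +
      hh (d a b) (d b c) (d c e) (d a e) (d a c) (d b e)) * (κ a c + κ b e)

/-- The first variation of `E9`. -/
noncomputable def L9 (d κ : Fin 6 → Fin 6 → ℝ) : ℝ :=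
  2 * (Lc d κ 0 1 2 3 + Lc d κ 1 2 3 4 + Lc d κ 2 3 4 5 + Lc d κ 3 4 5 0 + Lc d κ 4 5 0 1 +
    Lc d κ 5 0 1 2 + Lc d κ 0 1 3 4 + Lc d κ 1 2 4 5 + Lc d κ 2 3 5 0)

lemma hasDerivWithinAt_E9 {S : Set ℝ} {t : ℝ} {d : ℝ → Fin 6 → Fin 6 → ℝ} {κ : Fin 6 → Fin 6 → ℝ}
    (hpos : ∀ i j, i ≠ j → 0 < d t i j)
    (hd : ∀ i j, i ≠ j → HasDerivWithinAt (fun τ => d τ i j) (d t i j * κ i j) S t) :
    HasDerivWithinAt (fun τ => E9 (d τ)) (L9 (d t) κ) S t := by
  have key : ∀ a b c e : Fin 6, a ≠ b → b ≠ c → c ≠ e → a ≠ e → a ≠ c → b ≠ e →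
      HasDerivWithinAt (fun τ => TTc (d τ) a b c e) (Lc (d t) κ a b c e) S t := by
    intro a b c e n1 n2 n3 n4 n5 n6
    exact hasDerivWithinAt_TT (hpos _ _ n1) (hpos _ _ n2) (hpos _ _ n3) (hpos _ _ n4)
      (hpos _ _ n5) (hpos _ _ n6) (hd _ _ n1) (hd _ _ n2) (hd _ _ n3) (hd _ _ n4)
      (hd _ _ n5) (hd _ _ n6)
  unfold E9 L9
  refine HasDerivWithinAt.const_mul 2 ?_
  refine HasDerivWithinAt.fun_add ?_ (key 2 3 5 0 (by decide) (by decide) (by decide) (by decide)
    (by decide) (by decide))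
  refine HasDerivWithinAt.fun_add ?_ (key 1 2 4 5 (by decide) (by decide) (by decide) (by decide)
    (by decide) (by decide))
  refine HasDerivWithinAt.fun_add ?_ (key 0 1 3 4 (by decide) (by decide) (by decide) (by decide)
    (by decide) (by decide))
  refine HasDerivWithinAt.fun_add ?_ (key 5 0 1 2 (by decide) (by decide) (by decide) (by decide)
    (by decide) (by decide))
  refine HasDerivWithinAt.fun_add ?_ (key 4 5 0 1 (by decide) (by decide) (by decide) (by decide)
    (by decide) (by decide))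
  refine HasDerivWithinAt.fun_add ?_ (key 3 4 5 0 (by decide) (by decide) (by decide) (by decide)
    (by decide) (by decide))
  refine HasDerivWithinAt.fun_add ?_ (key 2 3 4 5 (by decide) (by decide) (by decide) (by decide)
    (by decide) (by decide))
  refine HasDerivWithinAt.fun_add ?_ (key 1 2 3 4 (by decide) (by decide) (by decide) (by decide)
    (by decide) (by decide))
  exact key 0 1 2 3 (by decide) (by decide) (by decide) (by decide) (by decide) (by decide)

/-- The energy is invariant under `d i j ↦ l i * l j * d i j`. -/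
lemma E9_scale {d : Fin 6 → Fin 6 → ℝ} {l : Fin 6 → ℝ} (hpos : ∀ i j, i ≠ j → 0 < d i j)
    (hl : ∀ i, 0 < l i) : E9 (fun i j => l i * l j * d i j) = E9 d := by
  have key : ∀ a b c e : Fin 6, a ≠ b → b ≠ c → c ≠ e → a ≠ e → a ≠ c → b ≠ e →
      TTc (fun i j => l i * l j * d i j) a b c e = TTc d a b c e := by
    intro a b c e n1 n2 n3 n4 n5 n6
    have := hpos _ _ n1
    have := hpos _ _ n2
    have := hpos _ _ n3
    have := hpos _ _ n4
    have := hpos _ _ n5
    have := hpos _ _ n6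
    have := hl a
    have := hl b
    have := hl c
    have := hl e
    unfold TTc TT
    field_simp
  unfold E9
  rw [key 0 1 2 3 (by decide) (by decide) (by decide) (by decide) (by decide) (by decide),
    key 1 2 3 4 (by decide) (by decide) (by decide) (by decide) (by decide) (by decide),
    key 2 3 4 5 (by decide) (by decide) (by decide) (by decide) (by decide) (by decide),
    key 3 4 5 0 (by decide) (by decide) (by decide) (by decide) (by decide) (by decide),
    key 4 5 0 1 (by decide) (by decide) (by decide) (by decide) (by decide) (by decide),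
    key 5 0 1 2 (by decide) (by decide) (by decide) (by decide) (by decide) (by decide),
    key 0 1 3 4 (by decide) (by decide) (by decide) (by decide) (by decide) (by decide),
    key 1 2 4 5 (by decide) (by decide) (by decide) (by decide) (by decide) (by decide),
    key 2 3 5 0 (by decide) (by decide) (by decide) (by decide) (by decide) (by decide)]

end MP6bf31b
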