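import Pool.Agent.Lib.MP_6bf31b_an.Separate

/-!
# The hexagonal trefoil is embedded
-/

namespace MP6bf31b

open Set

lemma edge_K0_0 {x : P3} (hx : x ∈ edge K0 0) : ∃ s : ℝ, 0 ≤ s ∧ s ≤ 1 ∧
    x 0 = 1 + (-2) * s ∧ x 1 = 0 + (1) * s ∧ x 2 = -1 + (2) * s := by
  obtain ⟨s, ⟨hs0, hs1⟩, rfl⟩ := (mem_edge_iff _ _ _).mp hx
  have e : (0 : Fin 6) + 1 = 1 := rfl
  refine ⟨s, hs0, hs1, ?_, ?_, ?_⟩ <;> simp [K0, e, AffineMap.lineMap_apply] <;> ring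

lemma edge_K0_1 {x : P3} (hx : x ∈ edge K0 1) : ∃ s : ℝ, 0 ≤ s ∧ s ≤ 1 ∧
    x 0 = -1 + (0) * s ∧ x 1 = 1 + (-2) * s ∧ x 2 = 1 + (-2) * s := by
  obtain ⟨s, ⟨hs0, hs1⟩, rfl⟩ := (mem_edge_iff _ _ _).mp hx
  have e : (1 : Fin 6) + 1 = 2 := rfl
  refine ⟨s, hs0, hs1, ?_, ?_, ?_⟩ <;> simp [K0, e, AffineMap.lineMap_apply] <;> ring

lemma edge_K0_2 {x : P3} (hx : x ∈ edge K0 2) : ∃ s : ℝ, 0 ≤ s ∧ s ≤ 1 ∧
    x 0 = -1 + (3) * s ∧ x 1 = -1 + (2) * s ∧ x 2 = -1 + (2) * s := by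
  obtain ⟨s, ⟨hs0, hs1⟩, rfl⟩ := (mem_edge_iff _ _ _).mp hx
  have e : (2 : Fin 6) + 1 = 3 := rfl
  refine ⟨s, hs0, hs1, ?_, ?_, ?_⟩ <;> simp [K0, e, AffineMap.lineMap_apply] <;> ring

lemma edge_K0_3 {x : P3} (hx : x ∈ edge K0 3) : ∃ s : ℝ, 0 ≤ s ∧ s ≤ 1 ∧
    x 0 = 2 + (-2) * s ∧ x 1 = 1 + (0) * s ∧ x 2 = 1 + (-2) * s := by
  obtain ⟨s, ⟨hs0, hs1⟩, rfl⟩ := (mem_edge_iff _ _ _).mp hx
  have e : (3 : Fin 6) + 1 = 4 := rfl
  refine ⟨s, hs0, hs1, ?_, ?_, ?_⟩ <;> simp [K0, e, AffineMap.lineMap_apply] <;> ring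

lemma edge_K0_4 {x : P3} (hx : x ∈ edge K0 4) : ∃ s : ℝ, 0 ≤ s ∧ s ≤ 1 ∧
    x 0 = 0 + (-1) * s ∧ x 1 = 1 + (-3) * s ∧ x 2 = -1 + (2) * s := by
  obtain ⟨s, ⟨hs0, hs1⟩, rfl⟩ := (mem_edge_iff _ _ _).mp hx
  have e : (4 : Fin 6) + 1 = 5 := rfl
  refine ⟨s, hs0, hs1, ?_, ?_, ?_⟩ <;> simp [K0, e, AffineMap.lineMap_apply] <;> ring

lemma edge_K0_5 {x : P3} (hx : x ∈ edge K0 5) : ∃ s : ℝ, 0 ≤ s ∧ s ≤ 1 ∧
    x 0 = -1 + (2) * s ∧ x 1 = -2 + (2) * s ∧ x 2 = 1 + (-2) * s := by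
  obtain ⟨s, ⟨hs0, hs1⟩, rfl⟩ := (mem_edge_iff _ _ _).mp hx
  have e : (5 : Fin 6) + 1 = 0 := rfl
  refine ⟨s, hs0, hs1, ?_, ?_, ?_⟩ <;> simp [K0, e, AffineMap.lineMap_apply] <;> ring

lemma P3_ext {x y : P3} (h0 : x 0 = y 0) (h1 : x 1 = y 1) (h2 : x 2 = y 2) : x = y := by
  ext i
  fin_cases i
  · exact h0
  · exact h1
  · exact h2

lemma inter_0_1 {x : P3} (hi : x ∈ edge K0 0) (hj : x ∈ edge K0 1) : x = K0 1 := by
  obtain ⟨s, hs0, hs1, a0, a1, a2⟩ := edge_K0_0 hi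
  obtain ⟨t, ht0, ht1, b0, b1, b2⟩ := edge_K0_1 hj
  apply P3_ext
  · have : K0 1 0 = -1 := by simp [K0]
    rw [this]; linarith
  · have : K0 1 1 = 1 := by simp [K0]
    rw [this]; linarith
  · have : K0 1 2 = 1 := by simp [K0]
    rw [this]; linarith

lemma inter_0_2 {x : P3} (hi : x ∈ edge K0 0) (hj : x ∈ edge K0 2) : False := by
  obtain ⟨s, hs0, hs1, a0, a1, a2⟩ := edge_K0_0 hi
  obtain ⟨t, ht0, ht1, b0, b1, b2⟩ := edge_K0_2 hj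
  linarith

lemma inter_0_3 {x : P3} (hi : x ∈ edge K0 0) (hj : x ∈ edge K0 3) : False := by
  obtain ⟨s, hs0, hs1, a0, a1, a2⟩ := edge_K0_0 hi
  obtain ⟨t, ht0, ht1, b0, b1, b2⟩ := edge_K0_3 hj
  linarith

lemma inter_0_4 {x : P3} (hi : x ∈ edge K0 0) (hj : x ∈ edge K0 4) : False := by
  obtain ⟨s, hs0, hs1, a0, a1, a2⟩ := edge_K0_0 hi
  obtain ⟨t, ht0, ht1, b0, b1, b2⟩ := edge_K0_4 hj
  linarith

lemma inter_0_5 {x : P3} (hi : x ∈ edge K0 0) (hj : x ∈ edge K0 5) : x = K0 0 := by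
  obtain ⟨s, hs0, hs1, a0, a1, a2⟩ := edge_K0_0 hi
  obtain ⟨t, ht0, ht1, b0, b1, b2⟩ := edge_K0_5 hj
  apply P3_ext
  · have : K0 0 0 = 1 := by simp [K0]
    rw [this]; linarith
  · have : K0 0 1 = 0 := by simp [K0]
    rw [this]; linarith
  · have : K0 0 2 = -1 := by simp [K0]
    rw [this]; linarith

lemma inter_1_2 {x : P3} (hi : x ∈ edge K0 1) (hj : x ∈ edge K0 2) : x = K0 2 := by
  obtain ⟨s, hs0, hs1, a0, a1, a2⟩ := edge_K0_1 hi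
  obtain ⟨t, ht0, ht1, b0, b1, b2⟩ := edge_K0_2 hj
  apply P3_ext
  · have : K0 2 0 = -1 := by simp [K0]
    rw [this]; linarith
  · have : K0 2 1 = -1 := by simp [K0]
    rw [this]; linarith
  · have : K0 2 2 = -1 := by simp [K0]
    rw [this]; linarith

lemma inter_1_3 {x : P3} (hi : x ∈ edge K0 1) (hj : x ∈ edge K0 3) : False := by
  obtain ⟨s, hs0, hs1, a0, a1, a2⟩ := edge_K0_1 hi
  obtain ⟨t, ht0, ht1, b0, b1, b2⟩ := edge_K0_3 hj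
  linarith

lemma inter_1_4 {x : P3} (hi : x ∈ edge K0 1) (hj : x ∈ edge K0 4) : False := by
  obtain ⟨s, hs0, hs1, a0, a1, a2⟩ := edge_K0_1 hi
  obtain ⟨t, ht0, ht1, b0, b1, b2⟩ := edge_K0_4 hj
  linarith

lemma inter_1_5 {x : P3} (hi : x ∈ edge K0 1) (hj : x ∈ edge K0 5) : False := by
  obtain ⟨s, hs0, hs1, a0, a1, a2⟩ := edge_K0_1 hi
  obtain ⟨t, ht0, ht1, b0, b1, b2⟩ := edge_K0_5 hj
  linarith

lemma inter_2_3 {x : P3} (hi : x ∈ edge K0 2) (hj : x ∈ edge K0 3) : x = K0 3 := by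
  obtain ⟨s, hs0, hs1, a0, a1, a2⟩ := edge_K0_2 hi
  obtain ⟨t, ht0, ht1, b0, b1, b2⟩ := edge_K0_3 hj
  apply P3_ext
  · have : K0 3 0 = 2 := by simp [K0]
    rw [this]; linarith
  · have : K0 3 1 = 1 := by simp [K0]
    rw [this]; linarith
  · have : K0 3 2 = 1 := by simp [K0]
    rw [this]; linarith

lemma inter_2_4 {x : P3} (hi : x ∈ edge K0 2) (hj : x ∈ edge K0 4) : False := by
  obtain ⟨s, hs0, hs1, a0, a1, a2⟩ := edge_K0_2 hi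
  obtain ⟨t, ht0, ht1, b0, b1, b2⟩ := edge_K0_4 hj
  linarith

lemma inter_2_5 {x : P3} (hi : x ∈ edge K0 2) (hj : x ∈ edge K0 5) : False := by
  obtain ⟨s, hs0, hs1, a0, a1, a2⟩ := edge_K0_2 hi
  obtain ⟨t, ht0, ht1, b0, b1, b2⟩ := edge_K0_5 hj
  linarith

lemma inter_3_4 {x : P3} (hi : x ∈ edge K0 3) (hj : x ∈ edge K0 4) : x = K0 4 := by
  obtain ⟨s, hs0, hs1, a0, a1, a2⟩ := edge_K0_3 hi
  obtain ⟨t, ht0, ht1, b0, b1, b2⟩ := edge_K0_4 hj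
  apply P3_ext
  · have : K0 4 0 = 0 := by simp [K0]
    rw [this]; linarith
  · have : K0 4 1 = 1 := by simp [K0]
    rw [this]; linarith
  · have : K0 4 2 = -1 := by simp [K0]
    rw [this]; linarith

lemma inter_3_5 {x : P3} (hi : x ∈ edge K0 3) (hj : x ∈ edge K0 5) : False := by
  obtain ⟨s, hs0, hs1, a0, a1, a2⟩ := edge_K0_3 hi
  obtain ⟨t, ht0, ht1, b0, b1, b2⟩ := edge_K0_5 hj
  linarith

lemma inter_4_5 {x : P3} (hi : x ∈ edge K0 4) (hj : x ∈ edge K0 5) : x = K0 5 := by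
  obtain ⟨s, hs0, hs1, a0, a1, a2⟩ := edge_K0_4 hi
  obtain ⟨t, ht0, ht1, b0, b1, b2⟩ := edge_K0_5 hj
  apply P3_ext
  · have : K0 5 0 = -1 := by simp [K0]
    rw [this]; linarith
  · have : K0 5 1 = -2 := by simp [K0]
    rw [this]; linarith
  · have : K0 5 2 = 1 := by simp [K0]
    rw [this]; linarith

theorem K0_embedded : Embedded K0 := by
  constructor
  · intro i j hij
    have h0 := congrArg (fun x : P3 => x 0) hij
    have h1 := congrArg (fun x : P3 => x 1) hij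
    have h2 := congrArg (fun x : P3 => x 2) hij
    fin_cases i <;> fin_cases j <;> first | rfl | (exfalso; simp [K0] at h0 h1 h2 <;> linarith)
  · intro i j hij x hx
    obtain ⟨hi, hj⟩ := hx
    fin_cases i <;> fin_cases j
    · exact absurd rfl hij
    · exact Or.inl ⟨rfl, inter_0_1 hi hj⟩
    · exact (inter_0_2 hi hj).elim
    · exact (inter_0_3 hi hj).elim
    · exact (inter_0_4 hi hj).elim
    · exact Or.inr ⟨rfl, inter_0_5 hi hj⟩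
    · exact Or.inr ⟨rfl, inter_0_1 hj hi⟩
    · exact absurd rfl hij
    · exact Or.inl ⟨rfl, inter_1_2 hi hj⟩
    · exact (inter_1_3 hi hj).elim
    · exact (inter_1_4 hi hj).elim
    · exact (inter_1_5 hi hj).elim
    · exact (inter_0_2 hj hi).elim
    · exact Or.inr ⟨rfl, inter_1_2 hj hi⟩
    · exact absurd rfl hij
    · exact Or.inl ⟨rfl, inter_2_3 hi hj⟩
    · exact (inter_2_4 hi hj).elim
    · exact (inter_2_5 hi hj).elim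
    · exact (inter_0_3 hj hi).elim
    · exact (inter_1_3 hj hi).elim
    · exact Or.inr ⟨rfl, inter_2_3 hj hi⟩
    · exact absurd rfl hij
    · exact Or.inl ⟨rfl, inter_3_4 hi hj⟩
    · exact (inter_3_5 hi hj).elim
    · exact (inter_0_4 hj hi).elim
    · exact (inter_1_4 hj hi).elim
    · exact (inter_2_4 hj hi).elim
    · exact Or.inr ⟨rfl, inter_3_4 hj hi⟩
    · exact absurd rfl hij
    · exact Or.inl ⟨rfl, inter_4_5 hi hj⟩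
    · exact Or.inl ⟨rfl, inter_0_5 hj hi⟩
    · exact (inter_1_5 hj hi).elim
    · exact (inter_2_5 hj hi).elim
    · exact (inter_3_5 hj hi).elim
    · exact Or.inr ⟨rfl, inter_4_5 hj hi⟩
    · exact absurd rfl hij

end MP6bf31b
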