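import Pool.Agent.Lib.MP_6bf31b_an.Defs

/-!
# The summands of the energy in terms of mutual distances
-/

namespace MP6bf31b

open scoped RealInnerProductSpace

lemma norm_inv_sub_inv_sq {u v : P3} (hu : u ≠ 0) (hv : v ≠ 0) :
    ‖(‖u‖ ^ 2)⁻¹ • u - (‖v‖ ^ 2)⁻¹ • v‖ ^ 2 = ‖u - v‖ ^ 2 / (‖u‖ ^ 2 * ‖v‖ ^ 2) := by
  have h1 : ‖u‖ ≠ 0 := norm_ne_zero_iff.mpr hu
  have h2 : ‖v‖ ≠ 0 := norm_ne_zero_iff.mpr hv
  rw [norm_sub_sq_real, norm_sub_sq_real, norm_smul, norm_smul, inner_smul_left, inner_smul_right]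
  simp only [norm_inv, norm_pow, norm_norm, conj_trivial, map_inv₀, map_pow]
  field_simp
  ring

lemma cos_angle_inv {u v w : P3} (hu : u ≠ 0) (hv : v ≠ 0) (hw : w ≠ 0)
    (huv : u ≠ v) (hvw : v ≠ w) :
    Real.cos (InnerProductGeometry.angle ((‖u‖ ^ 2)⁻¹ • u - (‖v‖ ^ 2)⁻¹ • v)
      ((‖v‖ ^ 2)⁻¹ • v - (‖w‖ ^ 2)⁻¹ • w)) =
    (‖u - w‖ ^ 2 * ‖v‖ ^ 2 - ‖u - v‖ ^ 2 * ‖w‖ ^ 2 - ‖v - w‖ ^ 2 * ‖u‖ ^ 2) /
      (2 * (‖u - v‖ * ‖w‖) * (‖v - w‖ * ‖u‖)) := by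
  have h1 : 0 < ‖u‖ := norm_pos_iff.mpr hu
  have h2 : 0 < ‖v‖ := norm_pos_iff.mpr hv
  have h3 : 0 < ‖w‖ := norm_pos_iff.mpr hw
  have h4 : 0 < ‖u - v‖ := norm_pos_iff.mpr (sub_ne_zero.mpr huv)
  have h5 : 0 < ‖v - w‖ := norm_pos_iff.mpr (sub_ne_zero.mpr hvw)
  set t1 := (‖u‖ ^ 2)⁻¹ • u - (‖v‖ ^ 2)⁻¹ • v with ht1
  set t2 := (‖v‖ ^ 2)⁻¹ • v - (‖w‖ ^ 2)⁻¹ • w with ht2
  have n1 : ‖t1‖ ^ 2 = ‖u - v‖ ^ 2 / (‖u‖ ^ 2 * ‖v‖ ^ 2) := norm_inv_sub_inv_sq hu hv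
  have n2 : ‖t2‖ ^ 2 = ‖v - w‖ ^ 2 / (‖v‖ ^ 2 * ‖w‖ ^ 2) := norm_inv_sub_inv_sq hv hw
  have n3 : ‖t1 + t2‖ ^ 2 = ‖u - w‖ ^ 2 / (‖u‖ ^ 2 * ‖w‖ ^ 2) := by
    rw [← norm_inv_sub_inv_sq hu hw, ht1, ht2]
    congr 2
    abel
  have m1 : ‖t1‖ = ‖u - v‖ / (‖u‖ * ‖v‖) := by
    have : ‖t1‖ ^ 2 = (‖u - v‖ / (‖u‖ * ‖v‖)) ^ 2 := by rw [n1]; field_simp
    exact (pow_left_inj₀ (norm_nonneg _) (by positivity) two_ne_zero).mp this
  have m2 : ‖t2‖ = ‖v - w‖ / (‖v‖ * ‖w‖) := by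
    have : ‖t2‖ ^ 2 = (‖v - w‖ / (‖v‖ * ‖w‖)) ^ 2 := by rw [n2]; field_simp
    exact (pow_left_inj₀ (norm_nonneg _) (by positivity) two_ne_zero).mp this
  have hin : ⟪t1, t2⟫ = (‖t1 + t2‖ ^ 2 - ‖t1‖ ^ 2 - ‖t2‖ ^ 2) / 2 := by
    rw [norm_add_sq_real]; ring
  rw [InnerProductGeometry.cos_angle, hin, n1, n2, n3, m1, m2]
  field_simp

/-- The summand as a function of the six mutual distances
`|ab|, |bc|, |cd|, |ad|, |ac|, |bd|`. -/
noncomputable def TT (ab bc cd ad ac bd : ℝ) : ℝ :=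
  ((ab * cd + bc * ad) ^ 2 - (ac * bd) ^ 2) / (2 * (ac * bd) * (bc * ad))

lemma cos_alpha_aux {a b c d : P3} (hab : a ≠ b) (hac : a ≠ c) (had : a ≠ d) (hbc : b ≠ c)
    (hcd : c ≠ d) :
    Real.cos (InnerProductGeometry.angle (tangentDir a b c) (tangentDir a c d)) =
      ((dist a c * dist b d) ^ 2 - (dist b c * dist a d) ^ 2 - (dist a b * dist c d) ^ 2) /
        (2 * (dist b c * dist a d) * (dist a b * dist c d)) := by
  have h := cos_angle_inv (u := b - a) (v := c - a) (w := d - a)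
    (sub_ne_zero.mpr hab.symm) (sub_ne_zero.mpr hac.symm) (sub_ne_zero.mpr had.symm)
    (by simpa using hbc) (by simpa using hcd)
  rw [tangentDir, tangentDir, h]
  have e1 : ‖b - a - (d - a)‖ = dist b d := by rw [dist_eq_norm]; congr 1; abel
  have e2 : ‖b - a - (c - a)‖ = dist b c := by rw [dist_eq_norm]; congr 1; abel
  have e3 : ‖c - a - (d - a)‖ = dist c d := by rw [dist_eq_norm]; congr 1; abel
  have e4 : ‖b - a‖ = dist a b := by rw [dist_comm, dist_eq_norm]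
  have e5 : ‖c - a‖ = dist a c := by rw [dist_comm, dist_eq_norm]
  have e6 : ‖d - a‖ = dist a d := by rw [dist_comm, dist_eq_norm]
  rw [e1, e2, e3, e4, e5, e6]
  ring

lemma cos_alphaT_aux {a b c d : P3} (hab : a ≠ b) (had : a ≠ d) (hbc : b ≠ c)
    (hbd : b ≠ d) (hcd : c ≠ d) :
    Real.cos (InnerProductGeometry.angle (tangentDir b d a) (tangentDir b c d)) =
      ((dist a c * dist b d) ^ 2 - (dist b c * dist a d) ^ 2 - (dist a b * dist c d) ^ 2) /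
        (2 * (dist b c * dist a d) * (dist a b * dist c d)) := by
  have h := cos_angle_inv (u := c - b) (v := d - b) (w := a - b)
    (sub_ne_zero.mpr hbc.symm) (sub_ne_zero.mpr hbd.symm) (sub_ne_zero.mpr hab)
    (by simpa using hcd) (by simpa using had.symm)
  rw [tangentDir, tangentDir, InnerProductGeometry.angle_comm, h]
  have e1 : ‖c - b - (a - b)‖ = dist a c := by rw [dist_comm, dist_eq_norm]; congr 1; abel
  have e2 : ‖c - b - (d - b)‖ = dist c d := by rw [dist_eq_norm]; congr 1; abel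
  have e3 : ‖d - b - (a - b)‖ = dist a d := by rw [dist_comm, dist_eq_norm]; congr 1; abel
  have e4 : ‖c - b‖ = dist b c := by rw [dist_comm, dist_eq_norm]
  have e5 : ‖d - b‖ = dist b d := by rw [dist_comm, dist_eq_norm]
  have e6 : ‖a - b‖ = dist a b := by rw [dist_eq_norm]
  rw [e1, e2, e3, e4, e5, e6]
  ring

variable {m : ℕ} [NeZero m]

/-- The summand of the energy, when the four points are pairwise distinct. -/
lemma summand_eq (p : Fin m → P3) (i j : Fin m) (hab : p i ≠ p (i + 1)) (hac : p i ≠ p j)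
    (had : p i ≠ p (j + 1)) (hbc : p (i + 1) ≠ p j) (hbd : p (i + 1) ≠ p (j + 1))
    (hcd : p j ≠ p (j + 1)) :
    summand p i j = TT (dist (p i) (p (i + 1))) (dist (p (i + 1)) (p j)) (dist (p j) (p (j + 1)))
      (dist (p i) (p (j + 1))) (dist (p i) (p j)) (dist (p (i + 1)) (p (j + 1))) := by
  unfold summand alpha alphaT
  rw [cos_alpha_aux hab hac had hbc hcd, cos_alphaT_aux hab had hbc hbd hcd]
  have e1 : ‖p (i + 1) - p i‖ = dist (p i) (p (i + 1)) := by rw [dist_comm, dist_eq_norm]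
  have e2 : ‖p (j + 1) - p j‖ = dist (p j) (p (j + 1)) := by rw [dist_comm, dist_eq_norm]
  have e3 : ‖p j - p i‖ = dist (p i) (p j) := by rw [dist_comm, dist_eq_norm]
  have e4 : ‖p (j + 1) - p (i + 1)‖ = dist (p (i + 1)) (p (j + 1)) := by
    rw [dist_comm, dist_eq_norm]
  rw [e1, e2, e3, e4]
  have p1 := dist_pos.mpr hab
  have p2 := dist_pos.mpr hac
  have p3 := dist_pos.mpr had
  have p4 := dist_pos.mpr hbc
  have p5 := dist_pos.mpr hbd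
  have p6 := dist_pos.mpr hcd
  unfold TT
  field_simp
  ring

/-- `TT` for the four vertices `a, b, c, e` of a distance matrix. -/
noncomputable def TTc (d : Fin 6 → Fin 6 → ℝ) (a b c e : Fin 6) : ℝ :=
  TT (d a b) (d b c) (d c e) (d a e) (d a c) (d b e)

/-- The energy of a hexagon as a function of the matrix of mutual distances. -/
noncomputable def E9 (d : Fin 6 → Fin 6 → ℝ) : ℝ :=
  2 * (TTc d 0 1 2 3 + TTc d 1 2 3 4 + TTc d 2 3 4 5 + TTc d 3 4 5 0 + TTc d 4 5 0 1 +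
    TTc d 5 0 1 2 + TTc d 0 1 3 4 + TTc d 1 2 4 5 + TTc d 2 3 5 0)

lemma energy_eq (p : Fin 6 → P3) (hp : Function.Injective p) :
    energy p = E9 (fun i j => dist (p i) (p j)) := by
  have key : ∀ i j : Fin 6, 1 < cycDist i j →
      summand p i j = TTc (fun i j => dist (p i) (p j)) i (i + 1) j (j + 1) := by
    intro i j hij
    have h : i ≠ i + 1 ∧ i ≠ j ∧ i ≠ j + 1 ∧ i + 1 ≠ j ∧ i + 1 ≠ j + 1 ∧ j ≠ j + 1 := by
      revert i j; decide
    obtain ⟨h1, h2, h3, h4, h5, h6⟩ := h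
    exact summand_eq p i j (hp.ne h1) (hp.ne h2) (hp.ne h3) (hp.ne h4) (hp.ne h5) (hp.ne h6)
  have e : energy p = ∑ i : Fin 6, ∑ j : Fin 6, if 1 < cycDist i j then
      TTc (fun i j => dist (p i) (p j)) i (i + 1) j (j + 1) else 0 := by
    unfold energy
    refine Finset.sum_congr rfl fun i _ => Finset.sum_congr rfl fun j _ => ?_
    split_ifs with h
    · exact key i j h
    · rfl
  have symm : ∀ a b c e : Fin 6, TTc (fun i j => dist (p i) (p j)) a b c e =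
      TTc (fun i j => dist (p i) (p j)) c e a b := by
    intro a b c e
    simp only [TTc, TT, dist_comm (p c) (p a), dist_comm (p e) (p a), dist_comm (p e) (p b),
      dist_comm (p c) (p b)]
    ring
  rw [e]
  simp +decide only [Fin.sum_univ_six, cycDist, if_true, if_false]
  simp only [E9]
  have a1 : (0 : Fin 6) + 1 = 1 := rfl
  have a2 : (1 : Fin 6) + 1 = 2 := rfl
  have a3 : (2 : Fin 6) + 1 = 3 := rfl
  have a4 : (3 : Fin 6) + 1 = 4 := rfl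
  have a5 : (4 : Fin 6) + 1 = 5 := rfl
  have a6 : (5 : Fin 6) + 1 = 0 := rfl
  simp only [a1, a2, a3, a4, a5, a6]
  rw [symm 2 3 0 1, symm 3 4 0 1, symm 3 4 1 2, symm 4 5 1 2, symm 4 5 2 3, symm 5 0 1 2,
    symm 5 0 2 3, symm 5 0 3 4, symm 0 1 4 5]
  ring

end MP6bf31b
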