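import Pool.Agent.Lib.MP_6bf31b_an.Separate

/-!
# The map `FF` from the complement of the hexagonal trefoil
-/

namespace MP6bf31b

open Complex Set

/-- clamp to `[0,1]` -/
noncomputable def cl (r : ℝ) : ℝ := max 0 (min 1 r)

lemma cl_nonneg (r : ℝ) : 0 ≤ cl r := le_max_left _ _
lemma cl_le_one (r : ℝ) : cl r ≤ 1 := max_le zero_le_one (min_le_left _ _)
lemma cl_of_one_le {r : ℝ} (h : 1 ≤ r) : cl r = 1 := by
  rw [cl, min_eq_left h, max_eq_right zero_le_one]
lemma cl_of_nonpos {r : ℝ} (h : r ≤ 0) : cl r = 0 := by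
  rw [cl, min_eq_right (h.trans zero_le_one), max_eq_left h]
lemma pos_of_cl_pos {r : ℝ} (h : 0 < cl r) : 0 < r := by
  by_contra hc
  rw [cl_of_nonpos (not_lt.mp hc)] at h
  exact lt_irrefl _ h
lemma continuous_cl : Continuous cl := by
  unfold cl; fun_prop

noncomputable def eP (x : P3) : ℝ := ee (x 0) (x 1)
noncomputable def oP (x : P3) : ℝ := oo (x 0) (x 1)
noncomputable def wP (x : P3) : ℝ := ww (x 0) (x 1)

noncomputable def NP (x : P3) : ℝ := eP x + oP x + |x 2|
noncomputable def RP (x : P3) : ℝ := 2 * eP x + 4 * oP x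
noncomputable def tauP (x : P3) : ℝ := min (cl (4 * RP x - 1)) (cl (11 - NP x))
noncomputable def sP (x : P3) : ℝ := cl (2 * tauP x - 1)
noncomputable def tP (x : P3) : ℝ := cl (2 * tauP x)
noncomputable def chiP (x : P3) : ℝ := cl (NP x - 11)

noncomputable def DP (x : P3) : ℂ := DDf (eP x) (oP x) (wP x)
noncomputable def aP (x : P3) : ℂ := aaf (eP x) (oP x) (x 2)
noncomputable def qP (x : P3) : ℂ := qcf (x 0) (x 1)

noncomputable def gP (x : P3) : ℂ := -((tP x : ℂ) * (DP x * qP x ^ 3)) + ((1 - tP x : ℝ) : ℂ)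

/-- The map to the complement of the discriminant curve. -/
noncomputable def FF (x : P3) : ℂ × ℂ :=
  ((sP x : ℂ) ^ 2 * (DP x * qP x ^ 2),
    ((1 - chiP x : ℝ) : ℂ) * (aP x * gP x) - (chiP x : ℂ))

lemma continuous_coord : Continuous fun x : P3 => (x 0, x 1) := by fun_prop

lemma continuous_eP : Continuous eP := continuous_ee.comp continuous_coord
lemma continuous_oP : Continuous oP := continuous_oo.comp continuous_coord
lemma continuous_wP : Continuous wP := continuous_ww.comp continuous_coord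

lemma continuous_NP : Continuous NP := by
  have := continuous_eP; have := continuous_oP
  unfold NP; fun_prop

lemma continuous_tauP : Continuous tauP := by
  have h1 := continuous_eP; have h2 := continuous_oP; have h3 := continuous_NP
  have h4 := continuous_cl
  unfold tauP RP; fun_prop

lemma continuous_sP : Continuous sP := by
  have h1 := continuous_tauP; have h4 := continuous_cl
  unfold sP; fun_prop

lemma continuous_tP : Continuous tP := by
  have h1 := continuous_tauP; have h4 := continuous_cl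
  unfold tP; fun_prop

lemma continuous_chiP : Continuous chiP := by
  have h1 := continuous_NP; have h4 := continuous_cl
  unfold chiP; fun_prop

lemma continuous_DP : Continuous DP := by
  have h1 := continuous_eP; have h2 := continuous_oP; have h3 := continuous_wP
  unfold DP DDf; fun_prop

lemma continuous_aP : Continuous aP := by
  have h1 := continuous_eP; have h2 := continuous_oP
  unfold aP aaf; fun_prop

lemma continuous_qP : Continuous qP := by
  unfold qP qcf; fun_prop

lemma continuous_gP : Continuous gP := by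
  have h1 := continuous_tP; have h2 := continuous_DP; have h3 := continuous_qP
  unfold gP; fun_prop

lemma continuous_FF : Continuous FF := by
  have h1 := continuous_sP; have h2 := continuous_DP; have h3 := continuous_qP
  have h4 := continuous_chiP; have h5 := continuous_aP; have h6 := continuous_gP
  unfold FF; fun_prop

lemma fanP (x : P3) : 0 ≤ eP x ∧ 0 ≤ oP x ∧ Sec (eP x) (oP x) (wP x) (x 0) (x 1) :=
  fan_cases _ _

lemma tau_pos {x : P3} (h : 0 < tauP x) : 1 / 4 < RP x ∧ NP x < 11 := by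
  have h1 : 0 < cl (4 * RP x - 1) := h.trans_le (min_le_left _ _)
  have h2 : 0 < cl (11 - NP x) := h.trans_le (min_le_right _ _)
  have h3 := pos_of_cl_pos h1
  have h4 := pos_of_cl_pos h2
  constructor <;> linarith

lemma tau_eq_one {x : P3} (h1 : 1 / 2 ≤ RP x) (h2 : NP x ≤ 10) : tauP x = 1 := by
  rw [tauP, cl_of_one_le (by linarith), cl_of_one_le (by linarith), min_self]

lemma tau_nonneg (x : P3) : 0 ≤ tauP x := le_min (cl_nonneg _) (cl_nonneg _)

lemma q_ne {x : P3} (h : 0 < RP x) : qP x ≠ 0 := by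
  intro h0
  obtain ⟨he, ho, hsec⟩ := fanP x
  have h1 := congrArg Complex.re h0
  have h2 := congrArg Complex.im h0
  simp only [qP, qcf, add_re, mul_re, ofReal_re, ofReal_im, I_re, I_im, add_im, mul_im, zero_re,
    zero_im] at h1 h2
  unfold RP at h
  rcases hsec with h3 | h3 | h3 | h3 | h3 | h3 <;> obtain ⟨hx, hy, -⟩ := h3 <;> linarith

lemma D_ne {x : P3} (h : 0 < RP x) : DP x ≠ 0 := by
  obtain ⟨he, ho, hsec⟩ := fanP x
  exact DDf_ne he ho hsec h

lemma g_ne (x : P3) : gP x ≠ 0 := by
  intro h0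
  obtain ⟨he, ho, hsec⟩ := fanP x
  have hre := re_nonpos he ho hsec
  have h1 := congrArg Complex.re h0
  unfold gP at h1
  rw [add_re, neg_re, re_ofReal_mul, ofReal_re, zero_re] at h1
  have ht0 : 0 ≤ tP x := cl_nonneg _
  have ht1 : tP x ≤ 1 := cl_le_one _
  have hre' : (DP x * qP x ^ 3).re ≤ 0 := hre
  have h2 : 0 ≤ -(tP x * (DP x * qP x ^ 3).re) := by nlinarith
  have ht : tP x = 1 := by linarith
  have hpos : 0 < tauP x := by
    have : 0 < 2 * tauP x := pos_of_cl_pos (by change 0 < tP x; rw [ht]; norm_num)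
    linarith
  have hR := (tau_pos hpos).1
  have hR0 : 0 < RP x := by linarith
  unfold gP at h0
  rw [ht] at h0
  simp at h0
  rcases h0 with h0 | h0
  · exact D_ne hR0 h0
  · exact q_ne hR0 h0

/-- `FF` maps the complement of the trefoil to the complement of the discriminant curve. -/
theorem FF_mem {x : P3} (hx : x ∉ carrier K0) : FF x ∈ Yset := by
  intro h
  obtain ⟨he, ho, hsec⟩ := fanP x
  have reg : ∀ σ : ℝ, 0 ≤ σ → σ ≤ 1 → aP x ^ 2 = (σ : ℂ) ^ 2 * DP x →
      tauP x = 1 := by
    intro σ h0 h1 heq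
    obtain ⟨r1, r2, r3⟩ := region he ho h0 h1 hsec heq
    apply tau_eq_one
    · unfold RP; linarith
    · unfold NP; linarith
  have hs0 : 0 ≤ sP x := cl_nonneg _
  have hs1 : sP x ≤ 1 := cl_le_one _
  rcases hs0.eq_or_lt with hs | hs
  · -- `s = 0`
    have hA : (FF x).1 = 0 := by
      change (sP x : ℂ) ^ 2 * (DP x * qP x ^ 2) = 0
      rw [← hs]; simp
    have hB : (FF x).2 = 0 := by
      have h' : (FF x).1 ^ 3 = (FF x).2 ^ 2 := h
      rw [hA] at h'
      have : (FF x).2 ^ 2 = 0 := by rw [← h']; norm_num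
      exact pow_eq_zero_iff (two_ne_zero) |>.mp this
    have hB' : ((1 - chiP x : ℝ) : ℂ) * (aP x * gP x) - (chiP x : ℂ) = 0 := hB
    have hχ0 : 0 ≤ chiP x := cl_nonneg _
    have hχ1 : chiP x ≤ 1 := cl_le_one _
    rcases hχ0.eq_or_lt with hχ | hχ
    · rw [← hχ] at hB'
      simp only [sub_zero, ofReal_one, one_mul, ofReal_zero] at hB'
      rcases mul_eq_zero.mp hB' with h1 | h1
      · have := reg 0 le_rfl zero_le_one (by rw [h1]; simp)
        have hs' : sP x = 1 := by
          change cl (2 * tauP x - 1) = 1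
          rw [this]; exact cl_of_one_le (by norm_num)
        rw [hs'] at hs; norm_num at hs
      · exact g_ne x h1
    · have hN := pos_of_cl_pos hχ
      have hτ : tauP x = 0 := by
        by_contra hne
        have := (tau_pos (lt_of_le_of_ne (tau_nonneg x) (Ne.symm hne))).2
        linarith
      have ht : tP x = 0 := by
        change cl (2 * tauP x) = 0
        rw [hτ]; exact cl_of_nonpos (by norm_num)
      have hg : gP x = 1 := by
        unfold gP
        rw [ht]; simp
      rw [hg, mul_one] at hB'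
      have h1 := congrArg Complex.re hB'
      have h2 := congrArg Complex.im hB'
      rw [sub_re, re_ofReal_mul, ofReal_re, zero_re] at h1
      rw [sub_im, im_ofReal_mul, ofReal_im, zero_im] at h2
      have har : (aP x).re = 1 - (3 * eP x + 5 * oP x) / 2 := by simp [aP, aaf]
      have hai : (aP x).im = x 2 + (eP x + oP x) / 2 := by simp [aP, aaf]
      rw [har] at h1
      rw [hai] at h2
      have h3 : 0 < (1 - chiP x) * (1 - (3 * eP x + 5 * oP x) / 2) := by linarith
      have h4 : 0 < 1 - chiP x := by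
        rcases (sub_nonneg.mpr hχ1).eq_or_lt with h | h
        · rw [← h, zero_mul] at h3; exact absurd h3 (lt_irrefl _)
        · exact h
      have h5 : 0 < 1 - (3 * eP x + 5 * oP x) / 2 := (pos_iff_pos_of_mul_pos h3).mp h4
      have h6 : x 2 + (eP x + oP x) / 2 = 0 := by
        rcases mul_eq_zero.mp (show (1 - chiP x) * (x 2 + (eP x + oP x) / 2) = 0 by linarith)
          with h | h
        · linarith
        · exact h
      have h7 : |x 2| ≤ 1 := abs_le.mpr ⟨by linarith, by linarith⟩
      unfold NP at hN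
      linarith
  · -- `s > 0`
    have hτ : 1 / 2 < tauP x := by
      have := pos_of_cl_pos hs
      linarith
    obtain ⟨hR, hN⟩ := tau_pos (x := x) (by linarith)
    have ht : tP x = 1 := cl_of_one_le (by linarith)
    have hχ : chiP x = 0 := cl_of_nonpos (by linarith)
    have hR0 : 0 < RP x := by linarith
    have hg : gP x = -(DP x * qP x ^ 3) := by
      unfold gP
      rw [ht]; simp
    have h' : ((sP x : ℂ) ^ 2 * (DP x * qP x ^ 2)) ^ 3 =
        (((1 - chiP x : ℝ) : ℂ) * (aP x * gP x) - (chiP x : ℂ)) ^ 2 := h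
    rw [hχ, hg] at h'
    simp only [sub_zero, ofReal_one, one_mul, ofReal_zero] at h'
    have h1 : (DP x * qP x ^ 3) ^ 2 * (((sP x : ℂ) ^ 3) ^ 2 * DP x - aP x ^ 2) = 0 := by
      linear_combination h'
    have h2 : (DP x * qP x ^ 3) ^ 2 ≠ 0 :=
      pow_ne_zero _ (mul_ne_zero (D_ne hR0) (pow_ne_zero _ (q_ne hR0)))
    have h3 : aP x ^ 2 = (((sP x ^ 3 : ℝ)) : ℂ) ^ 2 * DP x := by
      have := (mul_eq_zero.mp h1).resolve_left h2
      push_cast
      linear_combination -this
    have hs3 : 0 ≤ sP x ^ 3 := by positivity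
    have hs31 : sP x ^ 3 ≤ 1 := pow_le_one₀ hs0 hs1
    have hτ1 := reg _ hs3 hs31 h3
    have hs' : sP x = 1 := by
      change cl (2 * tauP x - 1) = 1
      rw [hτ1]; exact cl_of_one_le (by norm_num)
    rw [hs'] at h3
    apply hx
    apply mem_K0 he ho hsec
    change aP x ^ 2 = DP x
    rw [h3]; simp

/-- `FF` is constant near infinity. -/
lemma FF_far {x : P3} (h : 12 ≤ NP x) : FF x = (0, -1) := by
  have hχ : chiP x = 1 := cl_of_one_le (by linarith)
  have hτ : tauP x = 0 := by
    by_contra hne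
    have := (tau_pos (lt_of_le_of_ne (tau_nonneg x) (Ne.symm hne))).2
    linarith
  have hs : sP x = 0 := by
    change cl (2 * tauP x - 1) = 0
    rw [hτ]; exact cl_of_nonpos (by norm_num)
  unfold FF
  rw [hχ, hs]
  simp

lemma norm_le_of_NP {x : P3} (h : NP x < 12) : ‖x‖ ≤ 36 := by
  obtain ⟨he, ho, hsec⟩ := fanP x
  unfold NP at h
  have hz : |x 2| ≤ 12 := by linarith
  have h0 : |x 0| ≤ 24 ∧ |x 1| ≤ 24 := by
    have := abs_nonneg (x 2)
    rcases hsec with h3 | h3 | h3 | h3 | h3 | h3 <;> obtain ⟨hx, hy, -⟩ := h3 <;>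
      constructor <;> rw [abs_le] <;> constructor <;> linarith
  rw [EuclideanSpace.norm_eq, Real.sqrt_le_left (by norm_num), Fin.sum_univ_three]
  simp only [Real.norm_eq_abs]
  have a0 := abs_nonneg (x 0)
  have a1 := abs_nonneg (x 1)
  have a2 := abs_nonneg (x 2)
  nlinarith [h0.1, h0.2]

lemma FF_far' {x : P3} (h : 36 < ‖x‖) : FF x = (0, -1) := by
  apply FF_far
  by_contra hc
  have := norm_le_of_NP (not_le.mp hc)
  linarith

/-- Values in the half plane `y = 0`, `x > 0`. -/
lemma FF_half_plane {x : P3} (h1 : x 1 = 0) (h0 : 1 / 4 ≤ x 0) (h2 : x 0 + |x 2| ≤ 10) :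
    FF x = (I / 2 * (x 0 : ℂ) ^ 4,
      -((((1 - 3 * x 0 / 2 : ℝ) : ℂ) + ((x 2 + x 0 / 2 : ℝ) : ℂ) * I) * (I / 2 * (x 0 : ℂ) ^ 5))) := by
  obtain ⟨he, ho, hsec⟩ := fanP x
  have hval : eP x = x 0 ∧ oP x = 0 ∧ wP x = 0 := by
    rcases hsec with h3 | h3 | h3 | h3 | h3 | h3 <;> obtain ⟨hx, hy, hw⟩ := h3 <;> rw [h1] at hy
    · have : oP x = 0 := hy.symm
      rw [this] at hx hw
      exact ⟨by linarith, this, by rw [hw]; ring⟩
    · exfalso; linarith
    · exfalso; linarith
    · exfalso; linarith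
    · exfalso; linarith
    · have : oP x = 0 := by linarith
      rw [this] at hx hw
      exact ⟨by linarith, this, by rw [hw]; ring⟩
  obtain ⟨ve, vo, vw⟩ := hval
  have hτ : tauP x = 1 := by
    apply tau_eq_one
    · unfold RP; rw [ve, vo]; linarith
    · unfold NP; rw [ve, vo]; linarith
  have hs : sP x = 1 := by
    change cl (2 * tauP x - 1) = 1
    rw [hτ]; exact cl_of_one_le (by norm_num)
  have ht : tP x = 1 := by
    change cl (2 * tauP x) = 1
    rw [hτ]; exact cl_of_one_le (by norm_num)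
  have hχ : chiP x = 0 := by
    refine cl_of_nonpos ?_
    unfold NP; rw [ve, vo]; linarith
  have hD : DP x = I / 2 * (x 0 : ℂ) ^ 2 := by
    unfold DP DDf
    rw [ve, vo, vw]; push_cast; ring
  have hq : qP x = (x 0 : ℂ) := by
    unfold qP qcf
    rw [h1]; simp
  have ha : aP x = ((1 - 3 * x 0 / 2 : ℝ) : ℂ) + ((x 2 + x 0 / 2 : ℝ) : ℂ) * I := by
    unfold aP aaf
    rw [ve, vo]; simp
  unfold FF gP
  rw [hs, ht, hχ, hD, hq, ha]
  refine Prod.ext ?_ ?_
  · simp only; push_cast; ring
  · simp only; push_cast; ring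

end MP6bf31b
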