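import Mathlib

/-!
# Piecewise linear functions on the fan of the six vertex directions
-/

namespace MP6bf31b

/-- product of positive parts -/
noncomputable def pp (s t : ℝ) : ℝ := max s 0 * max t 0

lemma pp_pos {s t : ℝ} (hs : 0 ≤ s) (ht : 0 ≤ t) : pp s t = s * t := by
  rw [pp, max_eq_left hs, max_eq_left ht]

lemma pp_left {s : ℝ} (t : ℝ) (hs : s ≤ 0) : pp s t = 0 := by
  rw [pp, max_eq_right hs, zero_mul]

lemma pp_right (s : ℝ) {t : ℝ} (ht : t ≤ 0) : pp s t = 0 := by
  rw [pp, max_eq_right ht, mul_zero]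

noncomputable def oo (x y : ℝ) : ℝ :=
  max (min y (x / 2)) (max (min (-x) ((y - x) / 2)) (min (x - y) (-y / 2)))

noncomputable def tt (x y : ℝ) : ℝ := max (x + y) (max (y - 2 * x) (x - 2 * y))

noncomputable def ee (x y : ℝ) : ℝ := tt x y - 3 * oo x y

noncomputable def ww (x y : ℝ) : ℝ :=
  pp (x - 2 * y) y - pp (x / 2) (y - x / 2) + pp (x + y) (-x) -
    pp ((y - x) / 2) (-(x + y) / 2) + pp (y - 2 * x) (x - y) - pp (-y / 2) (x - y / 2)

/-- The six sectors. -/
def Sec (e o w x y : ℝ) : Prop :=
  (x = e + 2 * o ∧ y = o ∧ w = e * o) ∨ (x = 2 * o ∧ y = o + e ∧ w = -(e * o)) ∨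
  (x = -o ∧ y = e + o ∧ w = e * o) ∨ (x = -o - e ∧ y = o - e ∧ w = -(e * o)) ∨
  (x = -e - o ∧ y = -e - 2 * o ∧ w = e * o) ∨ (x = e - o ∧ y = -2 * o ∧ w = -(e * o))

lemma continuous_oo : Continuous fun p : ℝ × ℝ => oo p.1 p.2 := by
  unfold oo; fun_prop

lemma continuous_tt : Continuous fun p : ℝ × ℝ => tt p.1 p.2 := by
  unfold tt; fun_prop

lemma continuous_ee : Continuous fun p : ℝ × ℝ => ee p.1 p.2 :=
  continuous_tt.sub (continuous_const.mul continuous_oo)

lemma continuous_ww : Continuous fun p : ℝ × ℝ => ww p.1 p.2 := by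
  unfold ww pp; fun_prop

lemma fan_cases (x y : ℝ) : 0 ≤ ee x y ∧ 0 ≤ oo x y ∧ Sec (ee x y) (oo x y) (ww x y) x y := by
  have key : ∀ e o : ℝ, 0 ≤ e → 0 ≤ o → ee x y = e → oo x y = o → Sec e o (ww x y) x y →
      0 ≤ ee x y ∧ 0 ≤ oo x y ∧ Sec (ee x y) (oo x y) (ww x y) x y := by
    intro e o he ho h1 h2 h3
    rw [h1, h2]; exact ⟨he, ho, h3⟩
  have hO : ∀ o : ℝ, (min y (x / 2) ≤ o) → (min (-x) ((y - x) / 2) ≤ o) →
      (min (x - y) (-y / 2) ≤ o) → (o ≤ min y (x / 2) ∨ o ≤ min (-x) ((y - x) / 2) ∨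
        o ≤ min (x - y) (-y / 2)) → oo x y = o := by
    intro o h1 h2 h3 h4
    apply le_antisymm
    · exact max_le h1 (max_le h2 h3)
    · rcases h4 with h | h | h
      · exact le_max_of_le_left h
      · exact le_max_of_le_right (le_max_of_le_left h)
      · exact le_max_of_le_right (le_max_of_le_right h)
  have hT : ∀ r : ℝ, x + y ≤ r → y - 2 * x ≤ r → x - 2 * y ≤ r →
      (r ≤ x + y ∨ r ≤ y - 2 * x ∨ r ≤ x - 2 * y) → tt x y = r := by
    intro r h1 h2 h3 h4
    apply le_antisymm
    · exact max_le h1 (max_le h2 h3)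
    · rcases h4 with h | h | h
      · exact le_max_of_le_left h
      · exact le_max_of_le_right (le_max_of_le_left h)
      · exact le_max_of_le_right (le_max_of_le_right h)
  have h6 : (0 ≤ y ∧ 2 * y ≤ x) ∨ (0 ≤ x ∧ x ≤ 2 * y) ∨ (x ≤ 0 ∧ 0 ≤ x + y) ∨
      (x + y ≤ 0 ∧ x ≤ y) ∨ (y ≤ x ∧ 2 * x ≤ y) ∨ (y ≤ 0 ∧ y ≤ 2 * x) := by
    rcases le_total 0 y with h1 | h1
    · rcases le_total (2 * y) x with h2 | h2
      · exact Or.inl ⟨h1, h2⟩
      · rcases le_total 0 x with h3 | h3
        · exact Or.inr (Or.inl ⟨h3, h2⟩)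
        · rcases le_total 0 (x + y) with h4 | h4
          · exact Or.inr (Or.inr (Or.inl ⟨h3, h4⟩))
          · exact Or.inr (Or.inr (Or.inr (Or.inl ⟨h4, by linarith⟩)))
    · rcases le_total y (2 * x) with h2 | h2
      · exact Or.inr (Or.inr (Or.inr (Or.inr (Or.inr ⟨h1, h2⟩))))
      · rcases le_total y x with h3 | h3
        · exact Or.inr (Or.inr (Or.inr (Or.inr (Or.inl ⟨h3, h2⟩))))
        · exact Or.inr (Or.inr (Or.inr (Or.inl ⟨by linarith, h3⟩)))
  rcases h6 with ⟨h1, h2⟩ | ⟨h1, h2⟩ | ⟨h1, h2⟩ | ⟨h1, h2⟩ | ⟨h1, h2⟩ | ⟨h1, h2⟩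
  · have ho : oo x y = y := by
      apply hO
      · exact min_le_left _ _
      · exact (min_le_left _ _).trans (by linarith)
      · exact (min_le_right _ _).trans (by linarith)
      · exact Or.inl (le_min (by linarith) (by linarith))
    have ht : tt x y = x + y := by
      apply hT <;> first | linarith | exact Or.inl le_rfl
    have he : ee x y = x - 2 * y := by rw [ee, ht, ho]; ring
    refine key _ _ (by linarith) h1 he ho (Or.inl ⟨by ring, rfl, ?_⟩)
    unfold ww
    rw [pp_pos (by linarith : 0 ≤ x - 2 * y) h1, pp_right _ (by linarith : y - x / 2 ≤ 0),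
      pp_right _ (by linarith : -x ≤ 0), pp_right _ (by linarith : -(x + y) / 2 ≤ 0),
      pp_left _ (by linarith : y - 2 * x ≤ 0), pp_left _ (by linarith : -y / 2 ≤ 0)]
    ring
  · have ho : oo x y = x / 2 := by
      apply hO
      · exact min_le_right _ _
      · exact (min_le_left _ _).trans (by linarith)
      · exact (min_le_right _ _).trans (by linarith)
      · exact Or.inl (le_min (by linarith) (by linarith))
    have ht : tt x y = x + y := by
      apply hT <;> first | linarith | exact Or.inl le_rfl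
    have he : ee x y = y - x / 2 := by rw [ee, ht, ho]; ring
    refine key _ _ (by linarith) (by linarith) he ho (Or.inr (Or.inl ⟨by ring, by ring, ?_⟩))
    unfold ww
    rw [pp_left _ (by linarith : x - 2 * y ≤ 0), pp_pos (by linarith : 0 ≤ x / 2)
      (by linarith : 0 ≤ y - x / 2),
      pp_right _ (by linarith : -x ≤ 0), pp_right _ (by linarith : -(x + y) / 2 ≤ 0)]
    rcases le_total (y - 2 * x) 0 with h3 | h3
    · rw [pp_left _ h3, pp_left _ (by linarith : -y / 2 ≤ 0)]; ring
    · rw [pp_right _ (by linarith : x - y ≤ 0), pp_left _ (by linarith : -y / 2 ≤ 0)]; ring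
  · have ho : oo x y = -x := by
      apply hO
      · exact (min_le_right _ _).trans (by linarith)
      · exact min_le_left _ _
      · exact (min_le_left _ _).trans (by linarith)
      · exact Or.inr (Or.inl (le_min (by linarith) (by linarith)))
    have ht : tt x y = y - 2 * x := by
      apply hT <;> first | linarith | exact Or.inr (Or.inl le_rfl)
    have he : ee x y = x + y := by rw [ee, ht, ho]; ring
    refine key _ _ (by linarith) (by linarith) he ho
      (Or.inr (Or.inr (Or.inl ⟨by ring, by ring, ?_⟩)))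
    unfold ww
    rw [pp_left _ (by linarith : x - 2 * y ≤ 0), pp_left _ (by linarith : x / 2 ≤ 0),
      pp_pos (by linarith : 0 ≤ x + y) (by linarith : 0 ≤ -x),
      pp_right _ (by linarith : -(x + y) / 2 ≤ 0),
      pp_right _ (by linarith : x - y ≤ 0), pp_left _ (by linarith : -y / 2 ≤ 0)]
    ring
  · have ho : oo x y = (y - x) / 2 := by
      apply hO
      · rcases le_total y (x / 2) with h3 | h3
        · exact (min_le_left _ _).trans (by linarith)
        · exact (min_le_right _ _).trans (by linarith)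
      · exact min_le_right _ _
      · exact (min_le_left _ _).trans (by linarith)
      · exact Or.inr (Or.inl (le_min (by linarith) (by linarith)))
    have ht : tt x y = y - 2 * x := by
      apply hT <;> first | linarith | exact Or.inr (Or.inl le_rfl)
    have he : ee x y = -(x + y) / 2 := by rw [ee, ht, ho]; ring
    refine key _ _ (by linarith) (by linarith) he ho
      (Or.inr (Or.inr (Or.inr (Or.inl ⟨by ring, by ring, ?_⟩))))
    unfold ww
    rw [pp_left _ (by linarith : x + y ≤ 0),
      pp_pos (by linarith : 0 ≤ (y - x) / 2) (by linarith : 0 ≤ -(x + y) / 2),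
      pp_right _ (by linarith : x - y ≤ 0), pp_right _ (by linarith : x - y / 2 ≤ 0)]
    rcases le_total y 0 with h3 | h3
    · rw [pp_right _ h3, pp_left _ (by linarith : x / 2 ≤ 0)]; ring
    · rw [pp_left _ (by linarith : x - 2 * y ≤ 0), pp_left _ (by linarith : x / 2 ≤ 0)]; ring
  · have ho : oo x y = x - y := by
      apply hO
      · exact (min_le_left _ _).trans (by linarith)
      · exact (min_le_right _ _).trans (by linarith)
      · exact min_le_left _ _
      · exact Or.inr (Or.inr (le_min (by linarith) (by linarith)))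
    have ht : tt x y = x - 2 * y := by
      apply hT <;> first | linarith | exact Or.inr (Or.inr le_rfl)
    have he : ee x y = y - 2 * x := by rw [ee, ht, ho]; ring
    refine key _ _ (by linarith) (by linarith) he ho
      (Or.inr (Or.inr (Or.inr (Or.inr (Or.inl ⟨by ring, by ring, ?_⟩)))))
    unfold ww
    rw [pp_right _ (by linarith : y ≤ 0), pp_left _ (by linarith : x / 2 ≤ 0),
      pp_left _ (by linarith : x + y ≤ 0), pp_left _ (by linarith : (y - x) / 2 ≤ 0),
      pp_pos (by linarith : 0 ≤ y - 2 * x) (by linarith : 0 ≤ x - y),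
      pp_right _ (by linarith : x - y / 2 ≤ 0)]
    ring
  · have ho : oo x y = -y / 2 := by
      apply hO
      · exact (min_le_left _ _).trans (by linarith)
      · rcases le_total x 0 with h3 | h3
        · exact (min_le_right _ _).trans (by linarith)
        · exact (min_le_left _ _).trans (by linarith)
      · exact min_le_right _ _
      · exact Or.inr (Or.inr (le_min (by linarith) (by linarith)))
    have ht : tt x y = x - 2 * y := by
      apply hT <;> first | linarith | exact Or.inr (Or.inr le_rfl)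
    have he : ee x y = x - y / 2 := by rw [ee, ht, ho]; ring
    refine key _ _ (by linarith) (by linarith) he ho
      (Or.inr (Or.inr (Or.inr (Or.inr (Or.inr ⟨by ring, by ring, ?_⟩)))))
    unfold ww
    rw [pp_right _ (by linarith : y ≤ 0), pp_right _ (by linarith : y - x / 2 ≤ 0),
      pp_left _ (by linarith : y - 2 * x ≤ 0),
      pp_pos (by linarith : 0 ≤ -y / 2) (by linarith : 0 ≤ x - y / 2)]
    rcases le_total x 0 with h3 | h3
    · rw [pp_left _ (by linarith : x + y ≤ 0), pp_left _ (by linarith : (y - x) / 2 ≤ 0)]; ring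
    · rw [pp_right _ (by linarith : -x ≤ 0), pp_left _ (by linarith : (y - x) / 2 ≤ 0)]; ring

end MP6bf31b
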