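import Pool.Agent.Lib.MP_6bf31b_an.Isotopy

/-!
# Small perturbations of an embedded hexagon are ambient isotopic to it, part 2
-/

namespace MP6bf31b

open AffineMap Set
open scoped NNReal

lemma Isotopic.refl (A : Set P3) : Isotopic A A :=
  ⟨fun _ => Homeomorph.refl P3, continuous_snd.continuousOn, fun _ => rfl, by simp⟩

lemma Isotopic.trans {A B C : Set P3} (h1 : Isotopic A B) (h2 : Isotopic B C) :
    Isotopic A C := by
  obtain ⟨H, hc, h0, hAB⟩ := h1
  obtain ⟨H', hc', h0', hBC⟩ := h2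
  refine ⟨fun s => (H s).trans (H' s), ?_, ?_, ?_⟩
  · have h : ContinuousOn (fun q : ℝ × P3 => (q.1, H q.1 q.2)) (Icc 0 1 ×ˢ univ) :=
      continuous_fst.continuousOn.prodMk hc
    have hm : MapsTo (fun q : ℝ × P3 => (q.1, H q.1 q.2)) (Icc 0 1 ×ˢ univ)
        (Icc 0 1 ×ˢ univ) := fun q hq => ⟨hq.1, mem_univ _⟩
    exact hc'.comp h hm
  · intro x
    simp [h0, h0']
  · rw [← hBC, ← hAB, image_image]
    rfl

lemma bval_sum {V : Type*} [AddCommGroup V] [Module ℝ V] (i : Fin 6) (s : ℝ) (v : Fin 6 → V) :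
    ∑ k, bval k i s • v k = (1 - s) • v i + s • v (i + 1) := by
  simp only [bval, add_smul, Finset.sum_add_distrib, mul_smul, ← Finset.smul_sum, ite_smul,
    one_smul, zero_smul]
  simp

/-- Every hexagon near an embedded hexagon is embedded and ambient isotopic to it. -/
theorem exists_isotopic_near {p : Fin 6 → P3} (hp : Embedded p) :
    ∃ δ > 0, ∀ q : Fin 6 → P3, (∀ i, dist (q i) (p i) < δ) →
      Embedded q ∧ Isotopic (carrier p) (carrier q) := by
  choose C φ hφ hval using fun k => exists_bary hp k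
  set D : ℝ≥0 := ∑ k, C k with hD
  refine ⟨(2 * (D + 1) : ℝ)⁻¹, by positivity, fun q hq => ?_⟩
  set G : P3 → P3 := fun x => ∑ k, φ k x • (q k - p k) with hG
  have hGlip : LipschitzWith (1 / 2 : ℝ≥0) G := by
    refine LipschitzWith.of_dist_le_mul ?_
    intro x y
    have e : G x - G y = ∑ k, (φ k x - φ k y) • (q k - p k) := by
      simp only [hG, ← Finset.sum_sub_distrib, ← sub_smul]
    rw [dist_eq_norm, e]
    have h1 : ∀ k, ‖(φ k x - φ k y) • (q k - p k)‖ ≤
        C k * dist x y * (2 * (D + 1) : ℝ)⁻¹ := by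
      intro k
      rw [norm_smul]
      have a1 := (hφ k).dist_le_mul x y
      rw [Real.dist_eq] at a1
      have a2 := (hq k).le
      rw [dist_eq_norm] at a2
      rw [Real.norm_eq_abs]
      exact mul_le_mul a1 a2 (norm_nonneg _) (by positivity)
    refine (norm_sum_le _ _).trans ((Finset.sum_le_sum fun k _ => h1 k).trans ?_)
    rw [← Finset.sum_mul, ← Finset.sum_mul]
    have hDs : (∑ k, (C k : ℝ)) = D := by rw [hD]; push_cast; rfl
    rw [hDs]
    have hd : 0 ≤ dist x y := dist_nonneg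
    have hDD : (0 : ℝ) ≤ D := D.2
    have : (D : ℝ) * (2 * (D + 1) : ℝ)⁻¹ ≤ 1 / 2 := by
      rw [mul_inv_le_iff₀ (by positivity)]; linarith
    calc (D : ℝ) * dist x y * (2 * (D + 1) : ℝ)⁻¹ = (D : ℝ) * (2 * (D + 1) : ℝ)⁻¹ * dist x y := by
          ring
      _ ≤ 1 / 2 * dist x y := mul_le_mul_of_nonneg_right this hd
      _ = _ := by simp
  have hGcont : Continuous G := hGlip.continuous
  have hK : (1 / 2 : ℝ≥0) < 1 := by
    rw [← NNReal.coe_lt_coe]; norm_num
  have hex : ∀ s : ℝ, ∃ h : P3 ≃ₜ P3, ∀ x, h x = x + (projIcc (0 : ℝ) 1 zero_le_one s : ℝ) • G x :=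
    fun s => exists_homeo hK hGlip (projIcc (0 : ℝ) 1 zero_le_one s).2
  choose H hH using hex
  have hline : ∀ i, ∀ s ∈ Icc (0 : ℝ) 1,
      H 1 (lineMap (p i) (p (i + 1)) s) = lineMap (q i) (q (i + 1)) s := by
    intro i s hs
    have h1 : (projIcc (0 : ℝ) 1 zero_le_one 1 : ℝ) = 1 := by simp
    rw [hH, h1, one_smul]
    have h2 : G (lineMap (p i) (p (i + 1)) s) =
        (1 - s) • (q i - p i) + s • (q (i + 1) - p (i + 1)) := by
      simp only [hG]
      rw [← bval_sum i s (fun k => q k - p k)]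
      exact Finset.sum_congr rfl fun k _ => by rw [hval k i s hs]
    rw [h2]
    simp only [lineMap_apply, vsub_eq_sub, vadd_eq_add]
    module
  have hedge : ∀ i, H 1 '' edge p i = edge q i := by
    intro i
    ext x
    constructor
    · rintro ⟨y, hy, rfl⟩
      obtain ⟨s, hs, rfl⟩ := (mem_edge_iff p i y).mp hy
      rw [hline i s hs]
      exact lineMap_mem_edge q i hs
    · intro hx
      obtain ⟨s, hs, rfl⟩ := (mem_edge_iff q i x).mp hx
      exact ⟨_, lineMap_mem_edge p i hs, hline i s hs⟩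
  have hvert : ∀ i, H 1 (p i) = q i := by
    intro i
    have := hline i 0 (by simp)
    simpa using this
  refine ⟨⟨?_, ?_⟩, H, ?_, ?_, ?_⟩
  · intro i j hij
    rw [← hvert i, ← hvert j] at hij
    exact hp.1 ((H 1).injective hij)
  · intro i j hij x hx
    rw [← hedge i, ← hedge j, ← image_inter (H 1).injective] at hx
    obtain ⟨y, hy, rfl⟩ := hx
    rcases hp.2 i j hij y hy with h | h
    · left; exact ⟨h.1, by rw [h.2, hvert]⟩
    · right; exact ⟨h.1, by rw [h.2, hvert]⟩
  · have : (fun q : ℝ × P3 => H q.1 q.2) =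
        fun q : ℝ × P3 => q.2 + (projIcc (0 : ℝ) 1 zero_le_one q.1 : ℝ) • G q.2 := by
      funext z; exact hH z.1 z.2
    rw [this]
    refine Continuous.continuousOn ?_
    have c1 : Continuous fun q : ℝ × P3 => (projIcc (0 : ℝ) 1 zero_le_one q.1 : ℝ) :=
      continuous_subtype_val.comp (continuous_projIcc.comp continuous_fst)
    exact continuous_snd.add (c1.smul (hGcont.comp continuous_snd))
  · intro x
    rw [hH]
    simp
  · simp only [carrier, image_iUnion, hedge]

end MP6bf31b
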