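import Mathlib

/-!
# Following the roots of `v³ - 3v + 2b` while `b` runs around `1`
-/

namespace MP6bf31b

open Complex

/-- sign constancy for a nonvanishing continuous real function -/
lemma sign_const {f : ℝ → ℝ} (hf : Continuous f) (h0 : ∀ t, f t ≠ 0) (a b : ℝ) (ha : 0 < f a) :
    0 < f b := by
  by_contra hc
  have hb : f b < 0 := lt_of_le_of_ne (not_lt.mp hc) (h0 b)
  have hpre : IsPreconnected (Set.univ : Set ℝ) := isPreconnected_univ
  obtain ⟨c, -, hc0⟩ := hpre.intermediate_value (Set.mem_univ b) (Set.mem_univ a)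
    hf.continuousOn (Set.mem_Icc.mpr ⟨hb.le, ha.le⟩)
  exact h0 c hc0

lemma sqrt3_sq : (Real.sqrt 3) * (Real.sqrt 3) = 3 := Real.mul_self_sqrt (by norm_num)

lemma one_lt_sqrt3 : 1 < Real.sqrt 3 := by
  rw [Real.lt_sqrt] <;> norm_num

/-- The three roots over the base point. -/
lemma roots_base {v : ℂ} (h : v ^ 3 - 3 * v = 0) :
    v = 0 ∨ v = (Real.sqrt 3 : ℂ) ∨ v = -(Real.sqrt 3 : ℂ) := by
  have h3 : ((Real.sqrt 3 : ℝ) : ℂ) * (Real.sqrt 3 : ℂ) = 3 := by
    rw [← Complex.ofReal_mul, sqrt3_sq]; norm_num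
  have : v * ((v - (Real.sqrt 3 : ℂ)) * (v + (Real.sqrt 3 : ℂ))) = 0 := by
    linear_combination h + (-v) * h3
  rcases mul_eq_zero.mp this with h | h
  · exact Or.inl h
  · rcases mul_eq_zero.mp h with h | h
    · exact Or.inr (Or.inl (sub_eq_zero.mp h))
    · exact Or.inr (Or.inr (eq_neg_of_add_eq_zero_left h))

section
variable {v : ℝ → ℂ} (hv : Continuous v)
  (h : ∀ t : ℝ, (v t - 1) ^ 2 * (v t + 2) = 2 * exp (2 * Real.pi * t * I))
include h

lemma re_ne (t : ℝ) : (v t).re ≠ -1 := by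
  intro hre
  have h1 := congrArg (fun z : ℂ => ‖z‖) (h t)
  simp only [norm_mul, norm_pow] at h1
  have h2 : ‖exp (2 * Real.pi * t * I)‖ = 1 := by
    have : (2 * Real.pi * t * I : ℂ) = ((2 * Real.pi * t : ℝ) : ℂ) * I := by push_cast; ring
    rw [this, norm_exp_ofReal_mul_I]
  rw [h2] at h1
  have h3 : 2 ≤ ‖v t - 1‖ := by
    have := abs_re_le_norm (v t - 1)
    rw [sub_re, hre, one_re] at this
    norm_num at this
    exact this
  have h4 : 1 ≤ ‖v t + 2‖ := by
    have := abs_re_le_norm (v t + 2)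
    rw [add_re, hre] at this
    norm_num at this
    exact this
  norm_num at h1
  nlinarith

lemma end_eq : v 1 = 0 ∨ v 1 = (Real.sqrt 3 : ℂ) ∨ v 1 = -(Real.sqrt 3 : ℂ) := by
  apply roots_base
  have h1 := h 1
  have h2 : exp (2 * Real.pi * (1 : ℝ) * I) = 1 := by
    rw [← exp_two_pi_mul_I]; congr 1; push_cast; ring
  rw [h2] at h1
  linear_combination h1

include hv

/-- The root `-√3` comes back to itself. -/
lemma mono_neg (h0 : v 0 = -(Real.sqrt 3 : ℂ)) : v 1 = -(Real.sqrt 3 : ℂ) := by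
  have hs := one_lt_sqrt3
  have hc : Continuous fun t => -1 - (v t).re := by fun_prop
  have hpos := sign_const hc (fun t ht => re_ne h t (by linarith)) 0 1 (by
    rw [h0]; simp; linarith)
  rcases end_eq h with h1 | h1 | h1
  · rw [h1] at hpos; norm_num at hpos
  · rw [h1] at hpos
    rw [ofReal_re] at hpos; linarith
  · exact h1

lemma re_gt (h0 : -1 < (v 0).re) (t : ℝ) : -1 < (v t).re := by
  have hc : Continuous fun t => (v t).re + 1 := by fun_prop
  have hpos := sign_const hc (fun t ht => re_ne h t (by linarith)) 0 t (by linarith)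
  linarith

lemma h_re_ne (h0 : -1 < (v 0).re) (t : ℝ) :
    ((v t - 1) * exp (-(Real.pi * t * I))).re ≠ 0 := by
  intro hre
  set w := (v t - 1) * exp (-(Real.pi * t * I)) with hw
  have h1 : w ^ 2 * (v t + 2) = 2 := by
    have e : exp (-(Real.pi * t * I)) ^ 2 * exp (2 * Real.pi * t * I) = 1 := by
      rw [← exp_nat_mul, ← exp_add]
      have : (((2 : ℕ) : ℂ) * -(Real.pi * t * I) + 2 * Real.pi * t * I) = 0 := by
        push_cast; ring
      rw [this, exp_zero]
    rw [hw]
    linear_combination exp (-(Real.pi * t * I)) ^ 2 * h t + 2 * e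
  have h2 : w ^ 2 = -((w.im : ℂ) ^ 2) := by
    have : w = w.im * I := by
      apply Complex.ext
      · simp [hre]
      · simp
    rw [this]
    simp only [mul_im, ofReal_re, I_im, ofReal_im, I_re, mul_one, mul_zero, add_zero]
    rw [mul_pow, I_sq]; ring
  rw [h2] at h1
  have h3 := congrArg Complex.re h1
  have h4 : (-((w.im : ℂ) ^ 2) * (v t + 2)).re = -(w.im ^ 2) * ((v t).re + 2) := by
    rw [← ofReal_pow, ← ofReal_neg, re_ofReal_mul]
    simp
  rw [h4] at h3
  have h5 := re_gt hv h h0 t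
  have h6 : (2 : ℂ).re = 2 := rfl
  rw [h6] at h3
  nlinarith [sq_nonneg w.im]

/-- The roots `0` and `√3` are exchanged. -/
lemma mono_zero (h0 : v 0 = 0) : v 1 = (Real.sqrt 3 : ℂ) := by
  have h0' : -1 < (v 0).re := by rw [h0]; norm_num
  have hs := one_lt_sqrt3
  have hc : Continuous fun t : ℝ => -((v t - 1) * exp (-(Real.pi * t * I))).re := by fun_prop
  have hpos := sign_const hc (fun t ht => h_re_ne hv h h0' t (neg_eq_zero.mp ht)) 0 1 (by
    rw [h0]; simp)
  have he : exp (-(Real.pi * (1 : ℝ) * I)) = -1 := by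
    rw [exp_neg]
    have : (Real.pi * (1 : ℝ) * I : ℂ) = Real.pi * I := by push_cast; ring
    rw [this, exp_pi_mul_I]; norm_num
  rw [he] at hpos
  have hgt := re_gt hv h h0' 1
  rcases end_eq h with h1 | h1 | h1
  · rw [h1] at hpos; norm_num at hpos
  · exact h1
  · rw [h1] at hgt
    rw [neg_re, ofReal_re] at hgt; linarith

lemma mono_pos (h0 : v 0 = (Real.sqrt 3 : ℂ)) : v 1 = 0 := by
  have hs := one_lt_sqrt3
  have h0' : -1 < (v 0).re := by rw [h0, ofReal_re]; linarith
  have hc : Continuous fun t : ℝ => ((v t - 1) * exp (-(Real.pi * t * I))).re := by fun_prop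
  have hpos := sign_const hc (fun t ht => h_re_ne hv h h0' t ht) 0 1 (by
    rw [h0]; simp; linarith)
  have he : exp (-(Real.pi * (1 : ℝ) * I)) = -1 := by
    rw [exp_neg]
    have : (Real.pi * (1 : ℝ) * I : ℂ) = Real.pi * I := by push_cast; ring
    rw [this, exp_pi_mul_I]; norm_num
  rw [he] at hpos
  have hgt := re_gt hv h h0' 1
  rcases end_eq h with h1 | h1 | h1
  · exact h1
  · rw [h1] at hpos
    simp at hpos
    linarith
  · rw [h1] at hgt
    rw [neg_re, ofReal_re] at hgt; linarith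

end

end MP6bf31b
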