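import Pool.Agent.Lib.MP_6bf31b_an.Torus
import Pool.Agent.Lib.MP_6bf31b_an.Monodromy

/-!
# The hexagonal trefoil is knotted
-/

namespace MP6bf31b

open Set Topology Filter Complex

/-- The point of the half plane `y = 0, x > 0` with parameter `c = (1 + i z)/x`. -/
noncomputable def Xc (c : ℂ) : P3 := !₂[1 / c.re, 0, c.im / c.re]

noncomputable def kap : ℂ := (1 + I) / 2

lemma kap_ne : kap ≠ 0 := by
  intro h
  have := congrArg Complex.re h
  simp [kap] at this

lemma kap_sq : kap ^ 2 = I / 2 := by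
  unfold kap
  have : (1 + I) ^ 2 = 2 * I := by linear_combination I_sq
  rw [div_pow, this]; ring

noncomputable def ex (s : ℝ) : ℂ := exp (2 * Real.pi * s * I)

lemma norm_ex (s : ℝ) : ‖ex s‖ = 1 := by
  unfold ex
  have : (2 * Real.pi * s * I : ℂ) = ((2 * Real.pi * s : ℝ) : ℂ) * I := by push_cast; ring
  rw [this, norm_exp_ofReal_mul_I]

lemma ex_zero : ex 0 = 1 := by simp [ex]
lemma ex_one : ex 1 = 1 := by
  unfold ex
  rw [← exp_two_pi_mul_I]; congr 1; push_cast; ring

lemma continuous_ex : Continuous ex := by unfold ex; fun_prop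

/-- The two loops in the half plane, in the parameter `c`. -/
noncomputable def cal (s : ℝ) : ℂ := (1 - I) + kap * ex s
noncomputable def cbe (s : ℝ) : ℂ := 2 - kap * ex s

lemma norm_kap_sq : ‖kap‖ ^ 2 = 1 / 2 := by
  rw [norm_sq_eq]
  simp [kap]
  norm_num

lemma norm_kap : ‖kap‖ ≤ 708 / 1000 := by
  have := norm_kap_sq
  nlinarith [norm_nonneg kap]

lemma kap_ex_bounds (s : ℝ) : |(kap * ex s).re| ≤ 708 / 1000 ∧ |(kap * ex s).im| ≤ 708 / 1000 := by
  have h : ‖kap * ex s‖ ≤ 708 / 1000 := by rw [norm_mul, norm_ex, mul_one]; exact norm_kap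
  exact ⟨(abs_re_le_norm _).trans h, (abs_im_le_norm _).trans h⟩

/-- Admissible parameters. -/
def Adm (c : ℂ) : Prop := 292 / 1000 ≤ c.re ∧ c.re ≤ 4 ∧ |c.im| ≤ 1708 / 1000

lemma adm_al (s : ℝ) : Adm (cal s) := by
  obtain ⟨h1, h2⟩ := kap_ex_bounds s
  rw [abs_le] at h1 h2
  unfold Adm cal
  simp only [add_re, sub_re, one_re, I_re, add_im, sub_im, one_im, I_im]
  rw [abs_le]
  refine ⟨by linarith, by linarith, by linarith, by linarith⟩

lemma adm_be (s : ℝ) : Adm (cbe s) := by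
  obtain ⟨h1, h2⟩ := kap_ex_bounds s
  rw [abs_le] at h1 h2
  have e1 : (2 : ℂ).re = 2 := rfl
  have e2 : (2 : ℂ).im = 0 := rfl
  unfold Adm cbe
  simp only [sub_re, sub_im, e1, e2]
  rw [abs_le]
  refine ⟨by linarith, by linarith, by linarith, by linarith⟩

lemma Xc_0 (c : ℂ) : (Xc c) 0 = 1 / c.re := rfl
lemma Xc_1 (c : ℂ) : (Xc c) 1 = 0 := rfl
lemma Xc_2 (c : ℂ) : (Xc c) 2 = c.im / c.re := rfl

lemma Xc_not_mem {c : ℂ} (hc : Adm c) (h1 : c ≠ 1 - I) (h2 : c ≠ 2) : Xc c ∉ carrier K0 := by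
  intro hx
  have hpos : 0 < c.re := by linarith [hc.1]
  rcases K0_half_plane hx (Xc_1 c) (by rw [Xc_0]; positivity) with ⟨h3, h4⟩ | ⟨h3, h4⟩
  · rw [Xc_0] at h3
    rw [Xc_2] at h4
    have e : c.re = 1 := by field_simp at h3; linarith
    rw [e, div_one] at h4
    apply h1
    apply Complex.ext <;> simp [e, h4]
  · rw [Xc_0] at h3
    rw [Xc_2] at h4
    have e : c.re = 2 := by field_simp at h3; linarith
    rw [e] at h4
    apply h2
    apply Complex.ext
    · rw [e]; rfl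
    · have : c.im = 0 := by linarith
      rw [this]; rfl

lemma kap_ex_ne (s : ℝ) : kap * ex s ≠ 0 := by
  rw [← norm_ne_zero_iff, norm_mul, norm_ex, mul_one]
  exact norm_ne_zero_iff.mpr kap_ne

lemma al_not_mem (s : ℝ) : Xc (cal s) ∉ carrier K0 := by
  refine Xc_not_mem (adm_al s) ?_ ?_
  · intro h
    apply kap_ex_ne s
    unfold cal at h
    linear_combination h
  · intro h
    have h' := congrArg Complex.re h
    have h2 := (kap_ex_bounds s).1
    rw [abs_le] at h2
    have e1 : (2 : ℂ).re = 2 := rfl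
    unfold cal at h'
    simp only [add_re, sub_re, one_re, I_re, e1] at h'
    linarith

lemma be_not_mem (s : ℝ) : Xc (cbe s) ∉ carrier K0 := by
  refine Xc_not_mem (adm_be s) ?_ ?_
  · intro h
    have h' := congrArg Complex.re h
    have h2 := (kap_ex_bounds s).1
    rw [abs_le] at h2
    have e1 : (2 : ℂ).re = 2 := rfl
    unfold cbe at h'
    simp only [sub_re, one_re, I_re, e1] at h'
    linarith
  · intro h
    apply kap_ex_ne s
    unfold cbe at h
    linear_combination -h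

/-- Values of `FF` on the half plane. -/
lemma FF_Xc {c : ℂ} (hc : Adm c) : FF (Xc c) =
    (kap ^ 2 * ((1 / c.re : ℝ) : ℂ) ^ 4,
      -(kap ^ 2 * ((1 / c.re : ℝ) : ℂ) ^ 6 * (c - (3 - I) / 2))) := by
  obtain ⟨h1, h2, h3⟩ := hc
  have hpos : 0 < c.re := by linarith
  have h4 : 1 / 4 ≤ 1 / c.re := one_div_le_one_div_of_le hpos h2
  have h5 : 1 / c.re ≤ 1 / (292 / 1000) := one_div_le_one_div_of_le (by norm_num) h1
  have h6 : (Xc c) 0 + |(Xc c) 2| ≤ 10 := by
    rw [Xc_0, Xc_2, abs_div, abs_of_pos hpos]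
    have : |c.im| / c.re = |c.im| * (1 / c.re) := by ring
    rw [this]
    have h7 : |c.im| * (1 / c.re) ≤ 1708 / 1000 * (1 / (292 / 1000)) :=
      mul_le_mul h3 h5 (by positivity) (by norm_num)
    have : (1 : ℝ) / (292 / 1000) + 1708 / 1000 * (1 / (292 / 1000)) ≤ 10 := by norm_num
    linarith
  rw [FF_half_plane (Xc_1 c) (by rw [Xc_0]; exact h4) h6, Xc_0, Xc_2, kap_sq]
  have hcc : (c.re : ℂ) ≠ 0 := by exact_mod_cast hpos.ne'
  have hc2 : c - (3 - I) / 2 = ((c.re : ℂ) + (c.im : ℂ) * I) - (3 - I) / 2 := by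
    rw [re_add_im]
  refine Prod.ext rfl ?_
  simp only
  rw [hc2]
  push_cast
  field_simp
  ring

lemma kap_mul : kap * (1 - I) = 1 := by
  unfold kap
  linear_combination (-1 / 2 : ℂ) * I_sq

/-- The rescaled root. -/
noncomputable def vf (c : ℂ) (u : ℂ) : ℂ := u / (kap * ((1 / c.re : ℝ) : ℂ) ^ 2)

lemma vf_eq {c : ℂ} (hc : Adm c) {g : ℂ × ℂ} (h : pc g = FF (Xc c)) :
    kap * (vf c g.2 ^ 3 - 3 * vf c g.2) = 2 * (c - (3 - I) / 2) := by
  rw [FF_Xc hc] at h
  have hpos : 0 < c.re := by linarith [hc.1]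
  set r : ℂ := ((1 / c.re : ℝ) : ℂ) with hr
  have hr0 : r ≠ 0 := by
    rw [hr]; exact_mod_cast (one_div_pos.mpr hpos).ne'
  have h1 : g.1 = kap ^ 2 * r ^ 4 := congrArg Prod.fst h
  have h2 : (3 * g.1 * g.2 - g.2 ^ 3) / 2 = -(kap ^ 2 * r ^ 6 * (c - (3 - I) / 2)) :=
    congrArg Prod.snd h
  have h3 : g.2 = kap * r ^ 2 * vf c g.2 := by
    unfold vf
    rw [← hr]
    field_simp [kap_ne]
  set v := vf c g.2 with hv
  rw [h1, h3] at h2
  have h4 : kap ^ 2 * r ^ 6 ≠ 0 := mul_ne_zero (pow_ne_zero _ kap_ne) (pow_ne_zero _ hr0)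
  apply mul_left_cancel₀ h4
  linear_combination (-2 : ℂ) * h2

lemma vf_al {s : ℝ} {g : ℂ × ℂ} (h : pc g = FF (Xc (cal s))) :
    (vf (cal s) g.2 - 1) ^ 2 * (vf (cal s) g.2 + 2) = 2 * ex s := by
  have h1 := vf_eq (adm_al s) h
  apply mul_left_cancel₀ kap_ne
  set v := vf (cal s) g.2 with hv
  unfold cal at h1
  have hk : kap = (1 + I) / 2 := rfl
  linear_combination h1 + 2 * hk

lemma vf_be {s : ℝ} {g : ℂ × ℂ} (h : pc g = FF (Xc (cbe s))) :
    (-vf (cbe s) g.2 - 1) ^ 2 * (-vf (cbe s) g.2 + 2) = 2 * ex s := by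
  have h1 := vf_eq (adm_be s) h
  apply mul_left_cancel₀ kap_ne
  set v := vf (cbe s) g.2 with hv
  unfold cbe at h1
  have hk : kap = (1 + I) / 2 := rfl
  linear_combination -h1 + 2 * hk

lemma continuous_vf {c : ℝ → ℂ} (hc : Continuous c) (hadm : ∀ s, Adm (c s)) {u : ℝ → ℂ}
    (hu : Continuous u) : Continuous fun s => vf (c s) (u s) := by
  have hpos : ∀ s, (c s).re ≠ 0 := fun s => by linarith [(hadm s).1]
  have h1 : Continuous fun s => ((1 / (c s).re : ℝ) : ℂ) :=
    continuous_ofReal.comp (continuous_const.div (continuous_re.comp hc) hpos)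
  unfold vf
  refine hu.div (continuous_const.mul (h1.pow 2)) fun s => ?_
  refine mul_ne_zero kap_ne (pow_ne_zero _ ?_)
  have := one_div_ne_zero (hpos s)
  exact_mod_cast this

lemma continuous_cal : Continuous cal := by
  have := continuous_ex
  unfold cal; fun_prop

lemma continuous_cbe : Continuous cbe := by
  have := continuous_ex
  unfold cbe; fun_prop

lemma continuous_Xc {c : ℝ → ℂ} (hc : Continuous c) (hadm : ∀ s, Adm (c s)) :
    Continuous fun s => Xc (c s) := by
  have hpos : ∀ s, (c s).re ≠ 0 := fun s => by linarith [(hadm s).1]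
  unfold Xc
  refine (PiLp.continuous_toLp 2 _).comp ?_
  refine continuous_pi fun i => ?_
  fin_cases i
  · exact continuous_const.div (continuous_re.comp hc) hpos
  · exact continuous_const
  · exact (continuous_im.comp hc).div (continuous_re.comp hc) hpos

lemma cal_zero : cal 0 = (3 - I) / 2 := by
  unfold cal kap; rw [ex_zero]; ring

lemma cbe_zero : cbe 0 = (3 - I) / 2 := by
  unfold cbe kap; rw [ex_zero]; ring

lemma cal_one : cal 1 = (3 - I) / 2 := by
  unfold cal kap; rw [ex_one]; ring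

lemma cbe_one : cbe 1 = (3 - I) / 2 := by
  unfold cbe kap; rw [ex_one]; ring

/-- There is no commuting square with the two loops as sides. -/
theorem no_square (f : ℝ × ℝ → ℂ × ℂ) (hf : Continuous f) (hY : ∀ a, f a ∈ Yset)
    (h0 : ∀ s, f (s, 0) = FF (Xc (cal s))) (h1 : ∀ s, f (s, 1) = FF (Xc (cal s)))
    (h2 : ∀ t, f (0, t) = FF (Xc (cbe t))) (h3 : ∀ t, f (1, t) = FF (Xc (cbe t))) : False := by
  have hre : ((3 - I) / 2 : ℂ).re = 3 / 2 := by
    simp
  have hadm : Adm ((3 - I) / 2) := by rw [← cal_zero]; exact adm_al 0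
  set r : ℂ := ((1 / ((3 - I) / 2 : ℂ).re : ℝ) : ℂ) with hr
  have hr0 : r ≠ 0 := by
    rw [hr, hre]; norm_num
  -- the starting point
  set e₀ : ℂ × ℂ := (kap ^ 2 * r ^ 4, kap * r ^ 2 * (-(Real.sqrt 3 : ℂ))) with he₀
  have hstart : pc e₀ = f (0, 0) := by
    rw [h0 0, cal_zero, FF_Xc hadm, ← hr, he₀]
    unfold pc
    refine Prod.ext rfl ?_
    simp only
    have hs3 : ((Real.sqrt 3 : ℝ) : ℂ) * (Real.sqrt 3 : ℂ) = 3 := by
      rw [← Complex.ofReal_mul, sqrt3_sq]; norm_num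
    linear_combination (kap ^ 3 * r ^ 6 * (Real.sqrt 3 : ℂ) / 2) * hs3
  obtain ⟨g, hg, hg0, hlift⟩ := exists_lift f hf hY e₀ hstart
  have hvval : ∀ u : ℂ, vf ((3 - I) / 2) u = u / (kap * r ^ 2) := fun u => rfl
  have hkr : kap * r ^ 2 ≠ 0 := mul_ne_zero kap_ne (pow_ne_zero _ hr0)
  -- bottom
  have hb : g (1, 0) = e₀ := by
    have hc : Continuous fun s : ℝ => vf (cal s) (g (s, 0)).2 :=
      continuous_vf continuous_cal adm_al (by fun_prop)
    have h4 := mono_neg hc (fun s => vf_al (by rw [hlift, h0])) (by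
      rw [cal_zero, hg0, hvval, he₀]
      exact mul_div_cancel_left₀ _ hkr)
    rw [cal_one, hvval] at h4
    have h5 : (g (1, 0)).2 = kap * r ^ 2 * (-(Real.sqrt 3 : ℂ)) := by
      rw [div_eq_iff hkr] at h4
      rw [h4]; ring
    have h6 : (g (1, 0)).1 = kap ^ 2 * r ^ 4 := by
      have := hlift (1, 0)
      rw [h0 1, cal_one, FF_Xc hadm, ← hr] at this
      exact congrArg Prod.fst this
    exact Prod.ext h6 h5
  -- right and left
  have side : ∀ G : ℝ → ℂ × ℂ, Continuous G → G 0 = e₀ → (∀ t, pc (G t) = FF (Xc (cbe t))) →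
      (G 1).2 = 0 := by
    intro G hG hG0 hGl
    have hc : Continuous fun s : ℝ => -vf (cbe s) (G s).2 :=
      (continuous_vf continuous_cbe adm_be (by fun_prop)).neg
    have h4 := mono_pos hc (fun s => vf_be (hGl s)) (by
      rw [cbe_zero, hG0, hvval, he₀]
      change -(kap * r ^ 2 * (-(Real.sqrt 3 : ℂ)) / (kap * r ^ 2)) = _
      rw [mul_div_cancel_left₀ _ hkr, neg_neg])
    rw [cbe_one, hvval] at h4
    have h5 := neg_eq_zero.mp h4
    rcases div_eq_zero_iff.mp h5 with h | h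
    · exact h
    · exact absurd h hkr
  have hR : (g (1, 1)).2 = 0 :=
    side (fun t => g (1, t)) (by fun_prop) hb (fun t => by rw [hlift, h3])
  have hL : (g (0, 1)).2 = 0 :=
    side (fun t => g (0, t)) (by fun_prop) hg0 (fun t => by rw [hlift, h2])
  -- top
  have hc : Continuous fun s : ℝ => vf (cal s) (g (s, 1)).2 :=
    continuous_vf continuous_cal adm_al (by fun_prop)
  have h4 := mono_zero hc (fun s => vf_al (by rw [hlift, h1])) (by
    rw [hL]
    unfold vf; rw [zero_div])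
  rw [hR] at h4
  unfold vf at h4
  rw [zero_div] at h4
  have : (Real.sqrt 3 : ℂ) ≠ 0 := by
    have h5 := one_lt_sqrt3
    have : Real.sqrt 3 ≠ 0 := by linarith
    exact_mod_cast this
  exact this h4.symm

/-- The hexagonal trefoil cannot be carried to the unit circle by a homeomorphism. -/
theorem K0_knotted (h : P3 ≃ₜ P3) : h '' carrier K0 ≠ circleU := by
  intro himg
  have hmem : ∀ x, x ∉ circleU → h.symm x ∉ carrier K0 := by
    intro x hx hk
    apply hx
    rw [← himg]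
    exact ⟨_, hk, h.apply_symm_apply x⟩
  have hmem' : ∀ x, x ∉ carrier K0 → h x ∉ circleU := by
    intro x hx hk
    apply hx
    rw [← himg] at hk
    obtain ⟨y, hy, hyx⟩ := hk
    rwa [← h.injective hyx]
  set F : P3 → ℂ × ℂ := fun x => FF (h.symm x) with hF
  have hFc : Continuous F := continuous_FF.comp h.symm.continuous
  have hFY : ∀ x, x ∉ circleU → F x ∈ Yset := fun x hx => FF_mem (hmem x hx)
  obtain ⟨M, hM⟩ : ∃ M : ℝ, ∀ y, M < ‖y‖ → F y = (0, -1) := by
    have hcomp : IsCompact (h '' Metric.closedBall (0 : P3) 36) :=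
      (isCompact_closedBall _ _).image h.continuous
    obtain ⟨M, hM⟩ := hcomp.isBounded.exists_norm_le
    refine ⟨M, fun y hy => ?_⟩
    apply FF_far'
    by_contra hc
    push Not at hc
    have : y ∈ h '' Metric.closedBall (0 : P3) 36 :=
      ⟨h.symm y, by simpa using hc, h.apply_symm_apply y⟩
    have := hM y this
    linarith
  have hFx := Fx_continuousOn hFc hM
  set a : ℝ → ℂ × ℂ := fun s => Ps (h (Xc (cal s))) with ha
  set b : ℝ → ℂ × ℂ := fun s => Ps (h (Xc (cbe s))) with hb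
  have ham : ∀ s, h (Xc (cal s)) ∉ circleU := fun s => hmem' _ (al_not_mem s)
  have hbm : ∀ s, h (Xc (cbe s)) ∉ circleU := fun s => hmem' _ (be_not_mem s)
  have hac : Continuous a := by
    refine continuousOn_Ps.comp_continuous ?_ ham
    exact h.continuous.comp (continuous_Xc continuous_cal adm_al)
  have hbc : Continuous b := by
    refine continuousOn_Ps.comp_continuous ?_ hbm
    exact h.continuous.comp (continuous_Xc continuous_cbe adm_be)
  have han : ∀ s, ‖(a s).1‖ = 1 := fun s => Ps_norm (ham s)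
  have hbn : ∀ s, ‖(b s).1‖ = 1 := fun s => Ps_norm (hbm s)
  have ha0 : a 0 = b 0 := by simp only [ha, hb, cal_zero, cbe_zero]
  have ha1 : a 1 = a 0 := by simp only [ha, cal_zero, cal_one]
  have hb1 : b 1 = a 0 := by simp only [ha, hb, cal_zero, cbe_one]
  set g0 := a 0 with hg0
  have hg0n : ‖g0.1‖ = 1 := han 0
  have hg0c : g0.1 * (starRingEnd ℂ) g0.1 = 1 := by
    rw [Complex.mul_conj, Complex.normSq_eq_norm_sq, hg0n]; norm_num
  set Φ : ℝ × ℝ → ℂ × ℂ := fun z =>
    ((a z.1).1 * (b z.2).1 * (starRingEnd ℂ) g0.1, (a z.1).2 + (b z.2).2 - g0.2) with hΦ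
  have hΦc : Continuous Φ := by
    simp only [hΦ]
    fun_prop
  have hΦn : ∀ z, ‖(Φ z).1‖ = 1 := by
    intro z
    simp only [hΦ, norm_mul, han, hbn, RCLike.norm_conj, hg0n, mul_one]
  have hfc : Continuous fun z => Fx F (Φ z) := hFx.comp_continuous hΦc hΦn
  have hΦ0 : ∀ s, Φ (s, 0) = a s := by
    intro s
    simp only [hΦ]
    rw [← ha0]
    refine Prod.ext ?_ ?_
    · simp only; rw [mul_assoc, hg0c, mul_one]
    · simp only; ring
  have hΦ1 : ∀ s, Φ (s, 1) = a s := by
    intro s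
    simp only [hΦ]
    rw [hb1]
    refine Prod.ext ?_ ?_
    · simp only; rw [mul_assoc, hg0c, mul_one]
    · simp only; ring
  have hΦ2 : ∀ t, Φ (0, t) = b t := by
    intro t
    simp only [hΦ]
    rw [← hg0]
    refine Prod.ext ?_ ?_
    · simp only; linear_combination (b t).1 * hg0c
    · simp only; ring
  have hΦ3 : ∀ t, Φ (1, t) = b t := by
    intro t
    simp only [hΦ]
    rw [ha1]
    refine Prod.ext ?_ ?_
    · simp only; linear_combination (b t).1 * hg0c
    · simp only; ring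
  have hvala : ∀ s, Fx F (a s) = FF (Xc (cal s)) := by
    intro s
    rw [ha, Fx_Ps (ham s), hF]
    simp
  have hvalb : ∀ s, Fx F (b s) = FF (Xc (cbe s)) := by
    intro s
    rw [hb, Fx_Ps (hbm s), hF]
    simp
  exact no_square (fun z => Fx F (Φ z)) hfc (fun z => Fx_mem hFY (hΦn z))
    (fun s => by rw [hΦ0, hvala]) (fun s => by rw [hΦ1, hvala])
    (fun t => by rw [hΦ2, hvalb]) (fun t => by rw [hΦ3, hvalb])

end MP6bf31b
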