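import Mathlib

/-!
# Linear algebra: no proper stress of small rank on the hexagon
-/

namespace MP6bf31b

open Matrix

/-- A symmetric matrix of rank at most one has vanishing `2 × 2` minors. -/
lemma minors_of_ker {n : ℕ} (M : Matrix (Fin (n + 1)) (Fin (n + 1)) ℝ) (hsym : ∀ i j, M i j = M j i)
    (hker : n ≤ Module.finrank ℝ (LinearMap.ker M.mulVecLin)) (i j k l : Fin (n + 1)) :
    M i j * M k l = M i k * M j l := by
  have hr : Module.finrank ℝ (LinearMap.range M.mulVecLin) ≤ 1 := by
    have := LinearMap.finrank_range_add_finrank_ker M.mulVecLin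
    simp only [Module.finrank_fin_fun] at this
    omega
  obtain ⟨v, hv⟩ := finrank_le_one_iff.mp hr
  have hcol : ∀ j, ∃ c : ℝ, ∀ i, M i j = c * (v : Fin (n + 1) → ℝ) i := by
    intro j
    obtain ⟨c, hc⟩ := hv ⟨M.mulVecLin (Pi.single j 1), LinearMap.mem_range_self _ _⟩
    refine ⟨c, fun i => ?_⟩
    have h2 := congrArg (fun z : LinearMap.range M.mulVecLin => (z : Fin (n + 1) → ℝ) i) hc
    simp at h2
    simpa using h2.symm
  choose c hc using hcol
  rw [hsym i j, hsym i k]
  rw [hc i j, hc l k, hc i k, hc l j]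
  ring

/-- The sign pattern of the stress matrix: entries belonging to non-adjacent vertices of the
hexagon are positive. -/
structure Proper (a : Matrix (Fin 6) (Fin 6) ℝ) : Prop where
  sym : ∀ i j, a i j = a j i
  row : ∀ i, a i 0 + a i 1 + a i 2 + a i 3 + a i 4 + a i 5 = 0
  p02 : 0 < a 0 2
  p04 : 0 < a 0 4
  p24 : 0 < a 2 4
  p13 : 0 < a 1 3
  p15 : 0 < a 1 5
  p35 : 0 < a 3 5
  p03 : 0 < a 0 3
  p14 : 0 < a 1 4
  p25 : 0 < a 2 5

/-- First contradiction: rank at most one. -/
lemma Proper.false_of_rank_one {a : Matrix (Fin 6) (Fin 6) ℝ} (h : Proper a)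
    (hm : ∀ i j k l, a i j * a k l = a i k * a j l) : False := by
  obtain ⟨sym, row, p02, p04, p24, p13, p15, p35, p03, p14, p25⟩ := h
  -- a00 > 0
  have h00 : 0 < a 0 0 := by
    have e := hm 0 0 2 4
    have : 0 < a 0 0 * a 2 4 := by rw [e]; positivity
    exact (pos_iff_pos_of_mul_pos this).mpr p24
  have h33 : 0 < a 3 3 := by
    have e := hm 3 3 1 5
    rw [sym 3 1] at e
    have : 0 < a 3 3 * a 1 5 := by rw [e]; positivity
    exact (pos_iff_pos_of_mul_pos this).mpr p15
  have h01 : 0 < a 0 1 := by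
    have e := hm 0 1 3 3
    have : 0 < a 0 1 * a 3 3 := by rw [e]; positivity
    exact (pos_iff_pos_of_mul_pos this).mpr h33
  have h05 : 0 < a 0 5 := by
    have e := hm 0 5 3 3
    rw [sym 5 3] at e
    have : 0 < a 0 5 * a 3 3 := by rw [e]; positivity
    exact (pos_iff_pos_of_mul_pos this).mpr h33
  have := row 0
  linarith

/-- Second contradiction: positive semidefinite and, after removing the even vertices, rank at
most one. -/
lemma Proper.false_of_rank_two {a : Matrix (Fin 6) (Fin 6) ℝ} (h : Proper a)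
    (hpsd : ∀ y : Fin 6 → ℝ, 0 ≤ y ⬝ᵥ a *ᵥ y)
    (hker : 4 ≤ Module.finrank ℝ (LinearMap.ker a.mulVecLin)) : False := by
  obtain ⟨sym, row, p02, p04, p24, p13, p15, p35, p03, p14, p25⟩ := h
  have hdiag : ∀ i, 0 ≤ a i i := by
    intro i
    have := hpsd (Pi.single i 1)
    simpa [Matrix.mulVec_single, Pi.single_apply, dotProduct] using this
  -- the indicator of the even vertices
  set o : Fin 6 → ℝ := ![1, 0, 1, 0, 1, 0] with ho
  set r : Fin 6 → ℝ := fun i => a i 0 + a i 2 + a i 4 with hr
  have hao : a *ᵥ o = r := by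
    ext i
    simp [Matrix.mulVec, dotProduct, Fin.sum_univ_six, ho, hr]
  set c : ℝ := r 0 + r 2 + r 4 with hc
  have r0 : 0 < r 0 := by have := hdiag 0; simp only [hr]; linarith
  have r2 : 0 < r 2 := by have := hdiag 2; simp only [hr]; rw [sym 2 0]; linarith
  have r4 : 0 < r 4 := by have := hdiag 4; simp only [hr]; rw [sym 4 0, sym 4 2]; linarith
  have r1 : r 1 < 0 := by have := hdiag 1; have := row 1; simp only [hr]; linarith
  have r3 : r 3 < 0 := by
    have := hdiag 3; have := row 3; simp only [hr]; rw [sym 3 1] at this; linarith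
  have r5 : r 5 < 0 := by
    have := hdiag 5; have := row 5; simp only [hr]; rw [sym 5 1, sym 5 3] at this; linarith
  have hcpos : 0 < c := by simp only [hc]; linarith
  -- the reduced matrix
  set M : Matrix (Fin 6) (Fin 6) ℝ := fun i j => c * a i j - r i * r j with hM
  have hMsym : ∀ i j, M i j = M j i := by
    intro i j; simp only [hM]; rw [sym i j]; ring
  have hMvec : ∀ y : Fin 6 → ℝ, M *ᵥ y = c • (a *ᵥ y) - (r ⬝ᵥ y) • r := by
    intro y
    ext i
    simp only [Matrix.mulVec, dotProduct, hM, Pi.sub_apply, Pi.smul_apply, smul_eq_mul,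
      Finset.mul_sum, Finset.sum_mul]
    rw [← Finset.sum_sub_distrib]
    refine Finset.sum_congr rfl fun j _ => ?_
    ring
  have hry : ∀ y : Fin 6 → ℝ, a *ᵥ y = 0 → r ⬝ᵥ y = 0 := by
    intro y hy
    rw [← hao]
    have : (a *ᵥ o) ⬝ᵥ y = o ⬝ᵥ (a *ᵥ y) := by
      simp only [Matrix.mulVec, dotProduct, Fin.sum_univ_six]
      rw [sym 1 0, sym 2 0, sym 3 0, sym 4 0, sym 5 0, sym 2 1, sym 3 1, sym 4 1, sym 5 1,
        sym 3 2, sym 4 2, sym 5 2, sym 4 3, sym 5 3, sym 5 4]
      ring
    rw [this, hy]
    simp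
  have hMo : M *ᵥ o = 0 := by
    rw [hMvec, hao]
    have : r ⬝ᵥ o = c := by
      simp [dotProduct, Fin.sum_univ_six, ho, hc]
    rw [this]
    simp
  -- the kernel of `M` is large
  have hMker : 5 ≤ Module.finrank ℝ (LinearMap.ker M.mulVecLin) := by
    have hle : LinearMap.ker a.mulVecLin ⊔ Submodule.span ℝ {o} ≤ LinearMap.ker M.mulVecLin := by
      refine sup_le ?_ ?_
      · intro y hy
        rw [LinearMap.mem_ker, Matrix.mulVecLin_apply] at hy ⊢
        rw [hMvec, hy, hry y hy]
        simp
      · rw [Submodule.span_singleton_le_iff_mem, LinearMap.mem_ker, Matrix.mulVecLin_apply]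
        exact hMo
    have honot : o ∉ LinearMap.ker a.mulVecLin := by
      intro hmem
      rw [LinearMap.mem_ker, Matrix.mulVecLin_apply, hao] at hmem
      have := congrFun hmem 0
      simp only [Pi.zero_apply] at this
      linarith
    have hlt : LinearMap.ker a.mulVecLin < LinearMap.ker a.mulVecLin ⊔ Submodule.span ℝ {o} := by
      refine lt_of_le_of_ne le_sup_left ?_
      intro heq
      apply honot
      rw [heq]
      exact Submodule.mem_sup_right (Submodule.mem_span_singleton_self o)
    have h1 := Submodule.finrank_lt_finrank_of_lt hlt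
    have h2 := Submodule.finrank_mono hle
    omega
  have hm := fun i j k l => minors_of_ker (n := 5) M hMsym hMker i j k l
  -- Cauchy-Schwarz for the diagonal of `M`
  have hM00 : 0 ≤ M 0 0 := by
    -- quadratic form at `y = c e_0 - r_0 o`
    have h := hpsd (c • Pi.single 0 1 - r 0 • o)
    have hexp : (c • Pi.single 0 1 - r 0 • o) ⬝ᵥ a *ᵥ (c • Pi.single (0 : Fin 6) (1 : ℝ) - r 0 • o)
        = c * M 0 0 := by
      rw [Matrix.mulVec_sub, Matrix.mulVec_smul, Matrix.mulVec_smul, hao]
      simp only [hM, hc, dotProduct, Matrix.mulVec, Fin.sum_univ_six, Pi.sub_apply, Pi.smul_apply,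
        smul_eq_mul, ho, hr, Pi.single_apply]
      simp
      rw [sym 2 0, sym 4 0, sym 4 2]
      ring
    rw [hexp] at h
    exact (mul_nonneg_iff_of_pos_left hcpos).mp h
  have m03 : 0 < M 0 3 := by
    have : r 0 * r 3 < 0 := mul_neg_of_pos_of_neg r0 r3
    have : 0 < c * a 0 3 := by positivity
    simp only [hM]; linarith
  have m03' : r 0 * (-r 3) < M 0 3 := by
    have : 0 < c * a 0 3 := by positivity
    simp only [hM]; linarith
  have m25' : r 2 * (-r 5) < M 2 5 := by
    have : 0 < c * a 2 5 := by positivity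
    simp only [hM]; linarith
  have m14' : r 4 * (-r 1) < M 1 4 := by
    have : 0 < c * a 1 4 := by positivity
    simp only [hM]; linarith
  have m00 : 0 < M 0 0 := by
    rcases hM00.lt_or_eq with h | h
    · exact h
    · exfalso
      have e := hm 0 0 3 3
      rw [← h, zero_mul] at e
      have : 0 < M 0 3 * M 0 3 := by positivity
      linarith
  have hsum : M 0 0 + M 0 2 + M 0 4 = 0 := by
    have := congrFun hMo 0
    simpa [Matrix.mulVec, dotProduct, Fin.sum_univ_six, ho] using this
  have hr0n3 : 0 < r 0 * (-r 3) := by have : 0 < -r 3 := by linarith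
                                      positivity
  rcases lt_or_ge (M 0 2) 0 with hneg | hnn
  · -- partners 0 ↔ 3, 2 ↔ 5
    have e := hm 0 3 2 5
    have hp : 0 < M 0 3 * M 2 5 := by
      have : 0 < -r 5 := by linarith
      have : 0 < M 2 5 := lt_trans (by positivity) m25'
      positivity
    have h35 : M 3 5 < 0 := by
      rw [e] at hp
      by_contra hcon
      push Not at hcon
      have := mul_nonpos_of_nonpos_of_nonneg hneg.le hcon
      linarith
    have b1 : -M 0 2 < r 0 * r 2 := by
      have : 0 < c * a 0 2 := by positivity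
      simp only [hM]; linarith
    have b2 : -M 3 5 < r 3 * r 5 := by
      have : 0 < c * a 3 5 := by positivity
      simp only [hM]; linarith
    have c1 : (-M 0 2) * (-M 3 5) < (r 0 * r 2) * (r 3 * r 5) :=
      mul_lt_mul'' b1 b2 (by linarith) (by linarith)
    have hr2n5 : 0 < r 2 * (-r 5) := by have : 0 < -r 5 := by linarith
                                        positivity
    have c2 : (r 0 * (-r 3)) * (r 2 * (-r 5)) < M 0 3 * M 2 5 :=
      mul_lt_mul'' m03' m25' hr0n3.le hr2n5.le
    have d1 : (r 0 * (-r 3)) * (r 2 * (-r 5)) = (r 0 * r 2) * (r 3 * r 5) := by ring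
    have d2 : (-M 0 2) * (-M 3 5) = M 0 2 * M 3 5 := by ring
    rw [d1] at c2
    rw [d2] at c1
    linarith
  · -- partners 0 ↔ 3, 4 ↔ 1
    have hneg : M 0 4 < 0 := by linarith
    have e := hm 0 3 4 1
    rw [hMsym 4 1] at e
    have hp : 0 < M 0 3 * M 1 4 := by
      have : 0 < -r 1 := by linarith
      have : 0 < M 1 4 := lt_trans (by positivity) m14'
      positivity
    have h31 : M 3 1 < 0 := by
      rw [e] at hp
      by_contra hcon
      push Not at hcon
      have := mul_nonpos_of_nonpos_of_nonneg hneg.le hcon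
      linarith
    have b1 : -M 0 4 < r 0 * r 4 := by
      have : 0 < c * a 0 4 := by positivity
      simp only [hM]; linarith
    have b2 : -M 3 1 < r 3 * r 1 := by
      have : 0 < c * a 1 3 := by positivity
      simp only [hM]; rw [sym 3 1]; linarith
    have c1 : (-M 0 4) * (-M 3 1) < (r 0 * r 4) * (r 3 * r 1) :=
      mul_lt_mul'' b1 b2 (by linarith) (by linarith)
    have hr4n1 : 0 < r 4 * (-r 1) := by have : 0 < -r 1 := by linarith
                                        positivity
    have c2 : (r 0 * (-r 3)) * (r 4 * (-r 1)) < M 0 3 * M 1 4 :=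
      mul_lt_mul'' m03' m14' hr0n3.le hr4n1.le
    have d1 : (r 0 * (-r 3)) * (r 4 * (-r 1)) = (r 0 * r 4) * (r 3 * r 1) := by ring
    have d2 : (-M 0 4) * (-M 3 1) = M 0 4 * M 3 1 := by ring
    rw [d1] at c2
    rw [d2] at c1
    linarith

end MP6bf31b
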