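import Pool.Agent.Lib.MP_6bf31b_an.Stress

/-!
# Necessary conditions at a local minimum
-/

namespace MP6bf31b

open Matrix Filter Topology
open scoped RealInnerProductSpace

/-- `p` is a local minimum of the energy among all hexagons. -/
def IsLocMin (p : Fin 6 → P3) : Prop :=
  ∃ ε > 0, ∀ q : Fin 6 → P3, (∀ i, dist (q i) (p i) < ε) → energy p ≤ energy q

/-- Matrix of mutual distances. -/
noncomputable def dm (p : Fin 6 → P3) : Fin 6 → Fin 6 → ℝ := fun i j => dist (p i) (p j)

lemma dm_symm (p : Fin 6 → P3) (i j : Fin 6) : dm p i j = dm p j i := dist_comm _ _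

lemma dm_pos {p : Fin 6 → P3} (hp : Function.Injective p) {i j : Fin 6} (h : i ≠ j) :
    0 < dm p i j := dist_pos.mpr (hp.ne h)

lemma eventually_le {p : Fin 6 → P3} (hp : Function.Injective p) (hmin : IsLocMin p) {S : Set ℝ}
    {q : ℝ → Fin 6 → P3} (q0 : q 0 = p) (hq : ∀ i, ContinuousWithinAt (fun t => q t i) S 0) :
    ∀ᶠ t in 𝓝[S] 0, E9 (dm p) ≤ E9 (dm (q t)) := by
  obtain ⟨ε, hε, hmin⟩ := hmin
  have h1 : ∀ᶠ t in 𝓝[S] 0, ∀ i, dist (q t i) (p i) < ε := by
    rw [Filter.eventually_all]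
    intro i
    have := (hq i).tendsto
    simp only [q0] at this
    exact this.eventually (Metric.ball_mem_nhds _ hε)
  have h2 : ∀ᶠ t in 𝓝[S] 0, ∀ i j, i ≠ j → q t i ≠ q t j := by
    rw [Filter.eventually_all]
    intro i
    rw [Filter.eventually_all]
    intro j
    by_cases hij : i = j
    · exact Filter.Eventually.of_forall fun t h => absurd hij h
    · have hi := (hq i).tendsto
      have hj := (hq j).tendsto
      simp only [q0] at hi hj
      filter_upwards [(hi.sub hj).eventually_ne (sub_ne_zero.mpr (hp.ne hij))] with t ht _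
      exact sub_ne_zero.mp ht
  filter_upwards [h1, h2] with t ht1 ht2
  have hinj : Function.Injective (q t) := by
    intro i j hij
    by_contra hne
    exact ht2 i j hne hij
  have := hmin (q t) ht1
  rwa [energy_eq p hp, energy_eq (q t) hinj] at this

/-- Derivative of a distance given by its square. -/
lemma hasDerivWithinAt_sqrt {S : Set ℝ} {t : ℝ} {s : ℝ → ℝ} {s' D : ℝ} (hD : 0 < D)
    (hs : s t = D ^ 2) (h : HasDerivWithinAt s s' S t) :
    HasDerivWithinAt (fun τ => √(s τ)) (D * (s' / (2 * D ^ 2))) S t := by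
  have := h.sqrt (by rw [hs]; positivity)
  convert! this using 1
  rw [hs, Real.sqrt_sq hD.le]
  field_simp

/-- First order condition. -/
lemma crit {p : Fin 6 → P3} (hp : Function.Injective p) (hmin : IsLocMin p) (e : P3)
    (y : Fin 6 → ℝ) : y ⬝ᵥ stress (dm p) *ᵥ (fun i => ⟪p i, e⟫) = 0 := by
  set q : ℝ → Fin 6 → P3 := fun t i => p i + (t * y i) • e with hqdef
  have q0 : q 0 = p := by ext i; simp [hqdef]
  have hcont : ∀ i, ContinuousWithinAt (fun t => q t i) Set.univ 0 := by
    intro i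
    simp only [hqdef]
    fun_prop
  have hle := eventually_le hp hmin q0 hcont
  rw [nhdsWithin_univ] at hle
  have hder : ∀ i j, i ≠ j → HasDerivWithinAt (fun t => dm (q t) i j)
      (dm (q 0) i j * ((y i - y j) * (⟪p i, e⟫ - ⟪p j, e⟫) / dm (q 0) i j ^ 2)) Set.univ 0 := by
    intro i j hij
    have hD := dm_pos hp hij
    rw [q0]
    have hsq : ∀ t, dm (q t) i j = √(dm p i j ^ 2 +
        2 * t * ((y i - y j) * (⟪p i, e⟫ - ⟪p j, e⟫)) + t ^ 2 * ((y i - y j) ^ 2 * ‖e‖ ^ 2)) := by
      intro t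
      rw [eq_comm, Real.sqrt_eq_iff_eq_sq]
      · simp only [dm, hqdef, dist_eq_norm]
        have : p i + (t * y i) • e - (p j + (t * y j) • e) =
            (p i - p j) + (t * (y i - y j)) • e := by
          module
        rw [this, norm_add_sq_real, norm_smul, inner_smul_right, inner_sub_left,
          Real.norm_eq_abs, mul_pow, sq_abs]
        ring
      · have : dm p i j ^ 2 + 2 * t * ((y i - y j) * (⟪p i, e⟫ - ⟪p j, e⟫)) +
            t ^ 2 * ((y i - y j) ^ 2 * ‖e‖ ^ 2) = ‖(p i - p j) + (t * (y i - y j)) • e‖ ^ 2 := by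
          rw [norm_add_sq_real, norm_smul, inner_smul_right, inner_sub_left,
            Real.norm_eq_abs, mul_pow, sq_abs]
          simp only [dm, dist_eq_norm]
          ring
        rw [this]; positivity
      · exact dist_nonneg
    simp_rw [hsq]
    have hlin : HasDerivWithinAt (fun t : ℝ => dm p i j ^ 2 +
        2 * t * ((y i - y j) * (⟪p i, e⟫ - ⟪p j, e⟫)) + t ^ 2 * ((y i - y j) ^ 2 * ‖e‖ ^ 2))
        (2 * ((y i - y j) * (⟪p i, e⟫ - ⟪p j, e⟫))) Set.univ 0 := by
      have h1 : HasDerivAt (fun t : ℝ => dm p i j ^ 2 +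
        2 * t * ((y i - y j) * (⟪p i, e⟫ - ⟪p j, e⟫)) + t ^ 2 * ((y i - y j) ^ 2 * ‖e‖ ^ 2))
        ((0 + 2 * 1 * ((y i - y j) * (⟪p i, e⟫ - ⟪p j, e⟫))) +
          (2 * (0 : ℝ) ^ 1 * 1) * ((y i - y j) ^ 2 * ‖e‖ ^ 2)) 0 := by
        refine HasDerivAt.fun_add (HasDerivAt.fun_add (hasDerivAt_const _ _) ?_) ?_
        · exact ((hasDerivAt_id _).const_mul 2).mul_const _
        · exact (((hasDerivAt_id (0 : ℝ)).pow 2).mul_const _)
      convert! h1.hasDerivWithinAt using 1
      ring
    have := hasDerivWithinAt_sqrt hD (by ring) hlin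
    convert! this using 1
    field_simp
  have hpos : ∀ i j, i ≠ j → 0 < dm (q 0) i j := by
    intro i j hij; rw [q0]; exact dm_pos hp hij
  have hE := hasDerivWithinAt_E9 (d := fun t => dm (q t)) hpos hder
  rw [hasDerivWithinAt_univ] at hE
  have hloc : IsLocalMin (fun t => E9 (dm (q t))) 0 := by
    filter_upwards [hle] with t ht
    rw [q0]
    exact ht
  have hz := hloc.hasDerivAt_eq_zero hE
  have hL := L9_eq (d := dm (q 0)) (dm_symm _) y (fun i => ⟪p i, e⟫)
  rw [hL] at hz
  rw [q0] at hz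
  linarith

/-- One-sided first order condition. -/
lemma deriv_nonneg_of_eventually {f : ℝ → ℝ} {f' : ℝ} (h : HasDerivWithinAt f f' (Set.Ici 0) 0)
    (hle : ∀ᶠ t in 𝓝[Set.Ici 0] 0, f 0 ≤ f t) : 0 ≤ f' := by
  have h1 : HasDerivWithinAt f f' (Set.Ioi 0) 0 := h.mono Set.Ioi_subset_Ici_self
  rw [hasDerivWithinAt_iff_tendsto_slope' (by simp)] at h1
  refine ge_of_tendsto h1 ?_
  have hle' : ∀ᶠ t in 𝓝[Set.Ioi 0] 0, f 0 ≤ f t :=
    hle.filter_mono (nhdsWithin_mono _ Set.Ioi_subset_Ici_self)
  filter_upwards [hle', self_mem_nhdsWithin] with t ht ht0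
  rw [slope_def_field]
  have : (0 : ℝ) < t := ht0
  apply div_nonneg <;> linarith

/-- Second order condition in a plane. -/
lemma second_plane {p : Fin 6 → P3} (hp : Function.Injective p) (hmin : IsLocMin p) (e : P3)
    (he : ‖e‖ = 1) (h : ∀ i j, ⟪p i, e⟫ = ⟪p j, e⟫) (y : Fin 6 → ℝ) :
    0 ≤ y ⬝ᵥ stress (dm p) *ᵥ y := by
  set q : ℝ → Fin 6 → P3 := fun t i => p i + (√t * y i) • e with hqdef
  have q0 : q 0 = p := by ext i; simp [hqdef]
  have hcont : ∀ i, ContinuousWithinAt (fun t => q t i) (Set.Ici 0) 0 := by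
    intro i
    simp only [hqdef]
    fun_prop
  have hle := eventually_le hp hmin q0 hcont
  have hder : ∀ i j, i ≠ j → HasDerivWithinAt (fun t => dm (q t) i j)
      (dm (q 0) i j * ((y i - y j) * (y i - y j) / dm (q 0) i j ^ 2 / 2)) (Set.Ici 0) 0 := by
    intro i j hij
    have hD := dm_pos hp hij
    rw [q0]
    have hsq : ∀ t ∈ Set.Ici (0 : ℝ), dm (q t) i j = √(dm p i j ^ 2 + t * (y i - y j) ^ 2) := by
      intro t ht
      have ht' : 0 ≤ t := ht
      rw [eq_comm, Real.sqrt_eq_iff_eq_sq]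
      · simp only [dm, hqdef, dist_eq_norm]
        have : p i + (√t * y i) • e - (p j + (√t * y j) • e) =
            (p i - p j) + (√t * (y i - y j)) • e := by
          module
        rw [this, norm_add_sq_real, norm_smul, inner_smul_right, inner_sub_left, h i j, he,
          Real.norm_eq_abs, mul_pow, sq_abs, mul_pow, Real.sq_sqrt ht']
        ring
      · positivity
      · exact dist_nonneg
    have hlin : HasDerivWithinAt (fun t : ℝ => dm p i j ^ 2 + t * (y i - y j) ^ 2)
        ((y i - y j) ^ 2) (Set.Ici 0) 0 := by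
      have h1 : HasDerivAt (fun t : ℝ => dm p i j ^ 2 + t * (y i - y j) ^ 2)
        (0 + 1 * (y i - y j) ^ 2) 0 :=
        HasDerivAt.fun_add (hasDerivAt_const _ _) ((hasDerivAt_id _).mul_const _)
      convert! h1.hasDerivWithinAt using 1
      ring
    have h2 := hasDerivWithinAt_sqrt hD (by ring) hlin
    have h3 := h2.congr hsq (hsq 0 (by simp))
    convert! h3 using 1
    ring
  have hpos : ∀ i j, i ≠ j → 0 < dm (q 0) i j := by
    intro i j hij; rw [q0]; exact dm_pos hp hij
  have hE := hasDerivWithinAt_E9 (d := fun t => dm (q t)) hpos hder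
  have hnn := deriv_nonneg_of_eventually hE (by rw [q0]; exact hle)
  have hL := L9_eq (d := dm (q 0)) (dm_symm _) y y
  have hlin : L9 (dm (q 0)) (fun i j => (y i - y j) * (y i - y j) / dm (q 0) i j ^ 2 / 2) =
      L9 (dm (q 0)) (fun i j => (y i - y j) * (y i - y j) / dm (q 0) i j ^ 2) / 2 := by
    unfold L9 Lc
    ring
  rw [hlin, hL, q0] at hnn
  linarith

/-- Second order condition on a sphere. -/
lemma second_sphere {p : Fin 6 → P3} (hp : Function.Injective p) (hmin : IsLocMin p) (c : P3)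
    (R : ℝ) (hR : 0 < R) (h : ∀ i, dist (p i) c = R) (y : Fin 6 → ℝ) :
    0 ≤ y ⬝ᵥ stress (dm p) *ᵥ y := by
  set r : ℝ → Fin 6 → ℝ := fun t i => 1 + √t * y i with hr
  set q : ℝ → Fin 6 → P3 := fun t i => c + r t i • (p i - c) with hqdef
  have q0 : q 0 = p := by ext i; simp [hqdef, hr]
  have hrc : ∀ i, Continuous (fun t => r t i) := by
    intro i; simp only [hr]; fun_prop
  have hcont : ∀ i, ContinuousWithinAt (fun t => q t i) (Set.Ici 0) 0 := by
    intro i
    simp only [hqdef]
    exact (continuous_const.add ((hrc i).smul continuous_const)).continuousWithinAt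
  have hle := eventually_le hp hmin q0 hcont
  -- positivity of the radii
  have hrpos : ∀ᶠ t in 𝓝[Set.Ici 0] (0 : ℝ), ∀ i, 0 < r t i := by
    rw [Filter.eventually_all]
    intro i
    have : Tendsto (fun t => r t i) (𝓝[Set.Ici 0] 0) (𝓝 (r 0 i)) :=
      (hrc i).continuousWithinAt.tendsto
    refine this.eventually (lt_mem_nhds ?_)
    simp [hr]
  -- the rescaled distances
  set k : ℝ → Fin 6 → Fin 6 → ℝ := fun t i j =>
    R ^ 2 * (y i - y j) ^ 2 / (r t i * r t j) with hk
  set dd : ℝ → Fin 6 → Fin 6 → ℝ := fun t i j => √(dm p i j ^ 2 + t * k t i j) with hdd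
  have hdist : ∀ t, 0 ≤ t → (∀ i, 0 < r t i) → ∀ i j,
      dm (q t) i j = √(r t i) * √(r t j) * dd t i j := by
    intro t ht hpos i j
    have hi := hpos i
    have hj := hpos j
    have hni : ‖p i - c‖ = R := by rw [← dist_eq_norm]; exact h i
    have hnj : ‖p j - c‖ = R := by rw [← dist_eq_norm]; exact h j
    have hsub : ‖p i - p j‖ ^ 2 = R ^ 2 - 2 * ⟪p i - c, p j - c⟫ + R ^ 2 := by
      have : p i - p j = (p i - c) - (p j - c) := by abel
      rw [this, norm_sub_sq_real, hni, hnj]
    rw [hdd, ← Real.sqrt_mul hi.le, ← Real.sqrt_mul (by positivity), eq_comm,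
      Real.sqrt_eq_iff_eq_sq]
    · simp only [dm, hqdef, dist_eq_norm, hk]
      have e1 : c + r t i • (p i - c) - (c + r t j • (p j - c)) =
          r t i • (p i - c) - r t j • (p j - c) := by abel
      rw [e1, hsub, norm_sub_sq_real (r t i • (p i - c)), norm_smul, norm_smul, inner_smul_left,
        inner_smul_right, hni, hnj, Real.norm_eq_abs, Real.norm_eq_abs, abs_of_pos hi,
        abs_of_pos hj]
      simp only [conj_trivial]
      have e2 : (r t i - r t j) ^ 2 = t * (y i - y j) ^ 2 := by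
        have : r t i - r t j = √t * (y i - y j) := by simp only [hr]; ring
        rw [this, mul_pow, Real.sq_sqrt ht]
      field_simp
      linear_combination (-R ^ 2) * e2
    · have : 0 ≤ k t i j := by simp only [hk]; positivity
      positivity
    · exact dist_nonneg
  have hEeq : ∀ t, 0 ≤ t → (∀ i, 0 < r t i) → E9 (dm (q t)) = E9 (dd t) := by
    intro t ht hpos
    have e1 : dm (q t) = fun i j => √(r t i) * √(r t j) * dd t i j := by
      ext i j; exact hdist t ht hpos i j
    rw [e1]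
    refine E9_scale (fun i j hij => ?_) (fun i => Real.sqrt_pos.mpr (hpos i))
    have hD := dm_pos hp hij
    have hi := hpos i
    have hj := hpos j
    have : 0 ≤ k t i j := by simp only [hk]; positivity
    simp only [hdd]
    positivity
  have hdd0 : dd 0 = dm p := by
    ext i j
    simp only [hdd, zero_mul, add_zero]
    exact Real.sqrt_sq dist_nonneg
  have hder : ∀ i j, i ≠ j → HasDerivWithinAt (fun t => dd t i j)
      (dd 0 i j * (R ^ 2 * ((y i - y j) * (y i - y j) / dd 0 i j ^ 2) / 2)) (Set.Ici 0) 0 := by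
    intro i j hij
    have hD := dm_pos hp hij
    rw [hdd0]
    have hk0 : k 0 i j = R ^ 2 * (y i - y j) ^ 2 := by simp [hk, hr]
    have hkc : Tendsto (fun t => k t i j) (𝓝 0) (𝓝 (k 0 i j)) := by
      have : ContinuousAt (fun t => R ^ 2 * (y i - y j) ^ 2 / (r t i * r t j)) 0 := by
        refine ContinuousAt.div continuousAt_const
          ((hrc i).continuousAt.mul (hrc j).continuousAt) ?_
        simp [hr]
      exact this
    have hlin : HasDerivWithinAt (fun t : ℝ => dm p i j ^ 2 + t * k t i j)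
        (R ^ 2 * (y i - y j) ^ 2) (Set.Ici 0) 0 := by
      have h1 : HasDerivAt (fun t : ℝ => t * k t i j) (k 0 i j) 0 := by
        rw [hasDerivAt_iff_tendsto_slope]
        refine (hkc.mono_left nhdsWithin_le_nhds).congr' ?_
        filter_upwards [self_mem_nhdsWithin] with t ht
        have : t ≠ 0 := ht
        rw [slope_def_field]
        field_simp
        ring
      have h2 := (h1.const_add (dm p i j ^ 2)).hasDerivWithinAt (s := Set.Ici 0)
      rw [hk0] at h2
      exact h2
    have h2 := hasDerivWithinAt_sqrt hD (by ring) hlin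
    convert! h2 using 1
    ring
  have hpos : ∀ i j, i ≠ j → 0 < dd 0 i j := by
    intro i j hij; rw [hdd0]; exact dm_pos hp hij
  have hE := hasDerivWithinAt_E9 (d := dd) hpos hder
  have hle2 : ∀ᶠ t in 𝓝[Set.Ici 0] 0, E9 (dd 0) ≤ E9 (dd t) := by
    filter_upwards [hle, hrpos, self_mem_nhdsWithin] with t ht1 ht2 ht3
    rw [hdd0, ← hEeq t ht3 ht2]
    exact ht1
  have hnn := deriv_nonneg_of_eventually hE hle2
  have hL := L9_eq (d := dd 0) (by rw [hdd0]; exact dm_symm _) y y
  have hlin : L9 (dd 0) (fun i j => R ^ 2 * ((y i - y j) * (y i - y j) / dd 0 i j ^ 2) / 2) =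
      R ^ 2 * L9 (dd 0) (fun i j => (y i - y j) * (y i - y j) / dd 0 i j ^ 2) / 2 := by
    unfold L9 Lc
    ring
  rw [hlin, hL, hdd0] at hnn
  have : 0 ≤ R ^ 2 * (y ⬝ᵥ stress (dm p) *ᵥ y) := by linarith
  exact (mul_nonneg_iff_of_pos_left (by positivity)).mp this

end MP6bf31b
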