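import Pool.Agent.Lib.MP_6bf31b_an.Knotted
import Pool.Agent.Lib.MP_6bf31b_an.EmbK0
import Pool.Agent.Lib.MP_6bf31b_an.Isotopy2

/-!
# No minimisers in knotted hexagonal classes
-/

namespace MP6bf31b

theorem no_minimiser (K : Fin 6 → P3) (hK : ¬ Unknotted K) (p : Fin 6 → P3) (hp : Embedded p)
    (hiso : Isotopic (carrier K) (carrier p)) (ε : ℝ) (hε : 0 < ε) :
    ∃ q : Fin 6 → P3, (∀ i, dist (q i) (p i) < ε) ∧ Embedded q ∧
      Isotopic (carrier K) (carrier q) ∧ energy q < energy p := by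
  obtain ⟨δ, hδ, hnear⟩ := exists_isotopic_near hp
  have hloc : ¬ IsLocMin p := by
    intro hmin
    have h2 := two_le_finrank_ker hp.1 hmin
    obtain ⟨h, hh⟩ := exists_homeo_circleU hp h2
    obtain ⟨H, -, -, hH⟩ := hiso
    apply hK
    refine ⟨(H 1).trans h, ?_⟩
    rw [← hh, ← hH, Set.image_image]
    rfl
  unfold IsLocMin at hloc
  push Not at hloc
  obtain ⟨q, hq, hlt⟩ := hloc (min ε δ) (lt_min hε hδ)
  obtain ⟨hqe, hqi⟩ := hnear q fun i => (hq i).trans_le (min_le_right _ _)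
  exact ⟨q, fun i => (hq i).trans_le (min_le_left _ _), hqe, hiso.trans hqi, hlt⟩

end MP6bf31b
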