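import Pool.Agent.Lib.MP_6bf31b_an.LocalMin

/-!
# A local minimum of the energy of hexagons is concyclic
-/

namespace MP6bf31b

open Matrix
open scoped RealInnerProductSpace

/-- The linear map sending `(γ, β, α)` to the values of `γ + ⟪x, β⟫ + α ‖x‖²` at the vertices. Its
kernel describes the spheres and planes containing all vertices. -/
noncomputable def Phi (p : Fin 6 → P3) : (ℝ × P3 × ℝ) →ₗ[ℝ] (Fin 6 → ℝ) where
  toFun c := fun i => c.1 + ⟪p i, c.2.1⟫ + c.2.2 * ‖p i‖ ^ 2
  map_add' c c' := by
    ext i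
    simp only [Prod.fst_add, Prod.snd_add, inner_add_right, Pi.add_apply]
    ring
  map_smul' r c := by
    ext i
    simp only [Prod.smul_fst, Prod.smul_snd, smul_eq_mul, inner_smul_right, RingHom.id_apply,
      Pi.smul_apply]
    ring

lemma finrank_dom : Module.finrank ℝ (ℝ × P3 × ℝ) = 5 := by
  simp

lemma stress_coord {p : Fin 6 → P3} (hp : Function.Injective p) (hmin : IsLocMin p) (e : P3) :
    stress (dm p) *ᵥ (fun i => ⟪p i, e⟫) = 0 := by
  have h := fun y => crit hp hmin e y
  have h2 := h (stress (dm p) *ᵥ (fun i => ⟪p i, e⟫))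
  exact dotProduct_self_eq_zero.mp h2

lemma stress_const (p : Fin 6 → P3) (c : ℝ) : stress (dm p) *ᵥ (fun _ => c) = 0 := by
  ext i
  simp only [Matrix.mulVec, dotProduct, Fin.sum_univ_six, Pi.zero_apply]
  have := stress_row (d := dm p) i
  linear_combination c * this

lemma stress_sq {p : Fin 6 → P3} (hp : Function.Injective p) (hmin : IsLocMin p) :
    stress (dm p) *ᵥ (fun i => ‖p i‖ ^ 2) = 0 := by
  ext i
  have h1 := congrFun (stress_coord hp hmin (p i)) i
  have h2 := stress_row (d := dm p) i
  have hsq : ∀ j, ‖p j‖ ^ 2 = dm p i j ^ 2 + 2 * ⟪p j, p i⟫ - ‖p i‖ ^ 2 := by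
    intro j
    have : dm p i j = ‖p j - p i‖ := by rw [dm, dist_comm, dist_eq_norm]
    rw [this, norm_sub_sq_real]
    ring
  have h3 : ∀ j, stress (dm p) i j * dm p i j ^ 2 = -psi (dm p) i j := by
    intro j
    by_cases hij : i = j
    · subst hij
      rw [psi_diag]
      simp [dm]
    · unfold stress
      rw [if_neg hij]
      have := dm_pos hp hij
      field_simp
  simp only [Matrix.mulVec, dotProduct, Fin.sum_univ_six, Pi.zero_apply] at h1 ⊢
  rw [hsq 0, hsq 1, hsq 2, hsq 3, hsq 4, hsq 5]
  have h4 := psi_row (dm p) i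
  linear_combination 2 * h1 - ‖p i‖ ^ 2 * h2 + h3 0 + h3 1 + h3 2 + h3 3 + h3 4 + h3 5 - h4

lemma range_le_ker {p : Fin 6 → P3} (hp : Function.Injective p) (hmin : IsLocMin p) :
    LinearMap.range (Phi p) ≤ LinearMap.ker (stress (dm p)).mulVecLin := by
  rintro _ ⟨c, rfl⟩
  rw [LinearMap.mem_ker, Matrix.mulVecLin_apply]
  have e : Phi p c = (fun _ => c.1) + (fun i => ⟪p i, c.2.1⟫) + c.2.2 • (fun i => ‖p i‖ ^ 2) := by
    ext i
    simp [Phi]
  rw [e, Matrix.mulVec_add, Matrix.mulVec_add, Matrix.mulVec_smul, stress_const,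
    stress_coord hp hmin, stress_sq hp hmin]
  simp

lemma proper_stress {p : Fin 6 → P3} (hp : Function.Injective p) : Proper (stress (dm p)) := by
  refine stress_proper (dm_symm p) (fun i j h => dm_pos hp h) ?_
  intro a b c e
  exact EuclideanGeometry.mul_dist_le_mul_dist_add_mul_dist (p a) (p b) (p c) (p e)

/-- If all vertices lie on a common sphere or plane, the stress matrix of a local minimum is
positive semidefinite. -/
lemma psd_of_mem_ker {p : Fin 6 → P3} (hp : Function.Injective p) (hmin : IsLocMin p)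
    {c : ℝ × P3 × ℝ} (hc : c ∈ LinearMap.ker (Phi p)) (hc0 : c ≠ 0) (y : Fin 6 → ℝ) :
    0 ≤ y ⬝ᵥ stress (dm p) *ᵥ y := by
  obtain ⟨γ, β, α⟩ := c
  have hrel : ∀ i, γ + ⟪p i, β⟫ + α * ‖p i‖ ^ 2 = 0 := by
    intro i
    rw [LinearMap.mem_ker] at hc
    exact congrFun hc i
  by_cases hα : α = 0
  · -- plane
    subst hα
    have hβ : β ≠ 0 := by
      rintro rfl
      apply hc0
      have := hrel 0
      simp at this
      simp [this]
    have hn : 0 < ‖β‖ := norm_pos_iff.mpr hβ
    refine second_plane hp hmin (‖β‖⁻¹ • β) ?_ ?_ y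
    · rw [norm_smul, norm_inv, norm_norm, inv_mul_cancel₀ hn.ne']
    · intro i j
      rw [inner_smul_right, inner_smul_right]
      have h1 := hrel i
      have h2 := hrel j
      congr 1
      linarith
  · -- sphere
    set c : P3 := (-(2 * α)⁻¹) • β with hcdef
    have hsq : ∀ i, dist (p i) c ^ 2 = ‖c‖ ^ 2 - γ / α := by
      intro i
      rw [dist_eq_norm, norm_sub_sq_real]
      have : ⟪p i, c⟫ = -(2 * α)⁻¹ * ⟪p i, β⟫ := by
        rw [hcdef, inner_smul_right]
      rw [this]
      have h1 := hrel i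
      field_simp
      linear_combination h1
    have hR : ∀ i, dist (p i) c = √(‖c‖ ^ 2 - γ / α) := by
      intro i
      rw [← hsq i, Real.sqrt_sq dist_nonneg]
    refine second_sphere hp hmin c (√(‖c‖ ^ 2 - γ / α)) ?_ hR y
    rw [← hR 0]
    rcases eq_or_ne (p 0) c with h | h
    · exfalso
      have h0 : √(‖c‖ ^ 2 - γ / α) = 0 := by rw [← hR 0, h, dist_self]
      have h1 := hR 1
      rw [h0] at h1
      have : p 1 = c := dist_eq_zero.mp h1
      exact absurd (hp (h.trans this.symm)) (by decide)
    · exact dist_pos.mpr h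

/-- **Main analytic result.** At a local minimum the space of spheres and planes through all six
vertices is at least two-dimensional, i.e. the vertices lie on a common circle or line. -/
theorem two_le_finrank_ker {p : Fin 6 → P3} (hp : Function.Injective p) (hmin : IsLocMin p) :
    2 ≤ Module.finrank ℝ (LinearMap.ker (Phi p)) := by
  by_contra hlt
  push Not at hlt
  have hsum := LinearMap.finrank_range_add_finrank_ker (Phi p)
  rw [finrank_dom] at hsum
  have hle := Submodule.finrank_mono (range_le_ker hp hmin)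
  have hprop := proper_stress hp
  by_cases h0 : Module.finrank ℝ (LinearMap.ker (Phi p)) = 0
  · -- no common sphere or plane: the stress matrix has rank at most one
    have h5 : 5 ≤ Module.finrank ℝ (LinearMap.ker (stress (dm p)).mulVecLin) := by omega
    exact hprop.false_of_rank_one
      (fun i j k l => minors_of_ker (n := 5) _ hprop.sym h5 i j k l)
  · have hpos : 0 < Module.finrank ℝ (LinearMap.ker (Phi p)) := Nat.pos_of_ne_zero h0
    obtain ⟨c, hc0⟩ := Module.finrank_pos_iff_exists_ne_zero.mp hpos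
    refine hprop.false_of_rank_two (psd_of_mem_ker hp hmin c.2 ?_) (by omega)
    intro h
    exact hc0 (Subtype.ext h)

end MP6bf31b
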