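import Pool.Agent.Lib.MP_6bf31b_an.Isotopy
import Pool.Agent.Lib.MP_6bf31b_an.Fan
import Pool.Agent.Lib.MP_6bf31b_an.Cubic

/-!
# A map from the complement of the hexagonal trefoil to the complement of the discriminant
-/

namespace MP6bf31b

open Complex Set

section edges
variable {x : P3} {s : ℝ} (hs : s ∈ Icc (0 : ℝ) 1)
include hs

lemma mem_K0_0 (h0 : x 0 = 1 - 2 * s) (h1 : x 1 = s) (h2 : x 2 = -1 + 2 * s) :
    x ∈ carrier K0 := by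
  refine mem_iUnion.mpr ⟨0, (mem_edge_iff _ _ _).mpr ⟨s, hs, ?_⟩⟩
  ext i
  fin_cases i <;> simp [K0, AffineMap.lineMap_apply, h0, h1, h2] <;> ring

lemma mem_K0_1 (h0 : x 0 = -1) (h1 : x 1 = 1 - 2 * s) (h2 : x 2 = 1 - 2 * s) :
    x ∈ carrier K0 := by
  refine mem_iUnion.mpr ⟨1, (mem_edge_iff _ _ _).mpr ⟨s, hs, ?_⟩⟩
  have e : (1 : Fin 6) + 1 = 2 := rfl
  ext i
  fin_cases i <;> simp [K0, e, AffineMap.lineMap_apply, h0, h1, h2] <;> ring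

lemma mem_K0_2 (h0 : x 0 = -1 + 3 * s) (h1 : x 1 = -1 + 2 * s) (h2 : x 2 = -1 + 2 * s) :
    x ∈ carrier K0 := by
  refine mem_iUnion.mpr ⟨2, (mem_edge_iff _ _ _).mpr ⟨s, hs, ?_⟩⟩
  have e : (2 : Fin 6) + 1 = 3 := rfl
  ext i
  fin_cases i <;> simp [K0, e, AffineMap.lineMap_apply, h0, h1, h2] <;> ring

lemma mem_K0_3 (h0 : x 0 = 2 - 2 * s) (h1 : x 1 = 1) (h2 : x 2 = 1 - 2 * s) :
    x ∈ carrier K0 := by
  refine mem_iUnion.mpr ⟨3, (mem_edge_iff _ _ _).mpr ⟨s, hs, ?_⟩⟩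
  have e : (3 : Fin 6) + 1 = 4 := rfl
  ext i
  fin_cases i <;> simp [K0, e, AffineMap.lineMap_apply, h0, h1, h2] <;> ring

lemma mem_K0_4 (h0 : x 0 = -s) (h1 : x 1 = 1 - 3 * s) (h2 : x 2 = -1 + 2 * s) :
    x ∈ carrier K0 := by
  refine mem_iUnion.mpr ⟨4, (mem_edge_iff _ _ _).mpr ⟨s, hs, ?_⟩⟩
  have e : (4 : Fin 6) + 1 = 5 := rfl
  ext i
  fin_cases i <;> simp [K0, e, AffineMap.lineMap_apply, h0, h1, h2] <;> ring

lemma mem_K0_5 (h0 : x 0 = -1 + 2 * s) (h1 : x 1 = -2 + 2 * s) (h2 : x 2 = 1 - 2 * s) :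
    x ∈ carrier K0 := by
  refine mem_iUnion.mpr ⟨5, (mem_edge_iff _ _ _).mpr ⟨s, hs, ?_⟩⟩
  have e : (5 : Fin 6) + 1 = 0 := rfl
  ext i
  fin_cases i <;> simp [K0, e, AffineMap.lineMap_apply, h0, h1, h2] <;> ring

end edges

/-- The two crossings of the hexagon with the half plane `y = 0`, `x > 0`. -/
lemma K0_half_plane {x : P3} (hx : x ∈ carrier K0) (h1 : x 1 = 0) (h0 : 0 < x 0) :
    (x 0 = 1 ∧ x 2 = -1) ∨ (x 0 = 1 / 2 ∧ x 2 = 0) := by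
  obtain ⟨k, hk⟩ := mem_iUnion.mp hx
  obtain ⟨s, ⟨hs0, hs1⟩, rfl⟩ := (mem_edge_iff _ _ _).mp hk
  have e0 : (0 : Fin 6) + 1 = 1 := rfl
  have e1 : (1 : Fin 6) + 1 = 2 := rfl
  have e2 : (2 : Fin 6) + 1 = 3 := rfl
  have e3 : (3 : Fin 6) + 1 = 4 := rfl
  have e4 : (4 : Fin 6) + 1 = 5 := rfl
  have e5 : (5 : Fin 6) + 1 = 0 := rfl
  fin_cases k
  · simp [K0, AffineMap.lineMap_apply] at h0 h1 ⊢
    subst h1; left; constructor <;> norm_num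
  · simp [K0, AffineMap.lineMap_apply, e1] at h0 h1 ⊢
    exfalso; linarith
  · simp [K0, AffineMap.lineMap_apply, e2] at h0 h1 ⊢
    right; constructor <;> linarith
  · simp [K0, AffineMap.lineMap_apply, e3] at h0 h1 ⊢
  · simp [K0, AffineMap.lineMap_apply, e4] at h0 h1 ⊢
    exfalso; linarith
  · simp [K0, AffineMap.lineMap_apply, e5] at h0 h1 ⊢
    left; constructor <;> linarith

/-- Discriminant of the pair of strands. -/
noncomputable def DDf (e o w : ℝ) : ℂ := ((-3 * w : ℝ) : ℂ) + ((e ^ 2 / 2 - 9 * o ^ 2 / 2 : ℝ) : ℂ) * I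

noncomputable def aaf (e o z : ℝ) : ℂ :=
  ((1 - (3 * e + 5 * o) / 2 : ℝ) : ℂ) + ((z + (e + o) / 2 : ℝ) : ℂ) * I

noncomputable def qcf (x y : ℝ) : ℂ := (x : ℂ) + ((-y : ℝ) : ℂ) * I

lemma sqrt_lemma {e o w z σ : ℝ} {ε : ℝ} (hε : ε = 1 ∨ ε = -1) (hw : w = -(ε * (e * o)))
    (h : aaf e o z ^ 2 = (σ : ℂ) ^ 2 * DDf e o w) :
    ∃ κ : ℝ, (κ = σ ∨ κ = -σ) ∧ 1 - (3 * e + 5 * o) / 2 = κ * ((ε * e + 3 * o) / 2) ∧
      z + (e + o) / 2 = κ * ((ε * e - 3 * o) / 2) := by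
  set δ : ℂ := (((ε * e + 3 * o) / 2 : ℝ) : ℂ) + (((ε * e - 3 * o) / 2 : ℝ) : ℂ) * I with hδ
  have hε2 : ε ^ 2 = 1 := by rcases hε with h | h <;> rw [h] <;> norm_num
  have hD : DDf e o w = δ ^ 2 := by
    apply Complex.ext
    · simp only [DDf, hδ, pow_two, add_re, mul_re, ofReal_re, ofReal_im, I_re, I_im, add_im,
        mul_im]
      rw [hw]; ring
    · simp only [DDf, hδ, pow_two, add_re, mul_re, ofReal_re, ofReal_im, I_re, I_im, add_im,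
        mul_im]
      linear_combination (-(e ^ 2) / 2) * hε2
  rw [hD, ← mul_pow] at h
  have hre : ∀ κ : ℝ, ((κ : ℂ) * δ).re = κ * ((ε * e + 3 * o) / 2) := by
    intro κ
    simp [hδ]
  have him : ∀ κ : ℝ, ((κ : ℂ) * δ).im = κ * ((ε * e - 3 * o) / 2) := by
    intro κ
    simp [hδ]
  have har : (aaf e o z).re = 1 - (3 * e + 5 * o) / 2 := by simp [aaf]
  have hai : (aaf e o z).im = z + (e + o) / 2 := by simp [aaf]
  rcases sq_eq_sq_iff_eq_or_eq_neg.mp h with h | h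
  · refine ⟨σ, Or.inl rfl, ?_, ?_⟩
    · rw [← har, h, hre]
    · rw [← hai, h, him]
  · have h' : aaf e o z = ((-σ : ℝ) : ℂ) * δ := by rw [h]; push_cast; ring
    refine ⟨-σ, Or.inr rfl, ?_, ?_⟩
    · rw [← har, h', hre]
    · rw [← hai, h', him]

lemma eps_of_sec {e o w x y : ℝ} (h : Sec e o w x y) :
    ∃ ε : ℝ, (ε = 1 ∨ ε = -1) ∧ w = -(ε * (e * o)) := by
  rcases h with h | h | h | h | h | h
  · exact ⟨-1, Or.inr rfl, by rw [h.2.2]; ring⟩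
  · exact ⟨1, Or.inl rfl, by rw [h.2.2]; ring⟩
  · exact ⟨-1, Or.inr rfl, by rw [h.2.2]; ring⟩
  · exact ⟨1, Or.inl rfl, by rw [h.2.2]; ring⟩
  · exact ⟨-1, Or.inr rfl, by rw [h.2.2]; ring⟩
  · exact ⟨1, Or.inl rfl, by rw [h.2.2]; ring⟩

lemma region {e o w z σ x y : ℝ} (he : 0 ≤ e) (ho : 0 ≤ o) (hσ0 : 0 ≤ σ) (hσ1 : σ ≤ 1)
    (hsec : Sec e o w x y) (h : aaf e o z ^ 2 = (σ : ℂ) ^ 2 * DDf e o w) :
    e + o ≤ 1 ∧ 1 ≤ 2 * e + 4 * o ∧ |z| ≤ 2 := by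
  obtain ⟨ε, hε, hw⟩ := eps_of_sec hsec
  obtain ⟨κ, hκ, h1, h2⟩ := sqrt_lemma hε hw h
  have hκ0 : -1 ≤ κ ∧ κ ≤ 1 := by
    rcases hκ with h | h <;> rw [h] <;> constructor <;> linarith
  obtain ⟨k0, k1⟩ := hκ0
  have a1 : κ * e ≤ e := by nlinarith
  have a2 : -e ≤ κ * e := by nlinarith
  have a3 : κ * o ≤ o := by nlinarith
  have a4 : -o ≤ κ * o := by nlinarith
  rcases hε with h3 | h3
  · rw [h3] at h1 h2
    refine ⟨by nlinarith, by nlinarith, abs_le.mpr ⟨by nlinarith, by nlinarith⟩⟩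
  · rw [h3] at h1 h2
    refine ⟨by nlinarith, by nlinarith, abs_le.mpr ⟨by nlinarith, by nlinarith⟩⟩

lemma mem_K0 {e o w : ℝ} {x : P3} (he : 0 ≤ e) (ho : 0 ≤ o)
    (hsec : Sec e o w (x 0) (x 1)) (h : aaf e o (x 2) ^ 2 = DDf e o w) : x ∈ carrier K0 := by
  have h' : aaf e o (x 2) ^ 2 = ((1 : ℝ) : ℂ) ^ 2 * DDf e o w := by rw [h]; norm_num
  have even : w = e * o → (1 = e + 4 * o ∧ x 2 = -e - 2 * o) ∨ (1 = 2 * e + o ∧ x 2 = o) := by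
    intro hw
    obtain ⟨κ, hκ, h1, h2⟩ := sqrt_lemma (ε := -1) (Or.inr rfl) (by rw [hw]; ring) h'
    rcases hκ with hκ | hκ <;> rw [hκ] at h1 h2
    · left; constructor <;> linarith
    · right; constructor <;> linarith
  have odd : w = -(e * o) → (1 = 2 * e + 4 * o ∧ x 2 = -2 * o) ∨ (1 = e + o ∧ x 2 = -e + o) := by
    intro hw
    obtain ⟨κ, hκ, h1, h2⟩ := sqrt_lemma (ε := 1) (Or.inl rfl) (by rw [hw]; ring) h'
    rcases hκ with hκ | hκ <;> rw [hκ] at h1 h2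
    · left; constructor <;> linarith
    · right; constructor <;> linarith
  rcases hsec with ⟨hx, hy, hw⟩ | ⟨hx, hy, hw⟩ | ⟨hx, hy, hw⟩ | ⟨hx, hy, hw⟩ | ⟨hx, hy, hw⟩ |
    ⟨hx, hy, hw⟩
  · rcases even hw with ⟨h1, h2⟩ | ⟨h1, h2⟩
    · exact mem_K0_0 (s := o) ⟨by linarith, by linarith⟩ (by linarith) (by linarith) (by linarith)
    · exact mem_K0_2 (s := (1 + o) / 2) ⟨by linarith, by linarith⟩ (by linarith) (by linarith)
        (by linarith)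
  · rcases odd hw with ⟨h1, h2⟩ | ⟨h1, h2⟩
    · exact mem_K0_0 (s := o + e) ⟨by linarith, by linarith⟩ (by linarith) (by linarith)
        (by linarith)
    · exact mem_K0_3 (s := e) ⟨by linarith, by linarith⟩ (by linarith) (by linarith) (by linarith)
  · rcases even hw with ⟨h1, h2⟩ | ⟨h1, h2⟩
    · exact mem_K0_4 (s := o) ⟨by linarith, by linarith⟩ (by linarith) (by linarith) (by linarith)
    · exact mem_K0_0 (s := e + o) ⟨by linarith, by linarith⟩ (by linarith) (by linarith)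
        (by linarith)
  · rcases odd hw with ⟨h1, h2⟩ | ⟨h1, h2⟩
    · exact mem_K0_4 (s := o + e) ⟨by linarith, by linarith⟩ (by linarith) (by linarith)
        (by linarith)
    · exact mem_K0_1 (s := e) ⟨by linarith, by linarith⟩ (by linarith) (by linarith) (by linarith)
  · rcases even hw with ⟨h1, h2⟩ | ⟨h1, h2⟩
    · exact mem_K0_2 (s := o) ⟨by linarith, by linarith⟩ (by linarith) (by linarith) (by linarith)
    · exact mem_K0_4 (s := e + o) ⟨by linarith, by linarith⟩ (by linarith) (by linarith)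
        (by linarith)
  · rcases odd hw with ⟨h1, h2⟩ | ⟨h1, h2⟩
    · exact mem_K0_2 (s := e + o) ⟨by linarith, by linarith⟩ (by linarith) (by linarith)
        (by linarith)
    · exact mem_K0_5 (s := e) ⟨by linarith, by linarith⟩ (by linarith) (by linarith) (by linarith)

lemma DDf_ne {e o w x y : ℝ} (he : 0 ≤ e) (ho : 0 ≤ o) (hsec : Sec e o w x y)
    (h : 0 < 2 * e + 4 * o) : DDf e o w ≠ 0 := by
  intro h0
  obtain ⟨ε, hε, hw⟩ := eps_of_sec hsec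
  have h1 := congrArg Complex.re h0
  have h2 := congrArg Complex.im h0
  simp only [DDf, add_re, mul_re, ofReal_re, ofReal_im, I_re, I_im, add_im, mul_im, zero_re,
    zero_im] at h1 h2
  have h3 : e * o = 0 := by
    rcases hε with h | h <;> rw [h] at hw <;> linarith
  rcases mul_eq_zero.mp h3 with h | h
  · rw [h] at h2; nlinarith
  · rw [h] at h2; nlinarith

lemma re_poly (e o w x y : ℝ) : (DDf e o w * qcf x y ^ 3).re =
    -3 * w * (x ^ 3 - 3 * x * y ^ 2) + (e ^ 2 / 2 - 9 * o ^ 2 / 2) * (3 * x ^ 2 * y - y ^ 3) := by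
  simp only [DDf, qcf, pow_succ, pow_zero, one_mul, add_re, mul_re, ofReal_re, ofReal_im, I_re,
    I_im, add_im, mul_im]
  ring

/-- The key sign condition. -/
lemma re_nonpos {e o w x y : ℝ} (he : 0 ≤ e) (ho : 0 ≤ o) (hsec : Sec e o w x y) :
    (DDf e o w * qcf x y ^ 3).re ≤ 0 := by
  rw [re_poly]
  rcases hsec with ⟨hx, hy, hw⟩ | ⟨hx, hy, hw⟩ | ⟨hx, hy, hw⟩ | ⟨hx, hy, hw⟩ | ⟨hx, hy, hw⟩ |
    ⟨hx, hy, hw⟩ <;> rw [hx, hy, hw]
  · have : 0 ≤ 198 * o ^ 5 + 240 * e * o ^ 4 + 140 * e ^ 2 * o ^ 3 + 48 * e ^ 3 * o ^ 2 +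
      6 * e ^ 4 * o := by positivity
    nlinarith
  · have : 0 ≤ 2 * e ^ 5 + 6 * o * e ^ 4 + 36 * o ^ 2 * e ^ 3 + 68 * o ^ 3 * e ^ 2 +
      138 * o ^ 4 * e + 198 * o ^ 5 := by positivity
    nlinarith
  · have : 0 ≤ 36 * o ^ 5 + 24 * e * o ^ 4 + 14 * e ^ 2 * o ^ 3 + 18 * e ^ 3 * o ^ 2 +
      6 * e ^ 4 * o + 2 * e ^ 5 := by positivity
    nlinarith
  · have : 0 ≤ 4 * e ^ 3 * (e - 3 / 2 * o) ^ 2 + 15 * o ^ 2 * e ^ 3 +
      o ^ 2 * e * (20 * o ^ 2 + 64 * o ^ 2 - 40 * o * e) + 36 * o ^ 5 := by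
      have h1 : 0 ≤ 15 * e ^ 2 - 40 * o * e + 84 * o ^ 2 := by nlinarith [sq_nonneg (3 * e - 4 * o)]
      have h2 : 0 ≤ o ^ 2 * e * (15 * e ^ 2 - 40 * o * e + 84 * o ^ 2) := by positivity
      have h3 : 0 ≤ 4 * e ^ 3 * (e - 3 / 2 * o) ^ 2 := by positivity
      have h4 : 0 ≤ 36 * o ^ 5 := by positivity
      nlinarith
    nlinarith
  · have : 0 ≤ 36 * o ^ 5 + 78 * e * o ^ 4 + 140 * e ^ 2 * o ^ 3 + 114 * e ^ 3 * o ^ 2 +
      36 * e ^ 4 * o + 4 * e ^ 5 := by positivity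
    nlinarith
  · have h1 : 0 ≤ 12 * e ^ 2 - 4 * o * e + 84 * o ^ 2 := by nlinarith [sq_nonneg (e - 2 * o)]
    have h2 : 0 ≤ o ^ 2 * e * (12 * e ^ 2 - 4 * o * e + 84 * o ^ 2) := by positivity
    have h3 : 0 ≤ 36 * o ^ 5 := by positivity
    nlinarith

end MP6bf31b
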