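import Pool.Agent.Lib.MP_6bf31b_an.Deriv
import Pool.Agent.Lib.MP_6bf31b_an.LinAlg

/-!
# The stress matrix of a hexagon
-/

namespace MP6bf31b

open Matrix

section
variable (d : Fin 6 → Fin 6 → ℝ)

noncomputable def G (a b c e : Fin 6) : ℝ :=
  gg (d a b) (d b c) (d c e) (d a e) (d a c) (d b e)

noncomputable def Hc (a b c e : Fin 6) : ℝ :=
  hh (d a b) (d b c) (d c e) (d a e) (d a c) (d b e)

noncomputable def psi01 : ℝ := G d 0 1 2 3 + G d 4 5 0 1 + G d 0 1 3 4 + Hc d 5 0 1 2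
noncomputable def psi12 : ℝ := G d 1 2 3 4 + G d 5 0 1 2 + G d 1 2 4 5 + Hc d 0 1 2 3
noncomputable def psi23 : ℝ := G d 0 1 2 3 + G d 2 3 4 5 + G d 2 3 5 0 + Hc d 1 2 3 4
noncomputable def psi34 : ℝ := G d 1 2 3 4 + G d 3 4 5 0 + G d 0 1 3 4 + Hc d 2 3 4 5
noncomputable def psi45 : ℝ := G d 2 3 4 5 + G d 4 5 0 1 + G d 1 2 4 5 + Hc d 3 4 5 0
noncomputable def psi05 : ℝ := G d 3 4 5 0 + G d 5 0 1 2 + G d 2 3 5 0 + Hc d 4 5 0 1
noncomputable def psi02 : ℝ :=
  -(G d 0 1 2 3 + Hc d 0 1 2 3) - (G d 5 0 1 2 + Hc d 5 0 1 2) + Hc d 2 3 5 0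
noncomputable def psi13 : ℝ :=
  -(G d 0 1 2 3 + Hc d 0 1 2 3) - (G d 1 2 3 4 + Hc d 1 2 3 4) + Hc d 0 1 3 4
noncomputable def psi24 : ℝ :=
  -(G d 1 2 3 4 + Hc d 1 2 3 4) - (G d 2 3 4 5 + Hc d 2 3 4 5) + Hc d 1 2 4 5
noncomputable def psi35 : ℝ :=
  -(G d 2 3 4 5 + Hc d 2 3 4 5) - (G d 3 4 5 0 + Hc d 3 4 5 0) + Hc d 2 3 5 0
noncomputable def psi04 : ℝ :=
  -(G d 3 4 5 0 + Hc d 3 4 5 0) - (G d 4 5 0 1 + Hc d 4 5 0 1) + Hc d 0 1 3 4
noncomputable def psi15 : ℝ :=
  -(G d 4 5 0 1 + Hc d 4 5 0 1) - (G d 5 0 1 2 + Hc d 5 0 1 2) + Hc d 1 2 4 5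
noncomputable def psi03 : ℝ :=
  Hc d 0 1 2 3 + Hc d 3 4 5 0 - (G d 0 1 3 4 + Hc d 0 1 3 4) - (G d 2 3 5 0 + Hc d 2 3 5 0)
noncomputable def psi14 : ℝ :=
  Hc d 1 2 3 4 + Hc d 4 5 0 1 - (G d 0 1 3 4 + Hc d 0 1 3 4) - (G d 1 2 4 5 + Hc d 1 2 4 5)
noncomputable def psi25 : ℝ :=
  Hc d 2 3 4 5 + Hc d 5 0 1 2 - (G d 1 2 4 5 + Hc d 1 2 4 5) - (G d 2 3 5 0 + Hc d 2 3 5 0)

/-- The numbers `∂E/∂ log |p_i - p_j|` (up to a factor). -/
noncomputable def psi : Fin 6 → Fin 6 → ℝ :=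
  ![![0, psi01 d, psi02 d, psi03 d, psi04 d, psi05 d],
    ![psi01 d, 0, psi12 d, psi13 d, psi14 d, psi15 d],
    ![psi02 d, psi12 d, 0, psi23 d, psi24 d, psi25 d],
    ![psi03 d, psi13 d, psi23 d, 0, psi34 d, psi35 d],
    ![psi04 d, psi14 d, psi24 d, psi34 d, 0, psi45 d],
    ![psi05 d, psi15 d, psi25 d, psi35 d, psi45 d, 0]]

lemma psi_row (i : Fin 6) :
    psi d i 0 + psi d i 1 + psi d i 2 + psi d i 3 + psi d i 4 + psi d i 5 = 0 := by
  fin_cases i <;> simp [psi, psi01, psi12, psi23, psi34, psi45, psi05, psi02, psi13, psi24, psi35,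
    psi04, psi15, psi03, psi14, psi25] <;> ring

lemma psi_symm (i j : Fin 6) : psi d i j = psi d j i := by
  fin_cases i <;> fin_cases j <;> rfl

lemma psi_diag (i : Fin 6) : psi d i i = 0 := by
  fin_cases i <;> rfl

/-- The stress matrix. -/
noncomputable def stress : Matrix (Fin 6) (Fin 6) ℝ := fun i j =>
  if i = j then psi d i 0 / d i 0 ^ 2 + psi d i 1 / d i 1 ^ 2 + psi d i 2 / d i 2 ^ 2 +
    psi d i 3 / d i 3 ^ 2 + psi d i 4 / d i 4 ^ 2 + psi d i 5 / d i 5 ^ 2
  else -(psi d i j / d i j ^ 2)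

end

lemma stress_symm {d : Fin 6 → Fin 6 → ℝ} (hsym : ∀ i j, d i j = d j i) (i j : Fin 6) :
    stress d i j = stress d j i := by
  unfold stress
  by_cases h : i = j
  · subst h; rfl
  · rw [if_neg h, if_neg (Ne.symm h), psi_symm, hsym]

lemma stress_row {d : Fin 6 → Fin 6 → ℝ} (i : Fin 6) :
    stress d i 0 + stress d i 1 + stress d i 2 + stress d i 3 + stress d i 4 + stress d i 5 = 0 := by
  have h := psi_diag d
  fin_cases i
  · have := h 0; simp +decide [stress, this]; ring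
  · have := h 1; simp +decide [stress, this]; ring
  · have := h 2; simp +decide [stress, this]; ring
  · have := h 3; simp +decide [stress, this]; ring
  · have := h 4; simp +decide [stress, this]; ring
  · have := h 5; simp +decide [stress, this]; ring

/-- The first variation is the quadratic form of the stress matrix. -/
lemma L9_eq {d : Fin 6 → Fin 6 → ℝ} (hsym : ∀ i j, d i j = d j i) (y x : Fin 6 → ℝ) :
    L9 d (fun i j => (y i - y j) * (x i - x j) / d i j ^ 2) = 2 * (y ⬝ᵥ stress d *ᵥ x) := by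
  have e10 := hsym 1 0
  have e20 := hsym 2 0
  have e30 := hsym 3 0
  have e40 := hsym 4 0
  have e50 := hsym 5 0
  have e21 := hsym 2 1
  have e31 := hsym 3 1
  have e41 := hsym 4 1
  have e51 := hsym 5 1
  have e32 := hsym 3 2
  have e42 := hsym 4 2
  have e52 := hsym 5 2
  have e43 := hsym 4 3
  have e53 := hsym 5 3
  have e54 := hsym 5 4
  have key : ∀ a b c e : Fin 6, Lc d (fun i j => (y i - y j) * (x i - x j) / d i j ^ 2) a b c e =
      G d a b c e * ((y a - y b) * (x a - x b) / d a b ^ 2 + (y c - y e) * (x c - x e) / d c e ^ 2) +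
      Hc d a b c e * ((y b - y c) * (x b - x c) / d b c ^ 2 +
        (y a - y e) * (x a - x e) / d a e ^ 2) -
      (G d a b c e + Hc d a b c e) * ((y a - y c) * (x a - x c) / d a c ^ 2 +
        (y b - y e) * (x b - x e) / d b e ^ 2) := fun _ _ _ _ => rfl
  unfold L9
  simp only [key]
  simp only [dotProduct, Matrix.mulVec, Fin.sum_univ_six]
  simp +decide only [stress, if_true, if_false]
  simp only [e10, e20, e30, e40, e50, e21, e31, e41, e51, e32, e42, e52, e43, e53, e54]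
  simp only [psi, Matrix.cons_val_zero, Matrix.cons_val_one, Matrix.cons_val]
  simp only [psi01, psi12, psi23, psi34, psi45, psi05, psi02, psi13, psi24, psi35,
    psi04, psi15, psi03, psi14, psi25]
  generalize G d 0 1 2 3 = g1
  generalize G d 1 2 3 4 = g2
  generalize G d 2 3 4 5 = g3
  generalize G d 3 4 5 0 = g4
  generalize G d 4 5 0 1 = g5
  generalize G d 5 0 1 2 = g6
  generalize G d 0 1 3 4 = g7
  generalize G d 1 2 4 5 = g8
  generalize G d 2 3 5 0 = g9
  generalize Hc d 0 1 2 3 = h1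
  generalize Hc d 1 2 3 4 = h2
  generalize Hc d 2 3 4 5 = h3
  generalize Hc d 3 4 5 0 = h4
  generalize Hc d 4 5 0 1 = h5
  generalize Hc d 5 0 1 2 = h6
  generalize Hc d 0 1 3 4 = h7
  generalize Hc d 1 2 4 5 = h8
  generalize Hc d 2 3 5 0 = h9
  ring

/-- Sign pattern of the stress matrix. -/
lemma stress_proper {d : Fin 6 → Fin 6 → ℝ} (hsym : ∀ i j, d i j = d j i)
    (hpos : ∀ i j, i ≠ j → 0 < d i j)
    (hpt : ∀ a b c e : Fin 6, d a c * d b e ≤ d a b * d c e + d b c * d a e) :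
    Proper (stress d) := by
  have hG : ∀ a b c e : Fin 6, a ≠ b → b ≠ c → c ≠ e → a ≠ e → a ≠ c → b ≠ e →
      1 < G d a b c e + Hc d a b c e ∧ Hc d a b c e ≤ 1 := by
    intro a b c e n1 n2 n3 n4 n5 n6
    refine ⟨one_lt_gg_add_hh (hpos _ _ n1) (hpos _ _ n2) (hpos _ _ n3) (hpos _ _ n4)
      (hpos _ _ n5) (hpos _ _ n6), ?_⟩
    refine hh_le_one (hpos _ _ n1) (hpos _ _ n2) (hpos _ _ n3) (hpos _ _ n4)
      (hpos _ _ n5) (hpos _ _ n6) ?_ ?_
    · have := hpt b a c e
      rw [hsym b a] at this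
      linarith
    · have := hpt a b c e
      linarith
  obtain ⟨a1, b1⟩ := hG 0 1 2 3 (by decide) (by decide) (by decide) (by decide) (by decide)
    (by decide)
  obtain ⟨a2, b2⟩ := hG 1 2 3 4 (by decide) (by decide) (by decide) (by decide) (by decide)
    (by decide)
  obtain ⟨a3, b3⟩ := hG 2 3 4 5 (by decide) (by decide) (by decide) (by decide) (by decide)
    (by decide)
  obtain ⟨a4, b4⟩ := hG 3 4 5 0 (by decide) (by decide) (by decide) (by decide) (by decide)
    (by decide)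
  obtain ⟨a5, b5⟩ := hG 4 5 0 1 (by decide) (by decide) (by decide) (by decide) (by decide)
    (by decide)
  obtain ⟨a6, b6⟩ := hG 5 0 1 2 (by decide) (by decide) (by decide) (by decide) (by decide)
    (by decide)
  obtain ⟨a7, b7⟩ := hG 0 1 3 4 (by decide) (by decide) (by decide) (by decide) (by decide)
    (by decide)
  obtain ⟨a8, b8⟩ := hG 1 2 4 5 (by decide) (by decide) (by decide) (by decide) (by decide)
    (by decide)
  obtain ⟨a9, b9⟩ := hG 2 3 5 0 (by decide) (by decide) (by decide) (by decide) (by decide)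
    (by decide)
  have pos : ∀ i j : Fin 6, i ≠ j → psi d i j < 0 → 0 < stress d i j := by
    intro i j hij h
    unfold stress
    rw [if_neg hij]
    have := hpos i j hij
    have : psi d i j / d i j ^ 2 < 0 := div_neg_of_neg_of_pos h (by positivity)
    linarith
  refine ⟨stress_symm hsym, stress_row, ?_, ?_, ?_, ?_, ?_, ?_, ?_, ?_, ?_⟩
  · exact pos _ _ (by decide) (show psi02 d < 0 by unfold psi02; linarith)
  · exact pos _ _ (by decide) (show psi04 d < 0 by unfold psi04; linarith)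
  · exact pos _ _ (by decide) (show psi24 d < 0 by unfold psi24; linarith)
  · exact pos _ _ (by decide) (show psi13 d < 0 by unfold psi13; linarith)
  · exact pos _ _ (by decide) (show psi15 d < 0 by unfold psi15; linarith)
  · exact pos _ _ (by decide) (show psi35 d < 0 by unfold psi35; linarith)
  · exact pos _ _ (by decide) (show psi03 d < 0 by unfold psi03; linarith)
  · exact pos _ _ (by decide) (show psi14 d < 0 by unfold psi14; linarith)
  · exact pos _ _ (by decide) (show psi25 d < 0 by unfold psi25; linarith)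

end MP6bf31b
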