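import Pool.Agent.Lib.MP_6bf31b_an.Concyclic
import Pool.Agent.Lib.MP_6bf31b_an.FMap

/-!
# The complement of the round circle
-/

namespace MP6bf31b

open Set Topology Filter

/-- The denominator. -/
noncomputable def Dl (p : ℂ × ℂ) : ℝ := Real.sqrt (1 + ‖p.2‖ ^ 2) - p.1.im

/-- The map `S¹ × ℂ → ℝ³`. -/
noncomputable def Th (p : ℂ × ℂ) : P3 := (Dl p)⁻¹ • !₂[p.2.re, p.2.im, p.1.re]

/-- An auxiliary complex number vanishing exactly on the unit circle. -/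
noncomputable def wf (x : P3) : ℂ := ((2 * x 2 : ℝ) : ℂ) + ((‖x‖ ^ 2 - 1 : ℝ) : ℂ) * Complex.I

/-- The inverse map `ℝ³ ∖ U → S¹ × ℂ`. -/
noncomputable def Ps (x : P3) : ℂ × ℂ :=
  (wf x / (‖wf x‖ : ℂ), ((2 / ‖wf x‖ : ℝ) : ℂ) * ((x 0 : ℂ) + (x 1 : ℂ) * Complex.I))

lemma norm_sq_P3 (x : P3) : ‖x‖ ^ 2 = x 0 ^ 2 + x 1 ^ 2 + x 2 ^ 2 := by
  rw [EuclideanSpace.norm_sq_eq, Fin.sum_univ_three]
  simp

lemma wf_re (x : P3) : (wf x).re = 2 * x 2 := by
  unfold wf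
  rw [Complex.add_re, Complex.ofReal_re, Complex.re_ofReal_mul, Complex.I_re]; ring

lemma wf_im (x : P3) : (wf x).im = ‖x‖ ^ 2 - 1 := by
  unfold wf
  rw [Complex.add_im, Complex.ofReal_im, Complex.im_ofReal_mul, Complex.I_im]; ring

lemma wf_ne {x : P3} (hx : x ∉ circleU) : wf x ≠ 0 := by
  intro h
  apply hx
  have h1 := congrArg Complex.re h
  have h2 := congrArg Complex.im h
  rw [wf_re, Complex.zero_re] at h1
  rw [wf_im, Complex.zero_im, norm_sq_P3] at h2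
  have h3 : x 2 = 0 := by linarith
  rw [h3] at h2
  exact ⟨h3, by linarith⟩

lemma wf_norm_sq (x : P3) : ‖wf x‖ ^ 2 = 4 * x 2 ^ 2 + (‖x‖ ^ 2 - 1) ^ 2 := by
  rw [norm_sq_eq]
  rw [wf_re, wf_im]; ring

lemma Ps_norm {x : P3} (hx : x ∉ circleU) : ‖(Ps x).1‖ = 1 := by
  have h := norm_ne_zero_iff.mpr (wf_ne hx)
  unfold Ps
  simp only [norm_div, Complex.norm_real, norm_norm]
  exact div_self h

lemma Ps_snd_norm_sq (x : P3) : ‖(Ps x).2‖ ^ 2 = (2 / ‖wf x‖) ^ 2 * (x 0 ^ 2 + x 1 ^ 2) := by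
  unfold Ps
  simp only [norm_mul, mul_pow, Complex.norm_real, Real.norm_eq_abs, sq_abs]
  congr 1
  rw [norm_sq_eq]
  simp

lemma Dl_Ps {x : P3} (hx : x ∉ circleU) : Dl (Ps x) = 2 / ‖wf x‖ := by
  have h := norm_pos_iff.mpr (wf_ne hx)
  unfold Dl
  rw [Ps_snd_norm_sq]
  have e : 1 + (2 / ‖wf x‖) ^ 2 * (x 0 ^ 2 + x 1 ^ 2) = ((‖x‖ ^ 2 + 1) / ‖wf x‖) ^ 2 := by
    field_simp
    rw [wf_norm_sq, norm_sq_P3]
    ring
  rw [e, Real.sqrt_sq (by positivity)]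
  have e2 : (Ps x).1.im = (‖x‖ ^ 2 - 1) / ‖wf x‖ := by
    rw [← wf_im]
    unfold Ps
    simp only [Complex.div_ofReal_im]
  rw [e2]
  field_simp
  ring

lemma Th_Ps {x : P3} (hx : x ∉ circleU) : Th (Ps x) = x := by
  have h := norm_pos_iff.mpr (wf_ne hx)
  unfold Th
  rw [Dl_Ps hx]
  have e1 : (Ps x).1.re = (2 * x 2) / ‖wf x‖ := by
    rw [← wf_re]
    unfold Ps
    simp only [Complex.div_ofReal_re]
  have e2 : (Ps x).2.re = (2 / ‖wf x‖) * x 0 := by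
    unfold Ps
    simp only [Complex.re_ofReal_mul]
    simp
  have e3 : (Ps x).2.im = (2 / ‖wf x‖) * x 1 := by
    unfold Ps
    simp only [Complex.im_ofReal_mul]
    simp
  rw [e1, e2, e3]
  ext i
  fin_cases i
  · simp
    field_simp
  · simp
    field_simp
  · simp
    field_simp

lemma im_le_one {c : ℂ} (hc : ‖c‖ = 1) : c.im ≤ 1 := by
  have := Complex.abs_im_le_norm c
  rw [hc] at this
  exact (abs_le.mp this).2

lemma one_le_sqrt (z : ℂ) : 1 ≤ Real.sqrt (1 + ‖z‖ ^ 2) := by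
  rw [Real.one_le_sqrt]; nlinarith [sq_nonneg ‖z‖]

lemma Dl_nonneg {p : ℂ × ℂ} (hc : ‖p.1‖ = 1) : 0 ≤ Dl p := by
  have h1 := im_le_one hc
  have h2 := one_le_sqrt p.2
  unfold Dl; linarith

lemma Th_norm_sq {p : ℂ × ℂ} (hc : ‖p.1‖ = 1) (h : Dl p ≠ 0) :
    ‖Th p‖ ^ 2 = (Dl p + 2 * p.1.im) / Dl p := by
  have hS : Real.sqrt (1 + ‖p.2‖ ^ 2) ^ 2 = 1 + ‖p.2‖ ^ 2 := Real.sq_sqrt (by positivity)
  have hS2 : Real.sqrt (1 + ‖p.2‖ ^ 2) = Dl p + p.1.im := by unfold Dl; ring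
  rw [hS2, norm_sq_eq] at hS
  have hc2 : p.1.re ^ 2 + p.1.im ^ 2 = 1 := by rw [← norm_sq_eq, hc]; norm_num
  have e : ‖Th p‖ ^ 2 = (Dl p)⁻¹ ^ 2 * (p.2.re ^ 2 + p.2.im ^ 2 + p.1.re ^ 2) := by
    rw [norm_sq_P3]
    unfold Th
    simp
    ring
  rw [e]
  field_simp
  linear_combination hc2 - hS

lemma Th_not_mem {p : ℂ × ℂ} (hc : ‖p.1‖ = 1) (h : Dl p ≠ 0) : Th p ∉ circleU := by
  rintro ⟨h2, h01⟩
  have hS : Real.sqrt (1 + ‖p.2‖ ^ 2) ^ 2 = 1 + ‖p.2‖ ^ 2 := Real.sq_sqrt (by positivity)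
  have hS1 := one_le_sqrt p.2
  have hS2 : Real.sqrt (1 + ‖p.2‖ ^ 2) = Dl p + p.1.im := by unfold Dl; ring
  rw [hS2, norm_sq_eq] at hS
  rw [hS2] at hS1
  have hc2 : p.1.re ^ 2 + p.1.im ^ 2 = 1 := by rw [← norm_sq_eq, hc]; norm_num
  have e2 : (Th p) 2 = (Dl p)⁻¹ * p.1.re := by unfold Th; simp
  have e0 : (Th p) 0 = (Dl p)⁻¹ * p.2.re := by unfold Th; simp
  have e1 : (Th p) 1 = (Dl p)⁻¹ * p.2.im := by unfold Th; simp
  rw [e2] at h2
  rw [e0, e1] at h01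
  have hre : p.1.re = 0 := (mul_eq_zero.mp h2).resolve_left (inv_ne_zero h)
  rw [hre] at hc2
  have h3 : p.2.re ^ 2 + p.2.im ^ 2 = Dl p ^ 2 := by
    have : ((Dl p)⁻¹ * p.2.re) ^ 2 + ((Dl p)⁻¹ * p.2.im) ^ 2 =
        (Dl p)⁻¹ ^ 2 * (p.2.re ^ 2 + p.2.im ^ 2) := by ring
    rw [this] at h01
    field_simp at h01
    exact h01
  have him : p.1.im = 1 ∨ p.1.im = -1 := by
    have : (p.1.im - 1) * (p.1.im + 1) = 0 := by linear_combination hc2
    rcases mul_eq_zero.mp this with h | h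
    · left; linarith
    · right; linarith
  rcases him with h4 | h4
  · rw [h4] at hS
    apply h
    nlinarith
  · rw [h4] at hS hS1
    nlinarith

lemma continuous_wf : Continuous wf := by unfold wf; fun_prop

lemma continuousOn_Ps : ContinuousOn Ps circleUᶜ := by
  have h1 : ContinuousOn wf circleUᶜ := continuous_wf.continuousOn
  have h2 : ∀ x ∈ circleUᶜ, ‖wf x‖ ≠ 0 := fun x hx => norm_ne_zero_iff.mpr (wf_ne hx)
  have h3 : ∀ x ∈ circleUᶜ, (‖wf x‖ : ℂ) ≠ 0 := fun x hx => by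
    exact_mod_cast h2 x hx
  unfold Ps
  refine ContinuousOn.prodMk ?_ ?_
  · exact h1.div (Complex.continuous_ofReal.comp_continuousOn h1.norm) h3
  · refine ContinuousOn.mul ?_ ?_
    · exact Complex.continuous_ofReal.comp_continuousOn
        (continuousOn_const.div h1.norm h2)
    · fun_prop

lemma continuous_Dl : Continuous Dl := by
  unfold Dl
  have : Continuous fun p : ℂ × ℂ => Real.sqrt (1 + ‖p.2‖ ^ 2) :=
    Real.continuous_sqrt.comp (by fun_prop)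
  fun_prop

lemma continuousAt_Th {p : ℂ × ℂ} (h : Dl p ≠ 0) : ContinuousAt Th p := by
  unfold Th
  have h1 : Continuous fun p : ℂ × ℂ => (!₂[p.2.re, p.2.im, p.1.re] : P3) := by
    refine (PiLp.continuous_toLp 2 _).comp ?_
    refine continuous_pi fun i => ?_
    fin_cases i
    · exact Complex.continuous_re.comp continuous_snd
    · exact Complex.continuous_im.comp continuous_snd
    · exact Complex.continuous_re.comp continuous_fst
  exact (continuous_Dl.continuousAt.inv₀ h).smul h1.continuousAt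

section
variable (F : P3 → ℂ × ℂ)

open Classical in
/-- Extension to the solid torus `S¹ × ℂ`, assuming `F = (0,-1)` near infinity. -/
noncomputable def Fx (p : ℂ × ℂ) : ℂ × ℂ := if Dl p = 0 then (0, -1) else F (Th p)

lemma Fx_continuousOn {F : P3 → ℂ × ℂ} (hF : Continuous F) {M : ℝ}
    (hM : ∀ y, M < ‖y‖ → F y = (0, -1)) : ContinuousOn (Fx F) {p | ‖p.1‖ = 1} := by
  intro p hp
  have hp1 : ‖p.1‖ = 1 := hp
  by_cases h0 : Dl p = 0
  · -- the point at infinity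
    have him : p.1.im = 1 := by
      have h1 := im_le_one hp1
      have h2 := one_le_sqrt p.2
      unfold Dl at h0
      linarith
    have hval : Fx F p = (0, -1) := by unfold Fx; rw [if_pos h0]
    unfold ContinuousWithinAt
    rw [hval]
    set ε : ℝ := 1 / (M ^ 2 + 1) with hε
    have hεpos : 0 < ε := by positivity
    have ev1 : ∀ᶠ q in 𝓝[{p | ‖p.1‖ = 1}] p, Dl q < ε := by
      apply nhdsWithin_le_nhds
      have := continuous_Dl.tendsto p
      rw [h0] at this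
      exact this.eventually (gt_mem_nhds hεpos)
    have ev2 : ∀ᶠ q : ℂ × ℂ in 𝓝[{p | ‖p.1‖ = 1}] p, 1 / 2 < q.1.im := by
      apply nhdsWithin_le_nhds
      have hc : Continuous fun q : ℂ × ℂ => q.1.im := Complex.continuous_im.comp continuous_fst
      have := hc.tendsto p
      rw [him] at this
      exact this.eventually (lt_mem_nhds (by norm_num))
    have ev3 : ∀ᶠ q : ℂ × ℂ in 𝓝[{p | ‖p.1‖ = 1}] p, ‖q.1‖ = 1 := self_mem_nhdsWithin
    refine (tendsto_const_nhds (x := ((0 : ℂ), (-1 : ℂ)))).congr' ?_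
    filter_upwards [ev1, ev2, ev3] with q h1 h2 h3
    by_cases h4 : Dl q = 0
    · unfold Fx; rw [if_pos h4]
    · unfold Fx; rw [if_neg h4]
      symm
      apply hM
      have hpos : 0 < Dl q := lt_of_le_of_ne (Dl_nonneg h3) (Ne.symm h4)
      have hn := Th_norm_sq h3 h4
      have h5 : M ^ 2 + 1 < ‖Th q‖ ^ 2 := by
        rw [hn, lt_div_iff₀ hpos]
        have : (M ^ 2 + 1) * Dl q < 1 := by
          rw [hε, lt_div_iff₀ (by positivity)] at h1
          linarith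
        linarith
      have h6 : M ^ 2 < ‖Th q‖ ^ 2 := by linarith
      by_contra hc
      push Not at hc
      have := norm_nonneg (Th q)
      nlinarith
  · have hev : ∀ᶠ q in 𝓝 p, Dl q ≠ 0 := continuous_Dl.continuousAt.eventually_ne h0
    have hcomp : ContinuousAt (fun q => F (Th q)) p :=
      hF.continuousAt.comp (continuousAt_Th h0)
    refine (hcomp.congr ?_).continuousWithinAt
    filter_upwards [hev] with q hq
    unfold Fx; rw [if_neg hq]

lemma Fx_Ps {F : P3 → ℂ × ℂ} {x : P3} (hx : x ∉ circleU) : Fx F (Ps x) = F x := by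
  have h := norm_pos_iff.mpr (wf_ne hx)
  have : Dl (Ps x) ≠ 0 := by rw [Dl_Ps hx]; positivity
  unfold Fx
  rw [if_neg this, Th_Ps hx]

lemma Fx_mem {F : P3 → ℂ × ℂ} (hF : ∀ x, x ∉ circleU → F x ∈ Yset) {p : ℂ × ℂ}
    (hp : ‖p.1‖ = 1) : Fx F p ∈ Yset := by
  unfold Fx
  split_ifs with h
  · change (0 : ℂ) ^ 3 ≠ (-1) ^ 2
    norm_num
  · exact hF _ (Th_not_mem hp h)

end

end MP6bf31b
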